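import Pool.Agent.H313.CC.Tensor

/-!
Coverings of open varieties of any dimension, times a fixed variety.
-/

set_option autoImplicit false
set_option linter.all false
set_option maxHeartbeats 4000000

open Module NumberField Polynomial

namespace Pool.Agent.H313.CC

open Pool.Agent.W313.Hyp Pool.Agent.W343.BSD
open Pool.Agent.TH639.SG (eq_one_of_pow red_char' muL muL_eq)
open Pool.Agent.TH639.SC (exists_hom one_sub_ne one_sub_mod)
open Pool.Agent.TH639.CK (count_gen exists_lift card_dvd)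

section abs

variable {k : Type} [Field k]

/-- A family of power series indexed by the characters; `L₁ / L₂` is its value modulo `ℓ` for the
characters which are trivial modulo `ℓ`. -/
structure Fam (K : Type) [Field K] [NumberField K] (L₁ L₂ : ℤ[X])
    (E : MulChar k (𝓞 K) → PowerSeries (𝓞 K)) : Prop where
  unit : ∀ ψ, PowerSeries.constantCoeff (E ψ) = 1
  congr : ∀ (R : Type) [CommRing R] (ρ : 𝓞 K →+* R) (ψ ψ' : MulChar k (𝓞 K)),
    (∀ u : k, u ≠ 0 → ρ (ψ u) = ρ (ψ' u)) →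
      PowerSeries.map ρ (E ψ) = PowerSeries.map ρ (E ψ')
  map : ∀ (σ : 𝓞 K →+* 𝓞 K) (ψ ψ' : MulChar k (𝓞 K)), (∀ u : k, σ (ψ u) = ψ' u) →
    PowerSeries.map σ (E ψ) = E ψ'
  ident : ∀ (R : Type) [Field R] (ρ : 𝓞 K →+* R) (ψ : MulChar k (𝓞 K)),
    (∀ u : k, u ≠ 0 → ρ (ψ u) = 1) → PowerSeries.map ρ (E ψ) *
      ((L₂.map (Int.castRingHom R) : R[X]) : PowerSeries R) =
        ((L₁.map (Int.castRingHom R) : R[X]) : PowerSeries R)

variable [Finite k]

/-- **Coverings times a fixed variety, for a family of power series.** -/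
theorem tower_abs {ℓ a n : ℕ} (hℓ : ℓ.Prime) (ha : a ≠ 0) (hn0 : 0 < n) (hn : n.Coprime ℓ)
    (K : Type) [Field K] [NumberField K] [IsGalois ℚ K]
    {χ : MulChar k (𝓞 K)} (hχ : orderOf χ = n * ℓ ^ a)
    (B : Multiset (𝓞 K)) (hB : ∀ σ : 𝓞 K →+* 𝓞 K, B.map σ = B)
    {L₁ L₂ : ℤ[X]} (hL₂ : L₂.coeff 0 = 1) {E : MulChar k (𝓞 K) → PowerSeries (𝓞 K)}
    (hE : Fam K L₁ L₂ E)
    {W₁ W₂ : ℤ[X]} (hW₁ : IsTn B L₁ W₁) (hW₂ : IsTn B L₂ W₂)
    {P W : ℤ[X]} (hP : ∏ i ∈ Finset.Ico 1 n, E (χ ^ (i * ℓ ^ a)) =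
      PowerSeries.map (algebraMap ℤ (𝓞 K)) (P : PowerSeries ℤ)) (hW : IsTn B P W)
    (hpoly : ∀ j ∈ Finset.Ico 1 (n * ℓ ^ a), ∃ Q : (𝓞 K)[X],
      E (χ ^ j) = (Q : PowerSeries (𝓞 K))) (c : ℕ) :
    ∃ T : Finset kˣ, ℓ ^ a * T.card ≤
        (Nat.card k - 1) * ((∑ i ∈ Finset.range a, ℓ ^ i) * (muL ℓ W₁ - muL ℓ W₂ + muL ℓ W)) ∧
      ∀ v ∉ T, ∀ Pv Wv : ℤ[X],
        ∏ j ∈ Finset.Ico 1 (n * ℓ ^ a),
          PowerSeries.rescale ((χ ^ j) ((v : k) ^ n)) (E (χ ^ j)) =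
          PowerSeries.map (algebraMap ℤ (𝓞 K)) (Pv : PowerSeries ℤ) → IsTn B Pv Wv →
        ordAt (Nat.card k) c Wv = ordAt (Nat.card k) c W := by
  classical
  have hFℓ : Fact ℓ.Prime := ⟨hℓ⟩
  have hpa : 0 < ℓ ^ a := pow_pos hℓ.pos a
  have hN : 0 < n * ℓ ^ a := Nat.mul_pos hn0 hpa
  choose! Q hQ using hpoly
  have hd : ℓ ∣ Nat.card k - 1 :=
    ((dvd_pow_self ℓ ha).trans (dvd_mul_left _ _)).trans (card_dvd hχ)
  obtain ⟨R, _, _, ρ, hq⟩ := exists_hom (A := 𝓞 K) hℓ hd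
  have hQ0 : ∀ j ∈ Finset.Ico 1 (n * ℓ ^ a), (Q j).coeff 0 = 1 := by
    intro j hj
    have h1 := hE.unit (χ ^ j)
    rwa [hQ j hj, ← PowerSeries.coeff_zero_eq_constantCoeff_apply, Polynomial.coeff_coe] at h1
  -- the values of `χ` modulo `ℓ`
  have hχn : ∀ u : k, u ≠ 0 → ρ (χ u) ^ n = 1 := by
    intro u hu
    apply eq_one_of_pow (ℓ := ℓ) (m := a)
    rw [← pow_mul, ← map_pow, ← MulChar.pow_apply' χ hN.ne', ← hχ, pow_orderOf_eq_one,
      MulChar.one_apply (isUnit_iff_ne_zero.2 hu), map_one]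
  have hcong : ∀ j j' : ℕ, 0 < j → 0 < j' → j ≡ j' [MOD n] →
      ∀ u : k, u ≠ 0 → ρ ((χ ^ j) u) = ρ ((χ ^ j') u) := by
    intro j j' hj hj' hjj u hu
    rw [MulChar.pow_apply' χ hj.ne', MulChar.pow_apply' χ hj'.ne', map_pow, map_pow]
    exact pow_eq_pow_of_modEq hjj (hχn u hu)
  have hred : ∀ j ∈ Finset.Ico 1 (n * ℓ ^ a), ∀ j' ∈ Finset.Ico 1 (n * ℓ ^ a),
      j ≡ j' [MOD n] → (Q j).map ρ = (Q j').map ρ := by
    intro j hj j' hj' hjj
    apply Polynomial.coe_injective R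
    rw [Polynomial.polynomial_map_coe, Polynomial.polynomial_map_coe, ← hQ j hj, ← hQ j' hj']
    exact hE.congr R ρ _ _ (hcong j j' (Finset.mem_Ico.1 hj).1 (Finset.mem_Ico.1 hj').1 hjj)
  set V : ℕ → (𝓞 K)[X] := fun j => tn B (Q j) with hVdef
  have hV0 : ∀ j ∈ Finset.Ico 1 (n * ℓ ^ a), (V j).coeff 0 = 1 := fun j hj =>
    tn_coeff_zero B (hQ0 j hj)
  have hne : ∀ {S : Type} [CommRing S] [Nontrivial S] {f : S[X]}, f.coeff 0 = 1 → f ≠ 0 := by
    intro S _ _ f hf h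
    rw [h, Polynomial.coeff_zero] at hf
    exact zero_ne_one hf
  have hVne : ∀ j ∈ Finset.Ico 1 (n * ℓ ^ a), (V j).map ρ ≠ 0 := fun j hj =>
    hne (by rw [Polynomial.coeff_map, hV0 j hj, map_one])
  have hred' : ∀ {P W : ℤ[X]}, IsTn B P W →
      W.map (Int.castRingHom R) = tn (B.map ρ) (P.map (Int.castRingHom R)) := by
    intro P W h
    have h1 := congrArg (Polynomial.map ρ) h
    rw [tn_map, Polynomial.map_map, Polynomial.map_map] at h1
    have h2 : ρ.comp (algebraMap ℤ (𝓞 K)) = Int.castRingHom R := RingHom.ext_int _ _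
    rwa [h2] at h1
  -- the characters of `ℓ`-power order
  have hpow : ∀ j ∈ Finset.Ico 1 (n * ℓ ^ a), n ∣ j →
      ((V j).map ρ).rootMultiplicity 1 = muL ℓ W₁ - muL ℓ W₂ := by
    intro j hj hnj
    have hj' := Finset.mem_Ico.1 hj
    have hρ : ∀ u : k, u ≠ 0 → ρ ((χ ^ j) u) = 1 := by
      intro u hu
      obtain ⟨b, rfl⟩ := hnj
      rw [MulChar.pow_apply' χ (by omega), map_pow, pow_mul, hχn u hu, one_pow]
    have h6 : (Q j).map ρ * L₂.map (Int.castRingHom R) = L₁.map (Int.castRingHom R) := by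
      apply Polynomial.coe_injective R
      rw [Polynomial.coe_mul, Polynomial.polynomial_map_coe, ← hQ j hj]
      exact hE.ident R ρ _ hρ
    have h7 : (V j).map ρ * W₂.map (Int.castRingHom R) = W₁.map (Int.castRingHom R) := by
      rw [hred' hW₁, hred' hW₂, hVdef]
      simp only
      rw [tn_map, ← tn_mul, h6]
    have hW₂' : W₂.map (Int.castRingHom R) ≠ 0 := by
      rw [hred' hW₂]
      exact hne (tn_coeff_zero _ (by rw [Polynomial.coeff_map, hL₂, map_one]))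
    have h8 : (W₁.map (Int.castRingHom R)).rootMultiplicity 1 =
        ((V j).map ρ).rootMultiplicity 1 + (W₂.map (Int.castRingHom R)).rootMultiplicity 1 := by
      rw [← h7, Polynomial.rootMultiplicity_mul (mul_ne_zero (hVne j hj) hW₂')]
    rw [muL_eq, muL_eq] at h8
    omega
  -- the characters of order dividing `n`
  have hbase : ∀ i ∈ Finset.Ico 1 n, i * ℓ ^ a ∈ Finset.Ico 1 (n * ℓ ^ a) := by
    intro i hi
    rw [Finset.mem_Ico] at hi ⊢
    exact ⟨Nat.mul_pos hi.1 hpa, Nat.mul_lt_mul_of_pos_right hi.2 hpa⟩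
  have hPm : P.map (algebraMap ℤ (𝓞 K)) = ∏ i ∈ Finset.Ico 1 n, Q (i * ℓ ^ a) := by
    apply Polynomial.coe_injective (𝓞 K)
    rw [Polynomial.polynomial_map_coe, ← hP, Pool.Agent.W343.BSD.coe_prod']
    exact Finset.prod_congr rfl fun i hi => hQ _ (hbase i hi)
  have hWm : W.map (algebraMap ℤ (𝓞 K)) = ∏ i ∈ Finset.Ico 1 n, V (i * ℓ ^ a) := by
    rw [show W.map (algebraMap ℤ (𝓞 K)) = tn B (P.map (algebraMap ℤ (𝓞 K))) from hW, hPm, tn_prod]
  have hsum0 : ∑ i ∈ Finset.Ico 1 n, ((V (i * ℓ ^ a)).map ρ).rootMultiplicity 1 = muL ℓ W := by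
    have h1 := congrArg (Polynomial.map ρ) hWm
    rw [Polynomial.map_map, Polynomial.map_prod] at h1
    have h2 : ρ.comp (algebraMap ℤ (𝓞 K)) = Int.castRingHom R := RingHom.ext_int _ _
    rw [h2] at h1
    rw [← muL_eq (R := R) W, h1, rm_prod 1 _ _ fun i hi => hVne _ (hbase i hi)]
  have hgal : ∀ σ : 𝓞 K →+* 𝓞 K, ∀ j ∈ Finset.Ico 1 (n * ℓ ^ a),
      ∀ g ∈ Finset.Ico 1 (n * ℓ ^ a), (∀ x : k, σ ((χ ^ j) x) = (χ ^ g) x) →
        (V j).map σ = V g := by
    intro σ j hj g hg hval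
    have h1 : (Q j).map σ = Q g := by
      apply Polynomial.coe_injective (𝓞 K)
      rw [Polynomial.polynomial_map_coe, ← hQ j hj, hE.map σ _ _ hval, hQ g hg]
    rw [hVdef]
    simp only
    rw [tn_map, hB, h1]
  have hgm : ∀ e ∈ Finset.range a, ℓ ^ e * n ∈ Finset.Ico 1 (n * ℓ ^ a) := by
    intro e he
    rw [Finset.mem_range] at he
    rw [Finset.mem_Ico]
    refine ⟨Nat.mul_pos (pow_pos hℓ.pos e) hn0, ?_⟩
    calc ℓ ^ e * n = n * ℓ ^ e := mul_comm _ _
      _ < n * ℓ ^ a := Nat.mul_lt_mul_of_pos_left (Nat.pow_lt_pow_right hℓ.one_lt he) hn0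
  obtain ⟨T, hT, hTv⟩ := engine hℓ ha hn0 hn K hχ ρ hq V
    (fun _ => muL ℓ W₁ - muL ℓ W₂ + muL ℓ W) hVne hgal
    (fun e he => level_bound hℓ ha hn0 hn (fun j => ((V j).map ρ).rootMultiplicity 1)
      (Finset.mem_range.1 he) (hpow _ (hgm e he) (dvd_mul_left _ _)).le
      (fun j hj j' hj' hjj _ _ => by
        have h1 : (V j).map ρ = (V j').map ρ := by
          rw [hVdef]
          simp only
          rw [tn_map, tn_map, hred j hj j' hj' hjj]
        simp only [h1]) hsum0.le) c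
  refine ⟨T, ?_, ?_⟩
  · rwa [← Finset.sum_mul] at hT
  · intro v hv Pv Wv hPv hWv
    refine order_eq hℓ hn0 K hχ V hV0 (hTv v hv) hWm ?_
    have hscale : ∀ j ∈ Finset.Ico 1 (n * ℓ ^ a),
        PowerSeries.rescale ((χ ^ j) ((v : k) ^ n)) (E (χ ^ j)) =
        (((Q j).comp (C ((χ ^ j) ((v : k) ^ n)) * X) : Polynomial (𝓞 K)) :
          PowerSeries (𝓞 K)) := by
      intro j hj
      rw [hQ j hj]
      ext i
      rw [PowerSeries.coeff_rescale, Polynomial.coeff_coe, Polynomial.coeff_coe,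
        Polynomial.comp_C_mul_X_coeff, mul_comm]
    have hPvm : Pv.map (algebraMap ℤ (𝓞 K)) = ∏ j ∈ Finset.Ico 1 (n * ℓ ^ a),
        (Q j).comp (C ((χ ^ j) ((v : k) ^ n)) * X) := by
      apply Polynomial.coe_injective (𝓞 K)
      rw [Polynomial.polynomial_map_coe, ← hPv, Pool.Agent.W343.BSD.coe_prod']
      exact Finset.prod_congr rfl hscale
    rw [show Wv.map (algebraMap ℤ (𝓞 K)) = tn B (Pv.map (algebraMap ℤ (𝓞 K))) from hWv, hPvm,
      tn_prod]
    exact Finset.prod_congr rfl fun j _ => tn_comp B _ _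

end abs

section open'

variable {ι k : Type} [Field k] {A : Type} [CommRing A]

/-- The product of the `1 - T ^ (d z)` for the `z` with `nv z ≠ 0`. -/
noncomputable def zU (d : ι → ℕ) (nv : ι → k) : PowerSeries ℤ :=
  eulerProd (fun z : {z // nv z ≠ 0} => d z.1) (fun z => 1 - PowerSeries.X ^ d z.1)

variable {d : ι → ℕ} {nv : ι → k}

open Classical in
theorem red_zU {R : Type} [CommRing R] (hfin : ∀ n, {z | d z ≤ n}.Finite) :
    PowerSeries.map (Int.castRingHom R) (zU d nv) =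
      eulerProd d (fun z => if nv z = 0 then 1 else 1 - PowerSeries.X ^ d z) := by
  have h1 : zU d nv = eulerProd d
      (fun z => if nv z ≠ 0 then 1 - PowerSeries.X ^ d z else 1) :=
    eulerProd_subtype (fun z => nv z ≠ 0) hfin
      (f := fun z => (1 - PowerSeries.X ^ d z : PowerSeries ℤ)) (fun z _ => one_sub_mod le_rfl)
  rw [h1, map_eulerProd hfin]
  congr 1
  funext z
  by_cases h : nv z = 0
  · rw [if_neg (by simpa using h), if_pos h, map_one]
  · rw [if_pos h, if_neg h, map_sub, map_one, map_pow, PowerSeries.map_X]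

/-- the product of a character which is trivial modulo `ℓ` -/
theorem cE_zU {R : Type} [CommRing R] (hfin : ∀ n, {z | d z ≤ n}.Finite) (ρ : A →+* R)
    {χ : MulChar k A} (hρ : ∀ u : k, u ≠ 0 → ρ (χ u) = 1) :
    PowerSeries.map ρ (cE d nv χ) = PowerSeries.map (Int.castRingHom R) (zU d nv) := by
  rw [red_cE hfin ρ hρ, red_zU hfin]

/-- The power series or its inverse: `det (1 - T Frob)` on the cohomology of degree `m` if this is the
only nonzero group. -/
noncomputable def dE (m : ℕ) (f : PowerSeries A) : PowerSeries A :=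
  if Even m then f else PowerSeries.invOfUnit f 1

theorem dE_unit {m : ℕ} {f : PowerSeries A} (h : PowerSeries.constantCoeff f = 1) :
    PowerSeries.constantCoeff (dE m f) = 1 := by
  unfold dE
  split_ifs
  · exact h
  · rw [PowerSeries.constantCoeff_invOfUnit, inv_one, Units.val_one]

theorem inv_unique {f g : PowerSeries A} (h : PowerSeries.constantCoeff f = 1) (hg : f * g = 1) :
    PowerSeries.invOfUnit f 1 = g := by
  have h1 : f * PowerSeries.invOfUnit f 1 = 1 := PowerSeries.mul_invOfUnit f 1 (by rw [h]; rfl)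
  calc PowerSeries.invOfUnit f 1 = PowerSeries.invOfUnit f 1 * (f * g) := by rw [hg, mul_one]
    _ = (f * PowerSeries.invOfUnit f 1) * g := by ring
    _ = g := by rw [h1, one_mul]

theorem dE_hom {B : Type} [CommRing B] {m : ℕ} {f : PowerSeries A}
    (h : PowerSeries.constantCoeff f = 1) (φ : PowerSeries A →+* PowerSeries B)
    (hφ : PowerSeries.constantCoeff (φ f) = 1) : φ (dE m f) = dE m (φ f) := by
  unfold dE
  split_ifs
  · rfl
  · symm
    apply inv_unique hφ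
    rw [← map_mul, PowerSeries.mul_invOfUnit f 1 (by rw [h]; rfl), map_one]

theorem dE_prod {ι' : Type} {m : ℕ} (s : Finset ι') (f : ι' → PowerSeries A)
    (h : ∀ i ∈ s, PowerSeries.constantCoeff (f i) = 1) :
    ∏ i ∈ s, dE m (f i) = dE m (∏ i ∈ s, f i) := by
  by_cases hm : Even m
  · have h1 : ∀ g : PowerSeries A, dE m g = g := fun g => if_pos hm
    rw [h1]
    exact Finset.prod_congr rfl fun i _ => h1 _
  · have h1 : ∀ g : PowerSeries A, dE m g = PowerSeries.invOfUnit g 1 := fun g => if_neg hm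
    have h2 : PowerSeries.constantCoeff (∏ i ∈ s, f i) = 1 := by
      rw [map_prod]
      exact Finset.prod_eq_one h
    rw [h1, Finset.prod_congr rfl fun i _ => h1 _]
    symm
    apply inv_unique h2
    rw [← Finset.prod_mul_distrib]
    refine Finset.prod_eq_one fun i hi => ?_
    exact PowerSeries.mul_invOfUnit (f i) 1 (by rw [h i hi]; rfl)

theorem map_unit {B : Type} [CommRing B] (σ : A →+* B) {f : PowerSeries A}
    (h : PowerSeries.constantCoeff f = 1) :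
    PowerSeries.constantCoeff (PowerSeries.map σ f) = 1 := by
  rw [← PowerSeries.coeff_zero_eq_constantCoeff_apply, PowerSeries.coeff_map,
    PowerSeries.coeff_zero_eq_constantCoeff_apply, h, map_one]

theorem rescale_unit (b : A) {f : PowerSeries A} (h : PowerSeries.constantCoeff f = 1) :
    PowerSeries.constantCoeff (PowerSeries.rescale b f) = 1 := by
  rw [← PowerSeries.coeff_zero_eq_constantCoeff_apply, PowerSeries.coeff_rescale, pow_zero,
    one_mul, PowerSeries.coeff_zero_eq_constantCoeff_apply, h]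

/-- the family of the products over the closed points -/
theorem fam (hfin : ∀ n, {z | d z ≤ n}.Finite) (hpos : ∀ z, 0 < d z) (m : ℕ)
    (K : Type) [Field K] [NumberField K] {L₁ L₂ : ℤ[X]}
    (hL : dE m (zU d nv) * (L₂ : PowerSeries ℤ) = (L₁ : PowerSeries ℤ)) :
    Fam K L₁ L₂ (fun χ : MulChar k (𝓞 K) => dE m (cE d nv χ)) where
  unit ψ := dE_unit (cE_unit hfin hpos ψ)
  congr R _ ρ ψ ψ' h := by
    have h1 := cE_unit hfin hpos (nv := nv) ψ
    have h2 := cE_unit hfin hpos (nv := nv) ψ'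
    show PowerSeries.map ρ (dE m _) = PowerSeries.map ρ (dE m _)
    rw [dE_hom h1 _ (map_unit ρ h1), dE_hom h2 _ (map_unit ρ h2), cE_congr hfin ρ h]
  map σ ψ ψ' h := by
    have h1 := cE_unit hfin hpos (nv := nv) ψ
    show PowerSeries.map σ (dE m _) = dE m _
    rw [dE_hom h1 _ (map_unit σ h1), cE_map hfin σ h]
  ident R _ ρ ψ h := by
    have h1 := cE_unit hfin hpos (nv := nv) ψ
    have h2 : PowerSeries.constantCoeff (zU d nv) = 1 :=
      one_of_pos (ι := {z // nv z ≠ 0}) (d := fun z => d z.1)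
        (fun n => (hfin n).preimage (Subtype.val_injective.injOn)) (fun z => hpos z.1) _
    show PowerSeries.map ρ (dE m _) * _ = _
    rw [dE_hom h1 _ (map_unit ρ h1), cE_zU hfin ρ h,
      ← dE_hom h2 (PowerSeries.map (Int.castRingHom R)) (map_unit _ h2),
      Polynomial.polynomial_map_coe, Polynomial.polynomial_map_coe, ← map_mul, hL]

/-- the twisted family -/
theorem dE_twist (hfin : ∀ n, {z | d z ≤ n}.Finite) (hpos : ∀ z, 0 < d z) (m : ℕ)
    (χ : MulChar k A) (e : k) {nv' : ι → k} (h : ∀ z, nv' z = e ^ d z * nv z) :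
    dE m (cE d nv' χ) = PowerSeries.rescale (χ e) (dE m (cE d nv χ)) := by
  have h1 := cE_unit hfin hpos (nv := nv) χ
  rw [cE_twist hfin χ e h, dE_hom h1 _ (rescale_unit _ h1)]

/-- **Coverings of varieties of any dimension times a fixed variety.** -/
theorem tower_open [Finite k] {ℓ a n : ℕ} (hℓ : ℓ.Prime) (ha : a ≠ 0) (hn0 : 0 < n)
    (hn : n.Coprime ℓ) (K : Type) [Field K] [NumberField K] [IsGalois ℚ K]
    {χ : MulChar k (𝓞 K)} (hχ : orderOf χ = n * ℓ ^ a) (m : ℕ)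
    (hfin : ∀ n, {z | d z ≤ n}.Finite) (hpos : ∀ z, 0 < d z)
    (B : Multiset (𝓞 K)) (hB : ∀ σ : 𝓞 K →+* 𝓞 K, B.map σ = B)
    {L₁ L₂ : ℤ[X]} (hL₂ : L₂.coeff 0 = 1)
    (hL : dE m (zU d nv) * (L₂ : PowerSeries ℤ) = (L₁ : PowerSeries ℤ))
    {W₁ W₂ : ℤ[X]} (hW₁ : IsTn B L₁ W₁) (hW₂ : IsTn B L₂ W₂)
    {P W : ℤ[X]} (hP : dE m (∏ i ∈ Finset.Ico 1 n, cE d nv (χ ^ (i * ℓ ^ a))) =
      PowerSeries.map (algebraMap ℤ (𝓞 K)) (P : PowerSeries ℤ)) (hW : IsTn B P W)
    (hpoly : ∀ j ∈ Finset.Ico 1 (n * ℓ ^ a), ∃ Q : (𝓞 K)[X],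
      dE m (cE d nv (χ ^ j)) = (Q : PowerSeries (𝓞 K))) (c : ℕ) :
    ∃ T : Finset kˣ, ℓ ^ a * T.card ≤
        (Nat.card k - 1) * ((∑ i ∈ Finset.range a, ℓ ^ i) * (muL ℓ W₁ - muL ℓ W₂ + muL ℓ W)) ∧
      ∀ v ∉ T, ∀ nv' : ι → k, (∀ z, nv' z = ((v : k) ^ n) ^ d z * nv z) → ∀ Pv Wv : ℤ[X],
        dE m (∏ j ∈ Finset.Ico 1 (n * ℓ ^ a), cE d nv' (χ ^ j)) =
          PowerSeries.map (algebraMap ℤ (𝓞 K)) (Pv : PowerSeries ℤ) → IsTn B Pv Wv →
        ordAt (Nat.card k) c Wv = ordAt (Nat.card k) c W := by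
  obtain ⟨T, hT, hTv⟩ := tower_abs hℓ ha hn0 hn K hχ B hB hL₂ (fam hfin hpos m K hL) hW₁ hW₂
    (by rw [dE_prod _ _ fun i _ => cE_unit hfin hpos _]; exact hP) hW hpoly c
  refine ⟨T, hT, fun v hv nv' hnv Pv Wv hPv hWv => hTv v hv Pv Wv ?_ hWv⟩
  rw [← hPv, ← dE_prod _ _ fun j _ => cE_unit hfin hpos _]
  exact Finset.prod_congr rfl fun j _ => (dE_twist hfin hpos m (χ ^ j) _ hnv).symm

end open'

end Pool.Agent.H313.CC
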