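import Pool.Agent.H313.CC.Loc

/-!
The average of the orders of vanishing over the twists.
-/

set_option autoImplicit false
set_option linter.all false
set_option maxHeartbeats 4000000

open Module NumberField Polynomial

namespace Pool.Agent.H313.CC

open Pool.Agent.W313.Hyp Pool.Agent.W343.BSD
open Pool.Agent.TH639.SG (eq_one_of_pow red_char' muL muL_eq)
open Pool.Agent.TH639.SC (exists_hom one_sub_ne one_sub_mod)
open Pool.Agent.TH639.CK (count_gen exists_lift card_dvd sum_le_mult fiber_le)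

section one

variable {k : Type} [Field k] [Finite k] {A : Type} [CommRing A] [IsDomain A] [CharZero A]

/-- the sum over the twists for one character -/
theorem avg_one [Fintype kˣ] {E R : Type} [Field E] [Field R] {φ : A →+* E}
    (hφ : Function.Injective φ)
    (ρ : A →+* R) (hq : ((Nat.card k : ℕ) : R) = 1) {ψ : MulChar k A} {e : ℕ} (he : 0 < e)
    (hψ : orderOf ψ = e) (hρ : ∀ u : k, u ≠ 0 → ρ (ψ u) = 1) {Q : Polynomial A}
    (hQ : Q.map ρ ≠ 0) (c : ℕ) :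
    (∑ u : kˣ, (Q.map φ).rootMultiplicity (φ (ψ (u : k)) * ((Nat.card k : E) ^ c)⁻¹)) * e ≤
      (Nat.card k - 1) * (Q.map ρ).rootMultiplicity 1 := by
  classical
  have hk0 : (Nat.card k : A) ^ c ≠ 0 := by
    apply pow_ne_zero
    have : 0 < Nat.card k := Nat.card_pos
    exact_mod_cast this.ne'
  set g : kˣ → A := fun u => (Nat.card k : A) ^ c * ψ ((u⁻¹ : kˣ) : k) with hg
  have hinv : ∀ u : kˣ, ψ (u : k) * ψ ((u⁻¹ : kˣ) : k) = 1 := by
    intro u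
    rw [← map_mul, ← Units.val_mul, mul_inv_cancel, Units.val_one, map_one]
  have hgfib : ∀ u u' : kˣ, g u = g u' → ψ (u : k) = ψ (u' : k) := by
    intro u u' h
    have h1 : ψ ((u⁻¹ : kˣ) : k) = ψ ((u'⁻¹ : kˣ) : k) := mul_left_cancel₀ hk0 h
    have h2 := hinv u
    have h3 := hinv u'
    rw [h1] at h2
    have h4 : ψ ((u'⁻¹ : kˣ) : k) ≠ 0 := right_ne_zero_of_mul_eq_one h2
    exact mul_right_cancel₀ h4 (h2.trans h3.symm)
  have hpt : ∀ u : kˣ, φ (ψ (u : k)) * ((Nat.card k : E) ^ c)⁻¹ = (φ (g u))⁻¹ := by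
    intro u
    have h5 : φ (ψ (u : k)) * φ (ψ ((u⁻¹ : kˣ) : k)) = 1 := by rw [← map_mul, hinv, map_one]
    rw [hg]
    simp only [map_mul, map_natCast, mul_inv, map_pow]
    rw [eq_inv_of_mul_eq_one_left h5, mul_comm]
  have hV : ∑ α ∈ Finset.univ.image g, (Q.map φ).rootMultiplicity (φ α)⁻¹ ≤
      (Q.map ρ).rootMultiplicity 1 := by
    refine sum_le_mult hφ ρ _ ?_ hQ ?_
    · intro α hα
      obtain ⟨u, -, rfl⟩ := Finset.mem_image.1 hα
      rw [hg, map_mul, map_pow, map_natCast, hq, one_pow, one_mul]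
      exact hρ _ (u⁻¹).ne_zero
    · intro α hα
      obtain ⟨u, -, rfl⟩ := Finset.mem_image.1 hα
      exact (map_ne_zero_iff φ hφ).2 (mul_ne_zero hk0 (right_ne_zero_of_mul_eq_one (hinv u)))
  have hsum : ∑ u : kˣ, (Q.map φ).rootMultiplicity (φ (ψ (u : k)) * ((Nat.card k : E) ^ c)⁻¹) =
      ∑ α ∈ Finset.univ.image g, (Finset.univ.filter fun u => g u = α).card *
        (Q.map φ).rootMultiplicity (φ α)⁻¹ := by
    rw [← Finset.sum_fiberwise_of_maps_to (s := Finset.univ) (t := Finset.univ.image g) (g := g)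
      (fun u _ => Finset.mem_image_of_mem g (Finset.mem_univ u))]
    refine Finset.sum_congr rfl fun α _ => ?_
    rw [← smul_eq_mul, ← Finset.sum_const]
    refine Finset.sum_congr rfl fun u hu => ?_
    rw [hpt, (Finset.mem_filter.1 hu).2]
  rw [hsum, Finset.sum_mul]
  calc ∑ α ∈ Finset.univ.image g, (Finset.univ.filter fun u => g u = α).card *
        (Q.map φ).rootMultiplicity (φ α)⁻¹ * e
      ≤ ∑ α ∈ Finset.univ.image g, (Nat.card k - 1) * (Q.map φ).rootMultiplicity (φ α)⁻¹ := by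
        refine Finset.sum_le_sum fun α _ => ?_
        rw [mul_right_comm]
        refine Nat.mul_le_mul_right _ ?_
        rw [← hψ]
        refine fiber_le ψ _ ?_
        intro u hu u' hu'
        rw [Finset.mem_filter] at hu hu'
        exact hgfib u u' (hu.2.trans hu'.2.symm)
    _ = (Nat.card k - 1) * ∑ α ∈ Finset.univ.image g, (Q.map φ).rootMultiplicity (φ α)⁻¹ := by
        rw [Finset.mul_sum]
    _ ≤ _ := Nat.mul_le_mul_left _ hV

end one

section gcd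

/-- the sum of the greatest common divisors -/
theorem gcd_sum {ℓ : ℕ} (hℓ : ℓ.Prime) (a : ℕ) :
    ∑ r ∈ Finset.Ico 1 (ℓ ^ a), (ℓ ^ a).gcd r = a * ℓ ^ (a - 1) * (ℓ - 1) := by
  classical
  have hpa : 0 < ℓ ^ a := pow_pos hℓ.pos a
  have h1 : ∀ r ∈ Finset.Ico 1 (ℓ ^ a), (ℓ ^ a).gcd r ∈ (Finset.range a).image (fun e => ℓ ^ e) := by
    intro r hr
    rw [Finset.mem_Ico] at hr
    obtain ⟨e, he, hre⟩ := (Nat.dvd_prime_pow hℓ).1 (Nat.gcd_dvd_left (ℓ ^ a) r)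
    rw [Finset.mem_image]
    refine ⟨e, ?_, hre.symm⟩
    rw [Finset.mem_range]
    refine lt_of_le_of_ne he fun h => ?_
    have h2 : ℓ ^ a ∣ r := by
      rw [← h, ← hre]
      exact Nat.gcd_dvd_right _ _
    exact absurd (Nat.le_of_dvd (by omega) h2) (by omega)
  rw [← Finset.sum_fiberwise_of_maps_to h1, Finset.sum_image
    (fun e _ e' _ h => Nat.pow_right_injective hℓ.two_le h)]
  have h2 : ∀ e ∈ Finset.range a,
      ∑ r ∈ (Finset.Ico 1 (ℓ ^ a)).filter (fun r => (ℓ ^ a).gcd r = ℓ ^ e), (ℓ ^ a).gcd r =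
        ℓ ^ (a - 1) * (ℓ - 1) := by
    intro e he
    rw [Finset.mem_range] at he
    have h3 : (Finset.Ico 1 (ℓ ^ a)).filter (fun r => (ℓ ^ a).gcd r = ℓ ^ e) =
        (Finset.range (ℓ ^ a)).filter (fun r => (ℓ ^ a).gcd r = ℓ ^ e) := by
      ext r
      simp only [Finset.mem_filter, Finset.mem_Ico, Finset.mem_range]
      constructor
      · rintro ⟨⟨_, h4⟩, h5⟩
        exact ⟨h4, h5⟩
      · rintro ⟨h4, h5⟩
        refine ⟨⟨Nat.pos_of_ne_zero fun h0 => ?_, h4⟩, h5⟩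
        rw [h0, Nat.gcd_zero_right] at h5
        have := Nat.pow_right_injective hℓ.two_le h5
        omega
    rw [Finset.sum_congr rfl fun r hr => (Finset.mem_filter.1 hr).2, Finset.sum_const, h3,
      ← Nat.totient_div_of_dvd (pow_dvd_pow ℓ he.le), Nat.pow_div he.le hℓ.pos,
      Nat.totient_prime_pow hℓ (by omega), smul_eq_mul]
    have h6 : ℓ ^ (a - 1) = ℓ ^ (a - e - 1) * ℓ ^ e := by rw [← pow_add]; congr 1; omega
    rw [h6]
    ring
  rw [Finset.sum_congr rfl h2, Finset.sum_const, Finset.card_range, smul_eq_mul, mul_assoc]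

/-- the weighted sum of the multiplicities -/
theorem weighted {ℓ a n : ℕ} (hℓ : ℓ.Prime) (ha : a ≠ 0) (hn0 : 0 < n) (hn : n.Coprime ℓ)
    (m : ℕ → ℕ) {M₁ M₀ : ℕ}
    (hpow : ∀ j ∈ Finset.Ico 1 (n * ℓ ^ a), n ∣ j → m j ≤ M₁)
    (hred : ∀ j ∈ Finset.Ico 1 (n * ℓ ^ a), ∀ j' ∈ Finset.Ico 1 (n * ℓ ^ a),
      j ≡ j' [MOD n] → m j = m j')
    (hsum : ∑ i ∈ Finset.Ico 1 n, m (i * ℓ ^ a) ≤ M₀) :
    ∑ j ∈ (Finset.Ico 1 (n * ℓ ^ a)).filter (fun j => ¬ ℓ ^ a ∣ j), (ℓ ^ a).gcd j * m j ≤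
      a * ℓ ^ (a - 1) * (ℓ - 1) * (M₁ + M₀) := by
  classical
  have hpa : 0 < ℓ ^ a := pow_pos hℓ.pos a
  have hcop : (ℓ ^ a).Coprime n := Nat.Coprime.pow_left a hn.symm
  let f : ℕ × ℕ → ℕ := fun p => p.1 + p.2 * ℓ ^ a
  have hsub : (Finset.Ico 1 (n * ℓ ^ a)).filter (fun j => ¬ ℓ ^ a ∣ j) ⊆
      ((Finset.Ico 1 (ℓ ^ a)) ×ˢ (Finset.range n)).image f := by
    intro j hj
    rw [Finset.mem_filter, Finset.mem_Ico] at hj
    rw [Finset.mem_image]
    refine ⟨(j % ℓ ^ a, j / ℓ ^ a), ?_, ?_⟩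
    · rw [Finset.mem_product, Finset.mem_Ico, Finset.mem_range]
      refine ⟨⟨Nat.pos_of_ne_zero fun h => hj.2 (Nat.dvd_of_mod_eq_zero h), Nat.mod_lt _ hpa⟩, ?_⟩
      exact Nat.div_lt_of_lt_mul (by rw [mul_comm]; exact hj.1.2)
    · show j % ℓ ^ a + j / ℓ ^ a * ℓ ^ a = j
      rw [mul_comm]
      exact Nat.mod_add_div _ _
  have hinj : Set.InjOn f (((Finset.Ico 1 (ℓ ^ a)) ×ˢ (Finset.range n) : Finset (ℕ × ℕ)) :
      Set (ℕ × ℕ)) := by
    rintro ⟨r, t⟩ hp ⟨r', t'⟩ hp' h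
    rw [Finset.mem_coe, Finset.mem_product, Finset.mem_Ico] at hp hp'
    have h1 : r + t * ℓ ^ a = r' + t' * ℓ ^ a := h
    have h2 := congrArg (fun x => x % ℓ ^ a) h1
    simp only [Nat.add_mul_mod_self_right, Nat.mod_eq_of_lt hp.1.2, Nat.mod_eq_of_lt hp'.1.2] at h2
    subst h2
    have h3 : t * ℓ ^ a = t' * ℓ ^ a := by omega
    rw [Nat.eq_of_mul_eq_mul_right hpa h3]
  refine (Finset.sum_le_sum_of_subset hsub).trans ?_
  rw [Finset.sum_image hinj, Finset.sum_product]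
  have hinner : ∀ r ∈ Finset.Ico 1 (ℓ ^ a),
      ∑ t ∈ Finset.range n, (ℓ ^ a).gcd (f (r, t)) * m (f (r, t)) ≤
        (ℓ ^ a).gcd r * (M₁ + M₀) := by
    intro r hr
    rw [Finset.mem_Ico] at hr
    have h1 : ∀ t, (ℓ ^ a).gcd (f (r, t)) = (ℓ ^ a).gcd r := by
      intro t
      show (ℓ ^ a).gcd (r + t * ℓ ^ a) = _
      exact Nat.gcd_add_mul_right_right _ _ _
    have hmem : ∀ t ∈ Finset.range n, f (r, t) ∈ Finset.Ico 1 (n * ℓ ^ a) := by
      intro t ht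
      rw [Finset.mem_range] at ht
      rw [Finset.mem_Ico]
      show 1 ≤ r + t * ℓ ^ a ∧ r + t * ℓ ^ a < n * ℓ ^ a
      refine ⟨by omega, ?_⟩
      calc r + t * ℓ ^ a < ℓ ^ a + t * ℓ ^ a := by omega
        _ = (t + 1) * ℓ ^ a := by ring
        _ ≤ n * ℓ ^ a := Nat.mul_le_mul_right _ ht
    rw [Finset.sum_congr rfl fun t _ => by rw [h1 t], ← Finset.mul_sum]
    refine Nat.mul_le_mul_left _ ?_
    -- the residue class which is divisible by `n`
    obtain ⟨t₀, ht₀n, ht₀⟩ : ∃ t₀, t₀ < n ∧ n ∣ r + t₀ * ℓ ^ a := by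
      obtain ⟨x, hx1, hx2⟩ := Nat.chineseRemainder hcop r 0
      have hx3 : (x : ℕ) ≡ r [MOD ℓ ^ a] := hx1
      have hx4 : n ∣ x := (Nat.modEq_zero_iff_dvd).1 hx2
      have hr' : r = x % ℓ ^ a := by
        have := hx3
        rw [Nat.ModEq, Nat.mod_eq_of_lt hr.2] at this
        exact this.symm
      refine ⟨(x / ℓ ^ a) % n, Nat.mod_lt _ hn0, ?_⟩
      have h2 : r + (x / ℓ ^ a) * ℓ ^ a = x := by
        rw [hr', mul_comm]
        exact Nat.mod_add_div _ _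
      have h3 : r + (x / ℓ ^ a) % n * ℓ ^ a ≡ r + (x / ℓ ^ a) * ℓ ^ a [MOD n] :=
        Nat.ModEq.add_left _ (Nat.ModEq.mul_right _ (Nat.mod_modEq _ _))
      rw [h2] at h3
      exact (Nat.modEq_zero_iff_dvd).1 (h3.trans ((Nat.modEq_zero_iff_dvd).2 hx4))
    rw [← Finset.add_sum_erase _ _ (Finset.mem_range.2 ht₀n)]
    refine Nat.add_le_add (hpow _ (hmem t₀ (Finset.mem_range.2 ht₀n)) ht₀) ?_
    refine le_trans ?_ hsum
    -- the other classes
    let i : ℕ → ℕ := fun t => (t + (n - t₀)) % n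
    have himod : ∀ t ∈ (Finset.range n).erase t₀, i t ∈ Finset.Ico 1 n ∧
        i t + t₀ ≡ t [MOD n] := by
      intro t ht
      rw [Finset.mem_erase, Finset.mem_range] at ht
      have h2 : i t + t₀ ≡ t [MOD n] := by
        have h3 : i t + t₀ ≡ t + (n - t₀) + t₀ [MOD n] := Nat.ModEq.add_right _ (Nat.mod_modEq _ _)
        have h4 : t + (n - t₀) + t₀ = t + n := by omega
        rw [h4] at h3
        exact h3.trans (by rw [Nat.ModEq, Nat.add_mod_right])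
      refine ⟨?_, h2⟩
      rw [Finset.mem_Ico]
      refine ⟨Nat.pos_of_ne_zero fun h => ht.1 ?_, Nat.mod_lt _ hn0⟩
      rw [h, zero_add, Nat.ModEq, Nat.mod_eq_of_lt ht₀n, Nat.mod_eq_of_lt ht.2] at h2
      exact h2.symm
    have hbase : ∀ i ∈ Finset.Ico 1 n, i * ℓ ^ a ∈ Finset.Ico 1 (n * ℓ ^ a) := by
      intro i hi
      rw [Finset.mem_Ico] at hi ⊢
      exact ⟨Nat.mul_pos hi.1 hpa, Nat.mul_lt_mul_of_pos_right hi.2 hpa⟩
    have hmi : ∀ t ∈ (Finset.range n).erase t₀, m (f (r, t)) = m (i t * ℓ ^ a) := by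
      intro t ht
      obtain ⟨h2, h3⟩ := himod t ht
      refine hred _ (hmem t (Finset.mem_of_mem_erase ht)) _ (hbase _ h2) ?_
      show r + t * ℓ ^ a ≡ i t * ℓ ^ a [MOD n]
      have h4 : (i t + t₀) * ℓ ^ a ≡ t * ℓ ^ a [MOD n] := Nat.ModEq.mul_right _ h3
      have h5 : r + (i t + t₀) * ℓ ^ a ≡ r + t * ℓ ^ a [MOD n] := Nat.ModEq.add_left _ h4
      refine h5.symm.trans ?_
      have h6 : r + (i t + t₀) * ℓ ^ a = i t * ℓ ^ a + (r + t₀ * ℓ ^ a) := by ring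
      rw [h6]
      have h7 : r + t₀ * ℓ ^ a ≡ 0 [MOD n] := (Nat.modEq_zero_iff_dvd).2 ht₀
      exact (Nat.ModEq.add_left (i t * ℓ ^ a) h7).trans (by rw [add_zero])
    rw [Finset.sum_congr rfl hmi]
    have hinj2 : Set.InjOn i (((Finset.range n).erase t₀ : Finset ℕ) : Set ℕ) := by
      intro t ht t' ht' h
      have h2 := (himod t ht).2
      have h3 := (himod t' ht').2
      have h4 : i t = i t' := h
      rw [h4] at h2
      have h5 : t ≡ t' [MOD n] := h2.symm.trans h3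
      rw [Finset.mem_coe, Finset.mem_erase, Finset.mem_range] at ht ht'
      rwa [Nat.ModEq, Nat.mod_eq_of_lt ht.2, Nat.mod_eq_of_lt ht'.2] at h5
    rw [← Finset.sum_image (f := fun s => m (s * ℓ ^ a)) hinj2]
    refine Finset.sum_le_sum_of_subset ?_
    intro s hs
    obtain ⟨t, ht, rfl⟩ := Finset.mem_image.1 hs
    exact (himod t ht).1
  refine (Finset.sum_le_sum hinner).trans ?_
  rw [← Finset.sum_mul, gcd_sum hℓ a]

end gcd

section avg

variable {k : Type} [Field k] [Finite k]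

/-- **The orders of vanishing: the new part.** -/
theorem order_formula {ℓ a n : ℕ} (hℓ : ℓ.Prime) (hn0 : 0 < n)
    (F : Type) [Field F] [NumberField F] {χ : MulChar k (𝓞 F)} (hχ : orderOf χ = n * ℓ ^ a)
    (V : ℕ → Polynomial (𝓞 F)) (hV0 : ∀ j ∈ Finset.Ico 1 (n * ℓ ^ a), (V j).coeff 0 = 1)
    {c : ℕ} {v : kˣ}
    {P Pv : ℤ[X]} (hP : P.map (algebraMap ℤ (𝓞 F)) = ∏ i ∈ Finset.Ico 1 n, V (i * ℓ ^ a))
    (hPv : Pv.map (algebraMap ℤ (𝓞 F)) = ∏ j ∈ Finset.Ico 1 (n * ℓ ^ a),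
      (V j).comp (C ((χ ^ j) ((v : k) ^ n)) * X)) :
    ordAt (Nat.card k) c Pv = ordAt (Nat.card k) c P +
      ∑ j ∈ (Finset.Ico 1 (n * ℓ ^ a)).filter (fun j => ¬ ℓ ^ a ∣ j),
        ((V j).map (algebraMap (𝓞 F) F)).rootMultiplicity
          (algebraMap (𝓞 F) F ((χ ^ j) ((v : k) ^ n)) * ((Nat.card k : F) ^ c)⁻¹) := by
  classical
  have hpa : 0 < ℓ ^ a := pow_pos hℓ.pos a
  have hN : 0 < n * ℓ ^ a := Nat.mul_pos hn0 hpa
  set φ := algebraMap (𝓞 F) F with hφd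
  have hφ : Function.Injective φ := RingOfIntegers.coe_injective
  have hv0 : ((v : k) ^ n) ≠ 0 := pow_ne_zero n v.ne_zero
  have hbase : ∀ i ∈ Finset.Ico 1 n, i * ℓ ^ a ∈ Finset.Ico 1 (n * ℓ ^ a) := by
    intro i hi
    rw [Finset.mem_Ico] at hi ⊢
    exact ⟨Nat.mul_pos hi.1 hpa, Nat.mul_lt_mul_of_pos_right hi.2 hpa⟩
  have hm : ∀ G : ℤ[X], ordAt (Nat.card k) c G =
      ((G.map (algebraMap ℤ (𝓞 F))).map φ).rootMultiplicity (((Nat.card k : F) ^ c)⁻¹) := by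
    intro G
    unfold ordAt
    have h1 := Polynomial.eq_rootMultiplicity_map (p := G.map (Int.castRingHom ℚ))
      (algebraMap ℚ F).injective (((Nat.card k : ℚ) ^ c)⁻¹)
    rw [h1, map_inv₀, map_pow, map_natCast, Polynomial.map_map, Polynomial.map_map]
    congr 2
    exact RingHom.ext_int _ _
  have hval0 : ∀ j ∈ Finset.Ico 1 (n * ℓ ^ a), φ ((χ ^ j) ((v : k) ^ n)) ≠ 0 := by
    intro j _
    have h1 : IsUnit ((χ ^ j) ((v : k) ^ n)) := (isUnit_iff_ne_zero.2 hv0).map (χ ^ j)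
    exact (h1.map φ).ne_zero
  have hQ0 : ∀ j ∈ Finset.Ico 1 (n * ℓ ^ a), (V j).map φ ≠ 0 := by
    intro j hj
    rw [Polynomial.map_ne_zero_iff hφ]
    intro h
    have h1 := hV0 j hj
    rw [h, Polynomial.coeff_zero] at h1
    exact zero_ne_one h1
  have hcomp : ∀ j ∈ Finset.Ico 1 (n * ℓ ^ a),
      (((V j).comp (C ((χ ^ j) ((v : k) ^ n)) * X)).map φ).rootMultiplicity
        (((Nat.card k : F) ^ c)⁻¹) = ((V j).map φ).rootMultiplicity
          (φ ((χ ^ j) ((v : k) ^ n)) * ((Nat.card k : F) ^ c)⁻¹) := by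
    intro j hj
    have h1 : ((V j).comp (C ((χ ^ j) ((v : k) ^ n)) * X)).map φ =
        ((V j).map φ).comp (C (φ ((χ ^ j) ((v : k) ^ n))) * X + C 0) := by
      rw [Polynomial.map_comp, Polynomial.map_mul, Polynomial.map_C, Polynomial.map_X, C_0,
        add_zero]
    rw [h1, rootMultiplicity_comp_C_mul_X_add_C _ _ _ _ (hval0 j hj).isUnit, add_zero]
  have hcomp0 : ∀ j ∈ Finset.Ico 1 (n * ℓ ^ a),
      ((V j).comp (C ((χ ^ j) ((v : k) ^ n)) * X)).map φ ≠ 0 := by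
    intro j hj h
    rw [Polynomial.map_eq_zero_iff hφ] at h
    have h1 : ((V j).comp (C ((χ ^ j) ((v : k) ^ n)) * X)).coeff 0 = 1 := by
      rw [Polynomial.comp_C_mul_X_coeff, pow_zero, mul_one, hV0 j hj]
    rw [h, Polynomial.coeff_zero] at h1
    exact zero_ne_one h1
  rw [hm, hm, hPv, hP, Polynomial.map_prod, Polynomial.map_prod,
    Pool.Agent.W343.BSD.rm_prod _ _ _ hcomp0,
    Pool.Agent.W343.BSD.rm_prod _ _ _ fun i hi => hQ0 _ (hbase i hi)]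
  have himg : (Finset.Ico 1 (n * ℓ ^ a)).filter (fun j => ℓ ^ a ∣ j) =
      (Finset.Ico 1 n).image (fun i => i * ℓ ^ a) := by
    ext j
    simp only [Finset.mem_filter, Finset.mem_image]
    constructor
    · rintro ⟨hj, i, rfl⟩
      have hj' := Finset.mem_Ico.1 hj
      refine ⟨i, ?_, mul_comm _ _⟩
      rw [Finset.mem_Ico]
      refine ⟨Nat.pos_of_ne_zero fun h => ?_, ?_⟩
      · rw [h, mul_zero] at hj'
        omega
      · have h1 : ℓ ^ a * i < ℓ ^ a * n := by rw [mul_comm (ℓ ^ a) n]; exact hj'.2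
        exact Nat.lt_of_mul_lt_mul_left h1
    · rintro ⟨i, hi, rfl⟩
      exact ⟨hbase i hi, dvd_mul_left _ _⟩
  rw [← Finset.sum_filter_add_sum_filter_not (Finset.Ico 1 (n * ℓ ^ a)) (fun j => ℓ ^ a ∣ j),
    himg, Finset.sum_image (fun i _ i' _ h => Nat.eq_of_mul_eq_mul_right hpa h)]
  congr 1
  · refine Finset.sum_congr rfl fun i hi => ?_
    rw [hcomp _ (hbase i hi)]
    have h1 : (χ ^ (i * ℓ ^ a)) ((v : k) ^ n) = 1 := by
      rw [map_pow, ← MulChar.pow_apply' _ hn0.ne', ← pow_mul,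
        show i * ℓ ^ a * n = n * ℓ ^ a * i by ring, pow_mul, ← hχ, pow_orderOf_eq_one, one_pow,
        MulChar.one_apply v.isUnit]
    rw [h1, map_one, one_mul]
  · exact Finset.sum_congr rfl fun j hj => hcomp j (Finset.mem_filter.1 hj).1

/-- **The average of the orders of vanishing, for a family of power series.** -/
theorem average_abs {ℓ a n : ℕ} (hℓ : ℓ.Prime) (ha : a ≠ 0) (hn0 : 0 < n) (hn : n.Coprime ℓ)
    (K : Type) [Field K] [NumberField K]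
    {χ : MulChar k (𝓞 K)} (hχ : orderOf χ = n * ℓ ^ a)
    (B : Multiset (𝓞 K))
    {L₁ L₂ : ℤ[X]} (hL₂ : L₂.coeff 0 = 1) {E : MulChar k (𝓞 K) → PowerSeries (𝓞 K)}
    (hE : Fam K L₁ L₂ E)
    {W₁ W₂ : ℤ[X]} (hW₁ : IsTn B L₁ W₁) (hW₂ : IsTn B L₂ W₂)
    {P W : ℤ[X]} (hP : ∏ i ∈ Finset.Ico 1 n, E (χ ^ (i * ℓ ^ a)) =
      PowerSeries.map (algebraMap ℤ (𝓞 K)) (P : PowerSeries ℤ)) (hW : IsTn B P W)
    (hpoly : ∀ j ∈ Finset.Ico 1 (n * ℓ ^ a), ∃ Q : (𝓞 K)[X],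
      E (χ ^ j) = (Q : PowerSeries (𝓞 K))) (c : ℕ) (Pv Wv : kˣ → ℤ[X])
    (hPv : ∀ v : kˣ, ∏ j ∈ Finset.Ico 1 (n * ℓ ^ a),
      PowerSeries.rescale ((χ ^ j) ((v : k) ^ n)) (E (χ ^ j)) =
        PowerSeries.map (algebraMap ℤ (𝓞 K)) (Pv v : PowerSeries ℤ))
    (hWv : ∀ v : kˣ, IsTn B (Pv v) (Wv v)) :
    (∀ v : kˣ, ordAt (Nat.card k) c W ≤ ordAt (Nat.card k) c (Wv v)) ∧
      ℓ * ∑ᶠ v : kˣ, (ordAt (Nat.card k) c (Wv v) - ordAt (Nat.card k) c W) ≤
        (Nat.card k - 1) * (a * (ℓ - 1) * (muL ℓ W₁ - muL ℓ W₂ + muL ℓ W)) := by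
  classical
  have := Fintype.ofFinite kˣ
  have hFℓ : Fact ℓ.Prime := ⟨hℓ⟩
  have hpa : 0 < ℓ ^ a := pow_pos hℓ.pos a
  have hN : 0 < n * ℓ ^ a := Nat.mul_pos hn0 hpa
  choose! Q hQ using hpoly
  have hd : ℓ ∣ Nat.card k - 1 :=
    ((dvd_pow_self ℓ ha).trans (dvd_mul_left _ _)).trans (card_dvd hχ)
  obtain ⟨R, _, _, ρ, hq⟩ := exists_hom (A := 𝓞 K) hℓ hd
  have hQ0 : ∀ j ∈ Finset.Ico 1 (n * ℓ ^ a), (Q j).coeff 0 = 1 := by
    intro j hj
    have h1 := hE.unit (χ ^ j)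
    rwa [hQ j hj, ← PowerSeries.coeff_zero_eq_constantCoeff_apply, Polynomial.coeff_coe] at h1
  -- the values of `χ` modulo `ℓ`
  have hχn : ∀ u : k, u ≠ 0 → ρ (χ u) ^ n = 1 := by
    intro u hu
    apply eq_one_of_pow (ℓ := ℓ) (m := a)
    rw [← pow_mul, ← map_pow, ← MulChar.pow_apply' χ hN.ne', ← hχ, pow_orderOf_eq_one,
      MulChar.one_apply (isUnit_iff_ne_zero.2 hu), map_one]
  have hcong : ∀ j j' : ℕ, 0 < j → 0 < j' → j ≡ j' [MOD n] →
      ∀ u : k, u ≠ 0 → ρ ((χ ^ j) u) = ρ ((χ ^ j') u) := by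
    intro j j' hj hj' hjj u hu
    rw [MulChar.pow_apply' χ hj.ne', MulChar.pow_apply' χ hj'.ne', map_pow, map_pow]
    exact pow_eq_pow_of_modEq hjj (hχn u hu)
  have hred : ∀ j ∈ Finset.Ico 1 (n * ℓ ^ a), ∀ j' ∈ Finset.Ico 1 (n * ℓ ^ a),
      j ≡ j' [MOD n] → (Q j).map ρ = (Q j').map ρ := by
    intro j hj j' hj' hjj
    apply Polynomial.coe_injective R
    rw [Polynomial.polynomial_map_coe, Polynomial.polynomial_map_coe, ← hQ j hj, ← hQ j' hj']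
    exact hE.congr R ρ _ _ (hcong j j' (Finset.mem_Ico.1 hj).1 (Finset.mem_Ico.1 hj').1 hjj)
  set V : ℕ → (𝓞 K)[X] := fun j => tn B (Q j) with hVdef
  have hV0 : ∀ j ∈ Finset.Ico 1 (n * ℓ ^ a), (V j).coeff 0 = 1 := fun j hj =>
    tn_coeff_zero B (hQ0 j hj)
  have hne : ∀ {S : Type} [CommRing S] [Nontrivial S] {f : S[X]}, f.coeff 0 = 1 → f ≠ 0 := by
    intro S _ _ f hf h
    rw [h, Polynomial.coeff_zero] at hf
    exact zero_ne_one hf
  have hVne : ∀ j ∈ Finset.Ico 1 (n * ℓ ^ a), (V j).map ρ ≠ 0 := fun j hj =>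
    hne (by rw [Polynomial.coeff_map, hV0 j hj, map_one])
  have hred' : ∀ {P W : ℤ[X]}, IsTn B P W →
      W.map (Int.castRingHom R) = tn (B.map ρ) (P.map (Int.castRingHom R)) := by
    intro P W h
    have h1 := congrArg (Polynomial.map ρ) h
    rw [tn_map, Polynomial.map_map, Polynomial.map_map] at h1
    have h2 : ρ.comp (algebraMap ℤ (𝓞 K)) = Int.castRingHom R := RingHom.ext_int _ _
    rwa [h2] at h1
  -- the characters of `ℓ`-power order
  have hpow : ∀ j ∈ Finset.Ico 1 (n * ℓ ^ a), n ∣ j →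
      ((V j).map ρ).rootMultiplicity 1 = muL ℓ W₁ - muL ℓ W₂ := by
    intro j hj hnj
    have hj' := Finset.mem_Ico.1 hj
    have hρ : ∀ u : k, u ≠ 0 → ρ ((χ ^ j) u) = 1 := by
      intro u hu
      obtain ⟨b, rfl⟩ := hnj
      rw [MulChar.pow_apply' χ (by omega), map_pow, pow_mul, hχn u hu, one_pow]
    have h6 : (Q j).map ρ * L₂.map (Int.castRingHom R) = L₁.map (Int.castRingHom R) := by
      apply Polynomial.coe_injective R
      rw [Polynomial.coe_mul, Polynomial.polynomial_map_coe, ← hQ j hj]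
      exact hE.ident R ρ _ hρ
    have h7 : (V j).map ρ * W₂.map (Int.castRingHom R) = W₁.map (Int.castRingHom R) := by
      rw [hred' hW₁, hred' hW₂, hVdef]
      simp only
      rw [tn_map, ← tn_mul, h6]
    have hW₂' : W₂.map (Int.castRingHom R) ≠ 0 := by
      rw [hred' hW₂]
      exact hne (tn_coeff_zero _ (by rw [Polynomial.coeff_map, hL₂, map_one]))
    have h8 : (W₁.map (Int.castRingHom R)).rootMultiplicity 1 =
        ((V j).map ρ).rootMultiplicity 1 + (W₂.map (Int.castRingHom R)).rootMultiplicity 1 := by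
      rw [← h7, Polynomial.rootMultiplicity_mul (mul_ne_zero (hVne j hj) hW₂')]
    rw [muL_eq, muL_eq] at h8
    omega
  -- the characters of order dividing `n`
  have hbase : ∀ i ∈ Finset.Ico 1 n, i * ℓ ^ a ∈ Finset.Ico 1 (n * ℓ ^ a) := by
    intro i hi
    rw [Finset.mem_Ico] at hi ⊢
    exact ⟨Nat.mul_pos hi.1 hpa, Nat.mul_lt_mul_of_pos_right hi.2 hpa⟩
  have hPm : P.map (algebraMap ℤ (𝓞 K)) = ∏ i ∈ Finset.Ico 1 n, Q (i * ℓ ^ a) := by
    apply Polynomial.coe_injective (𝓞 K)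
    rw [Polynomial.polynomial_map_coe, ← hP, Pool.Agent.W343.BSD.coe_prod']
    exact Finset.prod_congr rfl fun i hi => hQ _ (hbase i hi)
  have hWm : W.map (algebraMap ℤ (𝓞 K)) = ∏ i ∈ Finset.Ico 1 n, V (i * ℓ ^ a) := by
    rw [show W.map (algebraMap ℤ (𝓞 K)) = tn B (P.map (algebraMap ℤ (𝓞 K))) from hW, hPm, tn_prod]
  have hsum0 : ∑ i ∈ Finset.Ico 1 n, ((V (i * ℓ ^ a)).map ρ).rootMultiplicity 1 = muL ℓ W := by
    have h1 := congrArg (Polynomial.map ρ) hWm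
    rw [Polynomial.map_map, Polynomial.map_prod] at h1
    have h2 : ρ.comp (algebraMap ℤ (𝓞 K)) = Int.castRingHom R := RingHom.ext_int _ _
    rw [h2] at h1
    rw [← muL_eq (R := R) W, h1, rm_prod 1 _ _ fun i hi => hVne _ (hbase i hi)]
  -- the orders
  set φ := algebraMap (𝓞 K) K with hφd
  have hφ : Function.Injective φ := RingOfIntegers.coe_injective
  set S := (Finset.Ico 1 (n * ℓ ^ a)).filter (fun j => ¬ ℓ ^ a ∣ j) with hS
  have hform : ∀ v : kˣ, ordAt (Nat.card k) c (Wv v) = ordAt (Nat.card k) c W +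
      ∑ j ∈ S, ((V j).map φ).rootMultiplicity
        (φ ((χ ^ j) ((v : k) ^ n)) * ((Nat.card k : K) ^ c)⁻¹) := by
    intro v
    refine order_formula hℓ hn0 K hχ V hV0 hWm ?_
    have hscale : ∀ j ∈ Finset.Ico 1 (n * ℓ ^ a),
        PowerSeries.rescale ((χ ^ j) ((v : k) ^ n)) (E (χ ^ j)) =
        (((Q j).comp (C ((χ ^ j) ((v : k) ^ n)) * X) : Polynomial (𝓞 K)) :
          PowerSeries (𝓞 K)) := by
      intro j hj
      rw [hQ j hj]
      ext i
      rw [PowerSeries.coeff_rescale, Polynomial.coeff_coe, Polynomial.coeff_coe,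
        Polynomial.comp_C_mul_X_coeff, mul_comm]
    have hPvm : (Pv v).map (algebraMap ℤ (𝓞 K)) = ∏ j ∈ Finset.Ico 1 (n * ℓ ^ a),
        (Q j).comp (C ((χ ^ j) ((v : k) ^ n)) * X) := by
      apply Polynomial.coe_injective (𝓞 K)
      rw [Polynomial.polynomial_map_coe, ← hPv v, Pool.Agent.W343.BSD.coe_prod']
      exact Finset.prod_congr rfl hscale
    rw [show (Wv v).map (algebraMap ℤ (𝓞 K)) = tn B ((Pv v).map (algebraMap ℤ (𝓞 K))) from hWv v,
      hPvm, tn_prod]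
    exact Finset.prod_congr rfl fun j _ => tn_comp B _ _
  refine ⟨fun v => by rw [hform v]; exact Nat.le_add_right _ _, ?_⟩
  rw [finsum_eq_sum_of_fintype]
  have hdiff : ∀ v : kˣ, ordAt (Nat.card k) c (Wv v) - ordAt (Nat.card k) c W =
      ∑ j ∈ S, ((V j).map φ).rootMultiplicity
        (φ ((χ ^ j) ((v : k) ^ n)) * ((Nat.card k : K) ^ c)⁻¹) := fun v => by
    rw [hform v, Nat.add_sub_cancel_left]
  rw [Finset.sum_congr rfl fun v _ => hdiff v, Finset.sum_comm]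
  -- one character
  have hone : ∀ j ∈ S, ℓ ^ a * ∑ v : kˣ, ((V j).map φ).rootMultiplicity
      (φ ((χ ^ j) ((v : k) ^ n)) * ((Nat.card k : K) ^ c)⁻¹) ≤
        (Nat.card k - 1) * ((ℓ ^ a).gcd j * ((V j).map ρ).rootMultiplicity 1) := by
    intro j hj
    have hjI := (Finset.mem_filter.1 hj).1
    have hj' := Finset.mem_Ico.1 hjI
    have hg : (ℓ ^ a).gcd j ∣ ℓ ^ a := Nat.gcd_dvd_left _ _
    have hgpos : 0 < (ℓ ^ a).gcd j := Nat.gcd_pos_of_pos_left _ hpa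
    have ho : orderOf (χ ^ (j * n)) = ℓ ^ a / (ℓ ^ a).gcd j := by
      rw [orderOf_pow' χ (Nat.mul_pos hj'.1 hn0).ne', hχ, mul_comm j n, Nat.gcd_mul_left,
        Nat.mul_div_mul_left _ _ hn0]
    have hval : ∀ u : kˣ, (χ ^ j) ((u : k) ^ n) = (χ ^ (j * n)) (u : k) := by
      intro u
      rw [map_pow, show χ ^ (j * n) = (χ ^ j) ^ n from pow_mul _ _ _,
        MulChar.pow_apply' (χ ^ j) hn0.ne']
    have hred1 : ∀ u : k, u ≠ 0 → ρ ((χ ^ (j * n)) u) = 1 := by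
      intro u hu
      obtain ⟨e, he, hge⟩ := (Nat.dvd_prime_pow hℓ).1 (Nat.div_dvd_of_dvd hg)
      refine red_char' ρ (a := e) ?_ hu
      rw [← hge, ← ho, pow_orderOf_eq_one]
    have h1 := avg_one hφ ρ hq (Nat.div_pos (Nat.le_of_dvd hpa hg) hgpos) ho hred1 (hVne j hjI) c
    have h2 : ℓ ^ a = ℓ ^ a / (ℓ ^ a).gcd j * (ℓ ^ a).gcd j := (Nat.div_mul_cancel hg).symm
    have h3 : ∑ v : kˣ, ((V j).map φ).rootMultiplicity
        (φ ((χ ^ j) ((v : k) ^ n)) * ((Nat.card k : K) ^ c)⁻¹) =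
        ∑ v : kˣ, ((V j).map φ).rootMultiplicity
          (φ ((χ ^ (j * n)) (v : k)) * ((Nat.card k : K) ^ c)⁻¹) :=
      Finset.sum_congr rfl fun v _ => by rw [hval]
    rw [h3]
    set x := ∑ v : kˣ, ((V j).map φ).rootMultiplicity
      (φ ((χ ^ (j * n)) (v : k)) * ((Nat.card k : K) ^ c)⁻¹) with hx
    calc ℓ ^ a * x = ℓ ^ a / (ℓ ^ a).gcd j * (ℓ ^ a).gcd j * x := by rw [← h2]
      _ = (ℓ ^ a).gcd j * (x * (ℓ ^ a / (ℓ ^ a).gcd j)) := by ring
      _ ≤ (ℓ ^ a).gcd j * ((Nat.card k - 1) * ((V j).map ρ).rootMultiplicity 1) :=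
        Nat.mul_le_mul_left _ h1
      _ = _ := by ring
  have hw := weighted hℓ ha hn0 hn (fun j => ((V j).map ρ).rootMultiplicity 1)
    (M₁ := muL ℓ W₁ - muL ℓ W₂) (M₀ := muL ℓ W)
    (fun j hj hnj => (hpow j hj hnj).le)
    (fun j hj j' hj' hjj => by
      have h1 : (V j).map ρ = (V j').map ρ := by
        rw [hVdef]
        simp only
        rw [tn_map, tn_map, hred j hj j' hj' hjj]
      simp only [h1]) hsum0.le
  have hfinal : ℓ ^ a * ∑ j ∈ S, ∑ v : kˣ, ((V j).map φ).rootMultiplicity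
      (φ ((χ ^ j) ((v : k) ^ n)) * ((Nat.card k : K) ^ c)⁻¹) ≤
      (Nat.card k - 1) * (a * ℓ ^ (a - 1) * (ℓ - 1) * (muL ℓ W₁ - muL ℓ W₂ + muL ℓ W)) := by
    rw [Finset.mul_sum]
    refine (Finset.sum_le_sum hone).trans ?_
    rw [← Finset.mul_sum]
    exact Nat.mul_le_mul_left _ hw
  have hp1 : ℓ ^ a = ℓ ^ (a - 1) * ℓ := by rw [← pow_succ]; congr 1; omega
  have hp2 : 0 < ℓ ^ (a - 1) := pow_pos hℓ.pos _
  refine Nat.le_of_mul_le_mul_left ?_ hp2
  rw [← mul_assoc, ← hp1]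
  refine hfinal.trans (le_of_eq ?_)
  ring

end avg

end Pool.Agent.H313.CC
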