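import Pool.Agent.TH639.CK.Tower

/-!
Coverings `w ^ (n ℓ ^ a) = v ^ n f` of any scheme of finite type over a finite field: only the closed
points `z`, their degrees `d z` and the norms `nv z` of the values of `f` are used.
-/

set_option autoImplicit false
set_option linter.all false
set_option maxHeartbeats 4000000

open Module NumberField

namespace Pool.Agent.H313.CC

open Pool.Agent.W313.Hyp Pool.Agent.W343.BSD
open Pool.Agent.TH639.SG (eq_one_of_pow red_char' muL muL_eq)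
open Pool.Agent.TH639.SC (exists_hom one_sub_ne one_sub_mod)
open Pool.Agent.TH639.CK (count_gen exists_lift card_dvd exists_conj)

section cE

variable {ι k : Type} [Field k] {A : Type} [CommRing A]

/-- The product of the `1 - χ(nv z) T ^ (d z)`. -/
noncomputable def cE (d : ι → ℕ) (nv : ι → k) (χ : MulChar k A) : PowerSeries A :=
  eulerProd d (fun z => 1 - PowerSeries.C (χ (nv z)) * PowerSeries.X ^ d z)

/-- The product of the `1 - T ^ (d z)`. -/
noncomputable def zA (d : ι → ℕ) : PowerSeries ℤ :=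
  eulerProd d (fun z => 1 - PowerSeries.X ^ d z)

/-- The product of the `1 - T ^ (d z)` for the `z` with `nv z = 0`. -/
noncomputable def zB (d : ι → ℕ) (nv : ι → k) : PowerSeries ℤ :=
  eulerProd (fun z : {z // nv z = 0} => d z.1) (fun z => 1 - PowerSeries.X ^ d z.1)

variable {d : ι → ℕ} {nv : ι → k}

theorem one_of_pos {d : ι → ℕ} (hfin : ∀ n, {z | d z ≤ n}.Finite) (hpos : ∀ z, 0 < d z)
    {S : Type} [CommRing S] (f : ι → PowerSeries S) :
    PowerSeries.constantCoeff (eulerProd d f) = 1 := by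
  have h1 : PowerSeries.coeff 0 (eulerProd d f) = 1 := by
    rw [coeff_eulerProd hfin]
    have h2 : (hfin 0).toFinset = ∅ := by
      ext z
      simp only [Set.Finite.mem_toFinset, Set.mem_setOf_eq, Finset.notMem_empty, iff_false]
      have := hpos z
      omega
    rw [h2, Finset.prod_empty, PowerSeries.coeff_zero_eq_constantCoeff_apply, map_one]
  rwa [PowerSeries.coeff_zero_eq_constantCoeff_apply] at h1

theorem cE_unit (hfin : ∀ n, {z | d z ≤ n}.Finite) (hpos : ∀ z, 0 < d z) (χ : MulChar k A) :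
    PowerSeries.constantCoeff (cE d nv χ) = 1 := one_of_pos hfin hpos _

theorem cE_congr (hfin : ∀ n, {z | d z ≤ n}.Finite) {R : Type} [CommRing R] (ρ : A →+* R)
    {χ χ' : MulChar k A} (h : ∀ u : k, u ≠ 0 → ρ (χ u) = ρ (χ' u)) :
    PowerSeries.map ρ (cE d nv χ) = PowerSeries.map ρ (cE d nv χ') := by
  show PowerSeries.map ρ (eulerProd _ _) = PowerSeries.map ρ (eulerProd _ _)
  rw [map_eulerProd hfin, map_eulerProd hfin]
  congr 1
  funext z
  rw [map_sub, map_sub, map_mul, map_mul, PowerSeries.map_C, PowerSeries.map_C]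
  by_cases hz : nv z = 0
  · rw [hz, MulChar.map_zero, MulChar.map_zero, map_zero]
  · rw [h _ hz]

theorem cE_map (hfin : ∀ n, {z | d z ≤ n}.Finite) {B : Type} [CommRing B] (σ : A →+* B)
    {χ : MulChar k A} {χ' : MulChar k B} (h : ∀ u : k, σ (χ u) = χ' u) :
    PowerSeries.map σ (cE d nv χ) = cE d nv χ' := by
  show PowerSeries.map σ (eulerProd _ _) = eulerProd _ _
  rw [map_eulerProd hfin]
  congr 1
  funext z
  rw [map_sub, map_mul, PowerSeries.map_C, h, map_one, map_pow, PowerSeries.map_X]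

theorem cE_twist (hfin : ∀ n, {z | d z ≤ n}.Finite) (χ : MulChar k A) (e : k) {nv' : ι → k}
    (h : ∀ z, nv' z = e ^ d z * nv z) :
    cE d nv' χ = PowerSeries.rescale (χ e) (cE d nv χ) := by
  show _ = PowerSeries.rescale (χ e) (eulerProd _ _)
  rw [Pool.Agent.TH639.SN.rescale_eulerProd hfin]
  show eulerProd _ _ = _
  congr 1
  funext z
  have h1 : (PowerSeries.C (χ (e ^ d z * nv z)) : PowerSeries A) =
      PowerSeries.C (χ e) ^ d z * PowerSeries.C (χ (nv z)) := by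
    rw [map_mul, map_mul, map_pow, map_pow]
  rw [h, h1, map_sub, map_one]
  congr 1
  rw [map_mul (PowerSeries.rescale (χ e)), map_pow (PowerSeries.rescale (χ e)),
    PowerSeries.rescale_X, Pool.Agent.TH639.SN.rescale_C', mul_pow]
  ring

variable {R : Type} [CommRing R]

open Classical in
theorem red_cE (hfin : ∀ n, {z | d z ≤ n}.Finite) (ρ : A →+* R) {χ : MulChar k A}
    (hρ : ∀ u : k, u ≠ 0 → ρ (χ u) = 1) : PowerSeries.map ρ (cE d nv χ) =
      eulerProd d (fun z => if nv z = 0 then 1 else 1 - PowerSeries.X ^ d z) := by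
  show PowerSeries.map ρ (eulerProd _ _) = _
  rw [map_eulerProd hfin]
  congr 1
  funext z
  rw [map_sub, map_one, map_mul, PowerSeries.map_C, map_pow, PowerSeries.map_X]
  split_ifs with h
  · rw [h, MulChar.map_zero, map_zero, map_zero, zero_mul, sub_zero]
  · rw [hρ _ h, PowerSeries.C.map_one, one_mul]

open Classical in
theorem red_zB (hfin : ∀ n, {z | d z ≤ n}.Finite) :
    PowerSeries.map (Int.castRingHom R) (zB d nv) =
      eulerProd d (fun z => if nv z = 0 then 1 - PowerSeries.X ^ d z else 1) := by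
  have h1 : zB d nv = eulerProd d
      (fun z => if nv z = 0 then 1 - PowerSeries.X ^ d z else 1) :=
    eulerProd_subtype (fun z => nv z = 0) hfin
      (f := fun z => (1 - PowerSeries.X ^ d z : PowerSeries ℤ)) (fun z _ => one_sub_mod le_rfl)
  rw [h1, map_eulerProd hfin]
  congr 1
  funext z
  split_ifs with h
  · rw [map_sub, map_one, map_pow, PowerSeries.map_X]
  · rw [map_one]

theorem red_zA (hfin : ∀ n, {z | d z ≤ n}.Finite) :
    PowerSeries.map (Int.castRingHom R) (zA d) =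
      eulerProd d (fun z => 1 - PowerSeries.X ^ d z) := by
  show PowerSeries.map _ (eulerProd _ _) = _
  rw [map_eulerProd hfin]
  congr 1
  funext z
  rw [map_sub, map_one, map_pow, PowerSeries.map_X]

/-- **the identity modulo a prime over `ℓ`** -/
theorem identityE (hfin : ∀ n, {z | d z ≤ n}.Finite) (ρ : A →+* R) {χ : MulChar k A}
    (hρ : ∀ u : k, u ≠ 0 → ρ (χ u) = 1) :
    PowerSeries.map ρ (cE d nv χ) * PowerSeries.map (Int.castRingHom R) (zB d nv) =
      PowerSeries.map (Int.castRingHom R) (zA d) := by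
  classical
  rw [red_cE hfin ρ hρ, red_zB hfin, red_zA hfin, ← eulerProd_mul hfin]
  · congr 1
    funext z
    split_ifs with h
    · rw [one_mul]
    · rw [mul_one]
  · intro z
    split_ifs with h
    · rw [sub_self]; exact dvd_zero _
    · exact one_sub_mod le_rfl
  · intro z
    split_ifs with h
    · exact one_sub_mod le_rfl
    · rw [sub_self]; exact dvd_zero _

theorem zB_ne {R : Type} [CommRing R] [Nontrivial R] (hfin : ∀ n, {z | d z ≤ n}.Finite)
    (hpos : ∀ z, 0 < d z) : PowerSeries.map (Int.castRingHom R) (zB d nv) ≠ 0 := by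
  classical
  rw [red_zB hfin]
  intro h
  have h1 := one_of_pos hfin hpos
    (fun z => if nv z = 0 then (1 - PowerSeries.X ^ d z : PowerSeries R) else 1)
  rw [h, map_zero] at h1
  exact zero_ne_one h1

end cE

section tower

variable {k : Type} [Field k] [Finite k]

/-- **The coverings `w ^ (n ℓ ^ a) = v ^ n F` over the covering `w ^ n = F`.** -/
theorem tower_gen {ℓ a n : ℕ} (hℓ : ℓ.Prime) (ha : a ≠ 0) (hn0 : 0 < n) (hn : n.Coprime ℓ)
    (F : Type) [Field F] [NumberField F] [IsCyclotomicExtension {n * ℓ ^ a} ℚ F]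
    {χ : MulChar k (𝓞 F)} (hχ : orderOf χ = n * ℓ ^ a) {ι : Type} {d : ι → ℕ} {nv : ι → k}
    (hfin : ∀ n, {z | d z ≤ n}.Finite) (hpos : ∀ z, 0 < d z)
    {L₁ L₂ : Polynomial ℤ} (hL₂ : L₂.coeff 0 = 1)
    (hL : zB d nv * (L₁ : PowerSeries ℤ) = zA d * (L₂ : PowerSeries ℤ))
    {L0 : Polynomial ℤ}
    (hL0 : ∏ i ∈ Finset.Ico 1 n, cE d nv (χ ^ (i * ℓ ^ a)) =
      PowerSeries.map (algebraMap ℤ (𝓞 F)) (L0 : PowerSeries ℤ))
    {Q : ℕ → Polynomial (𝓞 F)}
    (hQ : ∀ j ∈ Finset.Ico 1 (n * ℓ ^ a), cE d nv (χ ^ j) = (Q j : PowerSeries (𝓞 F)))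
    (c : ℕ) :
    ∃ T : Finset kˣ, ℓ ^ a * T.card ≤
        (Nat.card k - 1) * ((∑ i ∈ Finset.range a, ℓ ^ i) * (muL ℓ L₁ - muL ℓ L₂ + muL ℓ L0)) ∧
      ∀ u ∉ T, ∀ j ∈ Finset.Ico 1 (n * ℓ ^ a), ¬ ℓ ^ a ∣ j →
        ((Q j).map (algebraMap (𝓞 F) F)).eval
          (algebraMap (𝓞 F) F ((χ ^ j) ((u : k) ^ n)) * ((Nat.card k : F) ^ c)⁻¹) ≠ 0 := by
  classical
  have hFℓ : Fact ℓ.Prime := ⟨hℓ⟩
  have := Fintype.ofFinite kˣ
  have hpa : 0 < ℓ ^ a := pow_pos hℓ.pos a
  have hN : 0 < n * ℓ ^ a := Nat.mul_pos hn0 hpa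
  have hNe : NeZero (n * ℓ ^ a) := ⟨hN.ne'⟩
  have hd : ℓ ∣ Nat.card k - 1 :=
    ((dvd_pow_self ℓ ha).trans (dvd_mul_left _ _)).trans (card_dvd hχ)
  obtain ⟨R, _, _, ρ, hq⟩ := exists_hom (A := 𝓞 F) hℓ hd
  set φ := algebraMap (𝓞 F) F with hφd
  have hφ : Function.Injective φ := RingOfIntegers.coe_injective
  -- the values of `χ` modulo `ℓ`
  have hχn : ∀ u : k, u ≠ 0 → ρ (χ u) ^ n = 1 := by
    intro u hu
    apply eq_one_of_pow (ℓ := ℓ) (m := a)
    rw [← pow_mul, ← map_pow, ← MulChar.pow_apply' χ hN.ne', ← hχ, pow_orderOf_eq_one,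
      MulChar.one_apply (isUnit_iff_ne_zero.2 hu), map_one]
  have hcong : ∀ j j' : ℕ, 0 < j → 0 < j' → j ≡ j' [MOD n] →
      ∀ u : k, u ≠ 0 → ρ ((χ ^ j) u) = ρ ((χ ^ j') u) := by
    intro j j' hj hj' hjj u hu
    rw [MulChar.pow_apply' χ hj.ne', MulChar.pow_apply' χ hj'.ne', map_pow, map_pow]
    exact pow_eq_pow_of_modEq hjj (hχn u hu)
  -- the reductions of the polynomials
  have hred : ∀ j ∈ Finset.Ico 1 (n * ℓ ^ a), ∀ j' ∈ Finset.Ico 1 (n * ℓ ^ a),
      j ≡ j' [MOD n] → (Q j).map ρ = (Q j').map ρ := by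
    intro j hj j' hj' hjj
    apply Polynomial.coe_injective R
    rw [Polynomial.polynomial_map_coe, Polynomial.polynomial_map_coe, ← hQ j hj, ← hQ j' hj']
    exact cE_congr hfin ρ (hcong j j' (Finset.mem_Ico.1 hj).1 (Finset.mem_Ico.1 hj').1 hjj)
  have hQne : ∀ j ∈ Finset.Ico 1 (n * ℓ ^ a), (Q j).map ρ ≠ 0 := by
    intro j hj h
    have h1 := cE_unit hfin hpos (nv := nv) (χ ^ j)
    rw [hQ j hj, ← PowerSeries.coeff_zero_eq_constantCoeff_apply, Polynomial.coeff_coe] at h1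
    have h2 := congrArg (fun p => Polynomial.coeff p 0) h
    simp only [Polynomial.coeff_map, Polynomial.coeff_zero, h1, map_one] at h2
    exact one_ne_zero h2
  -- the characters of `ℓ`-power order
  have hpow : ∀ j ∈ Finset.Ico 1 (n * ℓ ^ a), n ∣ j →
      ((Q j).map ρ).rootMultiplicity 1 = muL ℓ L₁ - muL ℓ L₂ := by
    intro j hj hnj
    have hj' := Finset.mem_Ico.1 hj
    have hρ : ∀ u : k, u ≠ 0 → ρ ((χ ^ j) u) = 1 := by
      intro u hu
      obtain ⟨b, rfl⟩ := hnj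
      rw [MulChar.pow_apply' χ (by omega), map_pow, pow_mul, hχn u hu, one_pow]
    have h5 := identityE hfin ρ hρ (nv := nv)
    have hz : PowerSeries.map (Int.castRingHom R) (zB d nv) ≠ 0 := zB_ne hfin hpos
    have h2 : PowerSeries.map (Int.castRingHom R) (zB d nv) *
        ((L₁.map (Int.castRingHom R) : Polynomial R) : PowerSeries R) =
        PowerSeries.map (Int.castRingHom R) (zA d) *
        ((L₂.map (Int.castRingHom R) : Polynomial R) : PowerSeries R) := by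
      have h3 := congrArg (PowerSeries.map (Int.castRingHom R)) hL
      rwa [map_mul, map_mul, ← Polynomial.polynomial_map_coe, ← Polynomial.polynomial_map_coe]
        at h3
    have h6 : (Q j).map ρ * L₂.map (Int.castRingHom R) = L₁.map (Int.castRingHom R) := by
      apply Polynomial.coe_injective R
      rw [Polynomial.coe_mul, Polynomial.polynomial_map_coe, ← hQ j hj]
      apply mul_left_cancel₀ hz
      rw [h2, ← h5]
      ring
    have hL₂' : L₂.map (Int.castRingHom R) ≠ 0 := by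
      intro h
      have h1 := congrArg (fun p => Polynomial.coeff p 0) h
      simp only [Polynomial.coeff_map, Polynomial.coeff_zero, hL₂, map_one] at h1
      exact one_ne_zero h1
    have h7 : (L₁.map (Int.castRingHom R)).rootMultiplicity 1 =
        ((Q j).map ρ).rootMultiplicity 1 + (L₂.map (Int.castRingHom R)).rootMultiplicity 1 := by
      rw [← h6, Polynomial.rootMultiplicity_mul (mul_ne_zero (hQne j hj) hL₂')]
    rw [muL_eq, muL_eq] at h7
    omega
  -- the characters of order dividing `n`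
  have hbase : ∀ i ∈ Finset.Ico 1 n, i * ℓ ^ a ∈ Finset.Ico 1 (n * ℓ ^ a) := by
    intro i hi
    rw [Finset.mem_Ico] at hi ⊢
    exact ⟨Nat.mul_pos hi.1 hpa, Nat.mul_lt_mul_of_pos_right hi.2 hpa⟩
  have hsum0 : ∑ i ∈ Finset.Ico 1 n, ((Q (i * ℓ ^ a)).map ρ).rootMultiplicity 1 = muL ℓ L0 := by
    have h1 : (L0.map (Int.castRingHom R)) = ∏ i ∈ Finset.Ico 1 n, (Q (i * ℓ ^ a)).map ρ := by
      apply Polynomial.coe_injective R
      have h2 := congrArg (PowerSeries.map ρ) hL0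
      rw [map_prod, Finset.prod_congr rfl fun i hi => by
        rw [hQ _ (hbase i hi), ← Polynomial.polynomial_map_coe]] at h2
      rw [coe_prod', h2, ← Polynomial.polynomial_map_coe, ← Polynomial.polynomial_map_coe,
        Polynomial.map_map]
      congr 2
      exact RingHom.ext_int _ _
    rw [← muL_eq (R := R) L0, h1, rm_prod 1 _ _ fun i hi => hQne _ (hbase i hi)]
  -- the exceptional sets
  let Tg : ℕ → Finset kˣ := fun g => Finset.univ.filter fun u : kˣ =>
    ((Q g).map φ).eval (φ ((χ ^ g) ((u : k) ^ n)) * ((Nat.card k : F) ^ c)⁻¹) = 0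
  have hg : ∀ e ∈ Finset.range a, ∀ h ∈ n.divisors, ℓ ^ e * h ∈ Finset.Ico 1 (n * ℓ ^ a) := by
    intro e he h hh
    rw [Finset.mem_range] at he
    have hh' := Nat.dvd_of_mem_divisors hh
    have hhpos := Nat.pos_of_mem_divisors hh
    rw [Finset.mem_Ico]
    refine ⟨Nat.mul_pos (pow_pos hℓ.pos e) hhpos, ?_⟩
    calc ℓ ^ e * h ≤ ℓ ^ e * n := Nat.mul_le_mul_left _ (Nat.le_of_dvd hn0 hh')
      _ = n * ℓ ^ e := mul_comm _ _
      _ < n * ℓ ^ a := Nat.mul_lt_mul_of_pos_left (Nat.pow_lt_pow_right hℓ.one_lt he) hn0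
  have hcount : ∀ e ∈ Finset.range a, ∀ h ∈ n.divisors,
      (Tg (ℓ ^ e * h)).card * ℓ ^ (a - e) ≤
        (Nat.card k - 1) * ((Q (ℓ ^ e * h)).map ρ).rootMultiplicity 1 := by
    intro e he h hh
    have he' := Finset.mem_range.1 he
    have hh' := Nat.dvd_of_mem_divisors hh
    have hhpos := Nat.pos_of_mem_divisors hh
    have hgpos : 0 < ℓ ^ e * h := Nat.mul_pos (pow_pos hℓ.pos e) hhpos
    have ho : orderOf (χ ^ (ℓ ^ e * h * n)) = ℓ ^ (a - e) := by
      rw [orderOf_pow' χ (Nat.mul_pos hgpos hn0).ne', hχ]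
      have h1 : n * ℓ ^ a = n * ℓ ^ e * ℓ ^ (a - e) := by
        rw [mul_assoc, ← pow_add]; congr 2; omega
      have h2 : (ℓ ^ (a - e)).gcd h = 1 :=
        Nat.Coprime.pow_left _ (Nat.Coprime.coprime_dvd_left hh' hn).symm
      have h3 : (n * ℓ ^ a).gcd (ℓ ^ e * h * n) = n * ℓ ^ e := by
        rw [h1, show ℓ ^ e * h * n = n * ℓ ^ e * h by ring, Nat.gcd_mul_left, h2, mul_one]
      rw [h3, h1, Nat.mul_div_cancel_left _ (Nat.mul_pos hn0 (pow_pos hℓ.pos e))]
    have hval : ∀ u : kˣ, (χ ^ (ℓ ^ e * h)) ((u : k) ^ n) =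
        (χ ^ (ℓ ^ e * h * n)) (u : k) := by
      intro u
      rw [map_pow, show χ ^ (ℓ ^ e * h * n) = (χ ^ (ℓ ^ e * h)) ^ n from pow_mul _ _ _,
        MulChar.pow_apply' (χ ^ (ℓ ^ e * h)) hn0.ne']
    refine count_gen hφ ρ hq (pow_pos hℓ.pos _) ho ?_ (hQne _ (hg e he h hh)) c _ ?_
    · intro u hu
      exact red_char' ρ (by rw [← ho, pow_orderOf_eq_one]) hu
    · intro u hu
      rw [← hval]
      exact (Finset.mem_filter.1 hu).2
  have hlevel : ∀ e ∈ Finset.range a,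
      ∑ h ∈ n.divisors, ((Q (ℓ ^ e * h)).map ρ).rootMultiplicity 1 ≤ muL ℓ L₁ - muL ℓ L₂ + muL ℓ L0 := by
    intro e he
    have he' := Finset.mem_range.1 he
    rw [← Nat.cons_self_properDivisors hn0.ne', Finset.sum_cons,
      hpow _ (hg e he n (Nat.mem_divisors_self n hn0.ne')) (dvd_mul_left _ _)]
    refine Nat.add_le_add_left ?_ _
    -- the inverse of `ℓ ^ (a - e)` modulo `n`
    obtain ⟨t, ht⟩ : ∃ t : ℕ, ℓ ^ (a - e) * t ≡ 1 [MOD n] := by
      rcases Nat.lt_or_ge 1 n with h1 | h1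
      · obtain ⟨t, -, h⟩ := Nat.exists_mul_mod_eq_one_of_coprime
          (Nat.Coprime.pow_left (a - e) hn.symm) h1
        exact ⟨t, by rw [Nat.ModEq, h, Nat.mod_eq_of_lt h1]⟩
      · have : n = 1 := by omega
        subst this
        exact ⟨0, Nat.modEq_one⟩
    have htc : t.Coprime n := by
      have h1 : (ℓ ^ (a - e) * t).Coprime n := by
        rw [Nat.Coprime, ht.gcd_eq]
        exact Nat.gcd_one_left _
      exact Nat.Coprime.coprime_mul_left h1
    have hi : ∀ h ∈ n.properDivisors, h * t % n ∈ Finset.Ico 1 n := by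
      intro h hh
      rw [Nat.mem_properDivisors] at hh
      rw [Finset.mem_Ico]
      refine ⟨Nat.pos_of_ne_zero fun h0 => ?_, Nat.mod_lt _ hn0⟩
      have h1 : n ∣ h * t := Nat.dvd_of_mod_eq_zero h0
      have h2 : n ∣ h := Nat.Coprime.dvd_of_dvd_mul_right htc.symm h1
      have h3 : 0 < h := Nat.pos_of_dvd_of_pos hh.1 hn0
      exact absurd (Nat.le_of_dvd h3 h2) (by omega)
    have hinj : Set.InjOn (fun h => h * t % n) (n.properDivisors : Set ℕ) := by
      intro h hh h' hh' heq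
      have h1 : h * t ≡ h' * t [MOD n] := heq
      have h2 : h ≡ h' [MOD n] := Nat.ModEq.cancel_right_of_coprime htc.symm h1
      have h3 := (Nat.mem_properDivisors.1 hh).2
      have h4 := (Nat.mem_properDivisors.1 hh').2
      rw [Nat.ModEq, Nat.mod_eq_of_lt h3, Nat.mod_eq_of_lt h4] at h2
      exact h2
    have hmod : ∀ h ∈ n.properDivisors, ((Q (ℓ ^ e * h)).map ρ).rootMultiplicity 1 =
        ((Q ((h * t % n) * ℓ ^ a)).map ρ).rootMultiplicity 1 := by
      intro h hh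
      have hh' := (Nat.mem_properDivisors.1 hh).1
      congr 1
      refine hred _ (hg e he h (Nat.mem_divisors.2 ⟨hh', hn0.ne'⟩)) _ (hbase _ (hi h hh)) ?_
      have h1 : (h * t % n) * ℓ ^ a ≡ h * t * ℓ ^ a [MOD n] := (Nat.mod_modEq _ _).mul_right _
      have h2 : h * t * ℓ ^ a = ℓ ^ e * h * (ℓ ^ (a - e) * t) := by
        have h3 : ℓ ^ a = ℓ ^ e * ℓ ^ (a - e) := by rw [← pow_add]; congr 1; omega
        rw [h3]
        ring
      rw [h2] at h1
      have h3 := ht.mul_left (ℓ ^ e * h)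
      rw [mul_one] at h3
      exact (h1.trans h3).symm
    rw [Finset.sum_congr rfl hmod, ← hsum0]
    rw [← Finset.sum_image (f := fun i => ((Q (i * ℓ ^ a)).map ρ).rootMultiplicity 1) hinj]
    refine Finset.sum_le_sum_of_subset ?_
    intro i hi'
    obtain ⟨h, hh, rfl⟩ := Finset.mem_image.1 hi'
    exact hi h hh
  refine ⟨(Finset.range a).biUnion fun e => n.divisors.biUnion fun h => Tg (ℓ ^ e * h), ?_, ?_⟩
  · have h1 : ∀ e ∈ Finset.range a, ℓ ^ (a - e) *
        (n.divisors.biUnion fun h => Tg (ℓ ^ e * h)).card ≤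
          (Nat.card k - 1) * (muL ℓ L₁ - muL ℓ L₂ + muL ℓ L0) := by
      intro e he
      calc ℓ ^ (a - e) * (n.divisors.biUnion fun h => Tg (ℓ ^ e * h)).card
          ≤ ℓ ^ (a - e) * ∑ h ∈ n.divisors, (Tg (ℓ ^ e * h)).card :=
            Nat.mul_le_mul_left _ Finset.card_biUnion_le
        _ = ∑ h ∈ n.divisors, (Tg (ℓ ^ e * h)).card * ℓ ^ (a - e) := by
            rw [mul_comm, Finset.sum_mul]
        _ ≤ ∑ h ∈ n.divisors, (Nat.card k - 1) *
            ((Q (ℓ ^ e * h)).map ρ).rootMultiplicity 1 :=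
            Finset.sum_le_sum fun h hh => hcount e he h hh
        _ = (Nat.card k - 1) * ∑ h ∈ n.divisors,
            ((Q (ℓ ^ e * h)).map ρ).rootMultiplicity 1 := by rw [Finset.mul_sum]
        _ ≤ _ := Nat.mul_le_mul_left _ (hlevel e he)
    calc ℓ ^ a * ((Finset.range a).biUnion fun e => n.divisors.biUnion fun h =>
          Tg (ℓ ^ e * h)).card
        ≤ ℓ ^ a * ∑ e ∈ Finset.range a, (n.divisors.biUnion fun h => Tg (ℓ ^ e * h)).card :=
          Nat.mul_le_mul_left _ Finset.card_biUnion_le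
      _ = ∑ e ∈ Finset.range a, ℓ ^ e * (ℓ ^ (a - e) *
          (n.divisors.biUnion fun h => Tg (ℓ ^ e * h)).card) := by
          rw [Finset.mul_sum]
          refine Finset.sum_congr rfl fun e he => ?_
          have he' := Finset.mem_range.1 he
          have h3 : ℓ ^ a = ℓ ^ e * ℓ ^ (a - e) := by rw [← pow_add]; congr 1; omega
          rw [h3, mul_assoc]
      _ ≤ ∑ e ∈ Finset.range a, ℓ ^ e * ((Nat.card k - 1) * (muL ℓ L₁ - muL ℓ L₂ + muL ℓ L0)) :=
          Finset.sum_le_sum fun e he => Nat.mul_le_mul_left _ (h1 e he)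
      _ = _ := by
          rw [← Finset.sum_mul]
          ring
  · intro u hu j hj hja h0
    apply hu
    have hj' := Finset.mem_Ico.1 hj
    set g := (n * ℓ ^ a).gcd j with hgd
    have hgpos : 0 < g := Nat.gcd_pos_of_pos_left _ hN
    have hgN : g ∣ n * ℓ ^ a := Nat.gcd_dvd_left _ _
    have hgj : g ∣ j := Nat.gcd_dvd_right _ _
    obtain ⟨e, h, hh, hge⟩ := Nat.exists_eq_pow_mul_and_not_dvd hgpos.ne' ℓ hℓ.ne_one
    have hea : e < a := by
      by_contra hea
      apply hja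
      have h1 : ℓ ^ a ∣ g := by
        rw [hge]
        exact (pow_dvd_pow ℓ (by omega)).trans (dvd_mul_right _ _)
      exact h1.trans hgj
    have hhn : h ∣ n := by
      have h1 : h ∣ n * ℓ ^ a := (by rw [hge]; exact dvd_mul_left _ _ : h ∣ g).trans hgN
      exact Nat.Coprime.dvd_of_dvd_mul_right
        (Nat.Coprime.pow_right a ((Nat.Prime.coprime_iff_not_dvd hℓ).2 hh).symm) h1
    -- conjugation
    obtain ⟨s', hs'⟩ := hgj
    have hs'c : s'.Coprime (n * ℓ ^ a / g) := by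
      have h1 := Nat.coprime_div_gcd_div_gcd (m := n * ℓ ^ a) (n := j) hgpos
      rw [← hgd] at h1
      have h2 : j / g = s' := by
        conv_lhs => rw [hs']
        exact Nat.mul_div_cancel_left _ hgpos
      rw [h2] at h1
      exact h1.symm
    obtain ⟨s, hsN, hss⟩ := exists_lift hN (Nat.div_dvd_of_dvd hgN) hs'c
    obtain ⟨t, ht⟩ : ∃ t : ℕ, s * t ≡ 1 [MOD n * ℓ ^ a] := by
      have h1 : 1 < n * ℓ ^ a :=
        lt_of_lt_of_le (Nat.one_lt_pow ha hℓ.one_lt) (Nat.le_mul_of_pos_left _ hn0)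
      obtain ⟨t, -, h⟩ := Nat.exists_mul_mod_eq_one_of_coprime hsN h1
      exact ⟨t, by rw [Nat.ModEq, h, Nat.mod_eq_of_lt h1]⟩
    have htN : t.Coprime (n * ℓ ^ a) := by
      have h1 : (s * t).Coprime (n * ℓ ^ a) := by
        rw [Nat.Coprime, ht.gcd_eq]
        exact Nat.gcd_one_left _
      exact Nat.Coprime.coprime_mul_left h1
    obtain ⟨σ, σF, hσF, hσ⟩ := exists_conj F (N := n * ℓ ^ a) htN
    have hogd : orderOf (χ ^ g) = n * ℓ ^ a / g := by
      rw [orderOf_pow_of_dvd hgpos.ne' (by rw [hχ]; exact hgN), hχ]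
    have hjg : χ ^ j = (χ ^ g) ^ s := by
      conv_lhs => rw [hs', pow_mul]
      rw [pow_eq_pow_iff_modEq, hogd]
      exact hss.symm
    have hchar : (χ ^ j) ^ t = χ ^ g := by
      rw [hjg, ← pow_mul, ← pow_mul, ← mul_assoc, mul_assoc g s t]
      conv_rhs => rw [← mul_one g]
      rw [pow_eq_pow_iff_modEq, hχ]
      exact ht.mul_left g
    have ht0 : t ≠ 0 := by
      rintro rfl
      have h1 : 1 < n * ℓ ^ a :=
        lt_of_lt_of_le (Nat.one_lt_pow ha hℓ.one_lt) (Nat.le_mul_of_pos_left _ hn0)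
      rw [Nat.Coprime, Nat.gcd_zero_left] at htN
      omega
    have hval : ∀ x : k, σ ((χ ^ j) x) = (χ ^ g) x := by
      intro x
      by_cases hx : x = 0
      · rw [hx, MulChar.map_zero, MulChar.map_zero, map_zero]
      · have hx' : IsUnit x := isUnit_iff_ne_zero.2 hx
        rw [hσ, ← hchar, MulChar.pow_apply' (χ ^ j) ht0]
        rw [← MulChar.pow_apply' (χ ^ j) hN.ne', ← pow_mul, mul_comm, pow_mul, ← hχ,
          pow_orderOf_eq_one, one_pow, MulChar.one_apply hx']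
    have hgm : g ∈ Finset.Ico 1 (n * ℓ ^ a) := by
      rw [hge]
      exact hg e (Finset.mem_range.2 hea) h (Nat.mem_divisors.2 ⟨hhn, hn0.ne'⟩)
    have hQc : (Q j).map σ = Q g := by
      apply Polynomial.coe_injective (𝓞 F)
      rw [Polynomial.polynomial_map_coe, ← hQ j hj, cE_map hfin σ hval, hQ g hgm]
    have hzero : ((Q g).map φ).eval
        (φ ((χ ^ g) ((u : k) ^ n)) * ((Nat.card k : F) ^ c)⁻¹) = 0 := by
      have h1 := congrArg σF h0
      rw [map_zero, ← Polynomial.eval_map_apply, Polynomial.map_map] at h1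
      have h2 : σF.comp φ = φ.comp σ := RingHom.ext fun x => (hσF x).symm
      have h3 : σF ((Nat.card k : F) ^ c)⁻¹ = ((Nat.card k : F) ^ c)⁻¹ := by
        rw [map_inv₀, map_pow, map_natCast]
      rw [h2, ← Polynomial.map_map, hQc, map_mul, ← hσF, hval, h3] at h1
      exact h1
    rw [Finset.mem_biUnion]
    refine ⟨e, Finset.mem_range.2 hea, ?_⟩
    rw [Finset.mem_biUnion]
    refine ⟨h, Nat.mem_divisors.2 ⟨hhn, hn0.ne'⟩, ?_⟩
    rw [← hge, Finset.mem_filter]
    exact ⟨Finset.mem_univ _, hzero⟩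


/-- The order of the zero of `P` at `1 / q ^ c`. -/
noncomputable def ordAt (q c : ℕ) (P : Polynomial ℤ) : ℕ :=
  (P.map (Int.castRingHom ℚ)).rootMultiplicity ((q : ℚ) ^ c)⁻¹

open Polynomial in
/-- **The orders of vanishing.** -/
theorem tower_orders {ℓ a n : ℕ} (hℓ : ℓ.Prime) (ha : a ≠ 0) (hn0 : 0 < n) (hn : n.Coprime ℓ)
    (K : Type) [Field K] [NumberField K] [IsCyclotomicExtension {n * ℓ ^ a} ℚ K]
    {χ : MulChar k (𝓞 K)} (hχ : orderOf χ = n * ℓ ^ a) {ι : Type} {d : ι → ℕ} {nv : ι → k}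
    (hfin : ∀ n, {z | d z ≤ n}.Finite) (hpos : ∀ z, 0 < d z)
    {L₁ L₂ : Polynomial ℤ} (hL₂ : L₂.coeff 0 = 1)
    (hL : zB d nv * (L₁ : PowerSeries ℤ) = zA d * (L₂ : PowerSeries ℤ))
    {P : Polynomial ℤ}
    (hP' : ∏ i ∈ Finset.Ico 1 n, cE d nv (χ ^ (i * ℓ ^ a)) =
      PowerSeries.map (algebraMap ℤ (𝓞 K)) (P : PowerSeries ℤ))
    (hpoly : ∀ j ∈ Finset.Ico 1 (n * ℓ ^ a), ∃ Q : (𝓞 K)[X],
      cE d nv (χ ^ j) = (Q : PowerSeries (𝓞 K))) (c : ℕ) :
    ∃ T : Finset kˣ, ℓ ^ a * T.card ≤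
        (Nat.card k - 1) * ((∑ i ∈ Finset.range a, ℓ ^ i) * (muL ℓ L₁ - muL ℓ L₂ + muL ℓ P)) ∧
      ∀ v ∉ T, ∀ nv' : ι → k, (∀ z, nv' z = ((v : k) ^ n) ^ d z * nv z) → ∀ Pv : ℤ[X],
        ∏ j ∈ Finset.Ico 1 (n * ℓ ^ a), cE d nv' (χ ^ j) =
          PowerSeries.map (algebraMap ℤ (𝓞 K)) (Pv : PowerSeries ℤ) →
        ordAt (Nat.card k) c Pv = ordAt (Nat.card k) c P := by
  classical
  have hpa : 0 < ℓ ^ a := pow_pos hℓ.pos a
  have hN : 0 < n * ℓ ^ a := Nat.mul_pos hn0 hpa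
  choose! Q hQ using hpoly
  obtain ⟨T, hT, hTv⟩ := tower_gen hℓ ha hn0 hn K hχ hfin hpos hL₂ hL hP' hQ c
  refine ⟨T, hT, ?_⟩
  intro v hv nv' hnv Pv hPv
  set φ := algebraMap (𝓞 K) K with hφd
  have hφ : Function.Injective φ := RingOfIntegers.coe_injective
  have hZ : Function.Injective (algebraMap ℤ (𝓞 K)) := RingHom.injective_int _
  have hv0 : ((v : k) ^ n) ≠ 0 := pow_ne_zero n v.ne_zero
  -- the polynomials of the twists
  have hscale : ∀ j ∈ Finset.Ico 1 (n * ℓ ^ a),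
      cE d nv' (χ ^ j) =
      (((Q j).comp (C ((χ ^ j) ((v : k) ^ n)) * X) : Polynomial (𝓞 K)) :
        PowerSeries (𝓞 K)) := by
    intro j hj
    rw [cE_twist hfin (χ ^ j) _ hnv, hQ j hj]
    ext i
    rw [PowerSeries.coeff_rescale, Polynomial.coeff_coe, Polynomial.coeff_coe,
      Polynomial.comp_C_mul_X_coeff, mul_comm]
  have hPvm : Pv.map (algebraMap ℤ (𝓞 K)) = ∏ j ∈ Finset.Ico 1 (n * ℓ ^ a),
      (Q j).comp (C ((χ ^ j) ((v : k) ^ n)) * X) := by
    apply Polynomial.coe_injective (𝓞 K)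
    rw [Polynomial.polynomial_map_coe, ← hPv, Pool.Agent.W343.BSD.coe_prod']
    exact Finset.prod_congr rfl hscale
  have hbase : ∀ i ∈ Finset.Ico 1 n, i * ℓ ^ a ∈ Finset.Ico 1 (n * ℓ ^ a) := by
    intro i hi
    rw [Finset.mem_Ico] at hi ⊢
    exact ⟨Nat.mul_pos hi.1 hpa, Nat.mul_lt_mul_of_pos_right hi.2 hpa⟩
  have hPm : P.map (algebraMap ℤ (𝓞 K)) = ∏ i ∈ Finset.Ico 1 n, Q (i * ℓ ^ a) := by
    apply Polynomial.coe_injective (𝓞 K)
    rw [Polynomial.polynomial_map_coe, ← hP', Pool.Agent.W343.BSD.coe_prod']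
    exact Finset.prod_congr rfl fun i hi => hQ _ (hbase i hi)
  have hm : ∀ G : ℤ[X], ordAt (Nat.card k) c G =
      ((G.map (algebraMap ℤ (𝓞 K))).map φ).rootMultiplicity (((Nat.card k : K) ^ c)⁻¹) := by
    intro G
    unfold ordAt
    have h1 := Polynomial.eq_rootMultiplicity_map (p := G.map (Int.castRingHom ℚ))
      (algebraMap ℚ K).injective (((Nat.card k : ℚ) ^ c)⁻¹)
    rw [h1, map_inv₀, map_pow, map_natCast, Polynomial.map_map, Polynomial.map_map]
    congr 2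
    exact RingHom.ext_int _ _
  have hval0 : ∀ j ∈ Finset.Ico 1 (n * ℓ ^ a), φ ((χ ^ j) ((v : k) ^ n)) ≠ 0 := by
    intro j _
    have h1 : IsUnit ((χ ^ j) ((v : k) ^ n)) := (isUnit_iff_ne_zero.2 hv0).map (χ ^ j)
    exact (h1.map φ).ne_zero
  have hQ0 : ∀ j ∈ Finset.Ico 1 (n * ℓ ^ a), (Q j).map φ ≠ 0 := by
    intro j hj
    rw [Polynomial.map_ne_zero_iff hφ]
    intro h
    have h1 := cE_unit hfin hpos (nv := nv) (χ ^ j)
    rw [hQ j hj, h, Polynomial.coe_zero, map_zero] at h1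
    exact zero_ne_one h1
  have hcomp : ∀ j ∈ Finset.Ico 1 (n * ℓ ^ a),
      (((Q j).comp (C ((χ ^ j) ((v : k) ^ n)) * X)).map φ).rootMultiplicity
        (((Nat.card k : K) ^ c)⁻¹) = ((Q j).map φ).rootMultiplicity
          (φ ((χ ^ j) ((v : k) ^ n)) * ((Nat.card k : K) ^ c)⁻¹) := by
    intro j hj
    have h1 : ((Q j).comp (C ((χ ^ j) ((v : k) ^ n)) * X)).map φ =
        ((Q j).map φ).comp (C (φ ((χ ^ j) ((v : k) ^ n))) * X + C 0) := by
      rw [Polynomial.map_comp, Polynomial.map_mul, Polynomial.map_C, Polynomial.map_X, C_0,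
        add_zero]
    rw [h1, rootMultiplicity_comp_C_mul_X_add_C _ _ _ _ (hval0 j hj).isUnit, add_zero]
  have hcomp0 : ∀ j ∈ Finset.Ico 1 (n * ℓ ^ a),
      ((Q j).comp (C ((χ ^ j) ((v : k) ^ n)) * X)).map φ ≠ 0 := by
    intro j hj h
    rw [Polynomial.map_eq_zero_iff hφ] at h
    have h1 := cE_unit hfin hpos (nv := nv') (χ ^ j)
    rw [hscale j hj, h, Polynomial.coe_zero, map_zero] at h1
    exact zero_ne_one h1
  rw [hm, hm, hPvm, hPm, Polynomial.map_prod, Polynomial.map_prod,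
    Pool.Agent.W343.BSD.rm_prod _ _ _ hcomp0,
    Pool.Agent.W343.BSD.rm_prod _ _ _ fun i hi => hQ0 _ (hbase i hi)]
  -- the characters outside the base are not exceptional
  have hsplit : ∀ j ∈ Finset.Ico 1 (n * ℓ ^ a), ¬ ℓ ^ a ∣ j →
      (((Q j).comp (C ((χ ^ j) ((v : k) ^ n)) * X)).map φ).rootMultiplicity
        (((Nat.card k : K) ^ c)⁻¹) = 0 := by
    intro j hj hja
    rw [hcomp j hj]
    apply Polynomial.rootMultiplicity_eq_zero
    exact hTv v hv j hj hja
  have himg : (Finset.Ico 1 (n * ℓ ^ a)).filter (fun j => ℓ ^ a ∣ j) =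
      (Finset.Ico 1 n).image (fun i => i * ℓ ^ a) := by
    ext j
    simp only [Finset.mem_filter, Finset.mem_image]
    constructor
    · rintro ⟨hj, i, rfl⟩
      have hj' := Finset.mem_Ico.1 hj
      refine ⟨i, ?_, mul_comm _ _⟩
      rw [Finset.mem_Ico]
      refine ⟨Nat.pos_of_ne_zero fun h => ?_, ?_⟩
      · rw [h, mul_zero] at hj'
        omega
      · have h1 : ℓ ^ a * i < ℓ ^ a * n := by rw [mul_comm (ℓ ^ a) n]; exact hj'.2
        exact Nat.lt_of_mul_lt_mul_left h1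
    · rintro ⟨i, hi, rfl⟩
      exact ⟨hbase i hi, dvd_mul_left _ _⟩
  rw [← Finset.sum_filter_add_sum_filter_not (Finset.Ico 1 (n * ℓ ^ a)) (fun j => ℓ ^ a ∣ j),
    Finset.sum_eq_zero (s := (Finset.Ico 1 (n * ℓ ^ a)).filter fun j => ¬ ℓ ^ a ∣ j)
      (fun j hj => hsplit j (Finset.mem_filter.1 hj).1 (Finset.mem_filter.1 hj).2), add_zero,
    himg, Finset.sum_image (fun i _ i' _ h => Nat.eq_of_mul_eq_mul_right hpa h)]
  refine Finset.sum_congr rfl fun i hi => ?_
  rw [hcomp _ (hbase i hi)]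
  have h1 : (χ ^ (i * ℓ ^ a)) ((v : k) ^ n) = 1 := by
    rw [map_pow, ← MulChar.pow_apply' _ hn0.ne', ← pow_mul,
      show i * ℓ ^ a * n = n * ℓ ^ a * i by ring, pow_mul, ← hχ, pow_orderOf_eq_one, one_pow,
      MulChar.one_apply v.isUnit]
  rw [h1, map_one, one_mul]


end tower

end Pool.Agent.H313.CC
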