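import Pool.Agent.H313.CC.Avg

/-!
Curves: the complete Euler product and the places of ramification.
-/

set_option autoImplicit false
set_option linter.all false
set_option maxHeartbeats 4000000

open Module NumberField Polynomial

namespace Pool.Agent.H313.CC

open Pool.Agent.W313.Hyp Pool.Agent.W343.BSD
open Pool.Agent.TH639.SG (eq_one_of_pow red_char' muL muL_eq)

section curve

variable {ι k : Type} [Field k] {d : ι → ℕ} {Pl : ι → ℤ[X]} {nv : ι → k}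

/-- The product of all the `Pl z (T ^ (d z))`. -/
noncomputable def zAll (d : ι → ℕ) (Pl : ι → ℤ[X]) : PowerSeries ℤ :=
  eulerProd d (fun z => lf (Pl z) 1 (d z))

theorem lf_int (P : ℤ[X]) (n : ℕ) :
    (lf P 1 n : PowerSeries ℤ) = ((P.comp (X ^ n) : ℤ[X]) : PowerSeries ℤ) := by
  unfold lf
  rw [C_1, one_mul]
  congr 2
  have h1 : algebraMap ℤ ℤ = RingHom.id ℤ := rfl
  rw [h1, Polynomial.map_id]

theorem zAll_split (hfin : ∀ n, {z | d z ≤ n}.Finite) (hPl : ∀ z, (Pl z).coeff 0 = 1)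
    (B : Finset ι) (hB : ∀ z, z ∈ B ↔ nv z = 0) :
    zAll d Pl = zP d Pl nv * ((∏ z ∈ B, (Pl z).comp (X ^ d z) : ℤ[X]) : PowerSeries ℤ) := by
  classical
  have h1 : zP d Pl nv = eulerProd d (fun z => if nv z = 0 then 1 else lf (Pl z) 1 (d z)) := by
    have h2 := red_zP (R := ℤ) (nv := nv) hfin hPl
    have h3 : PowerSeries.map (Int.castRingHom ℤ) (zP d Pl nv) = zP d Pl nv := by
      ext i
      rw [PowerSeries.coeff_map]
      rfl
    rwa [h3] at h2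
  have h4 : eulerProd d (fun z => if nv z = 0 then (lf (Pl z) 1 (d z) : PowerSeries ℤ) else 1) =
      ((∏ z ∈ B, (Pl z).comp (X ^ d z) : ℤ[X]) : PowerSeries ℤ) := by
    rw [eulerProd_of_finset hfin _ B]
    · rw [Pool.Agent.W343.BSD.coe_prod']
      refine Finset.prod_congr rfl fun z hz => ?_
      rw [if_pos ((hB z).1 hz), lf_int]
    · intro z hz
      rw [if_neg fun h => hz ((hB z).2 h)]
    · intro z
      split_ifs
      · exact lf_mod (hPl z) _ _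
      · rw [sub_self]; exact dvd_zero _
  rw [h1, ← h4, ← eulerProd_mul hfin]
  · unfold zAll
    congr 1
    funext z
    split_ifs
    · rw [one_mul]
    · rw [mul_one]
  · intro z
    split_ifs
    · rw [sub_self]; exact dvd_zero _
    · exact lf_mod (hPl z) _ _
  · intro z
    split_ifs
    · exact lf_mod (hPl z) _ _
    · rw [sub_self]; exact dvd_zero _

theorem comp_coeff_zero {P : ℤ[X]} (hP : P.coeff 0 = 1) {n : ℕ} (hn : 0 < n) :
    (P.comp (X ^ n)).coeff 0 = 1 := by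
  rw [Polynomial.coeff_zero_eq_eval_zero, Polynomial.eval_comp, Polynomial.eval_pow,
    Polynomial.eval_X, zero_pow hn.ne', ← Polynomial.coeff_zero_eq_eval_zero, hP]

theorem muL_mul_prod {ℓ : ℕ} (hℓ : ℓ.Prime) {R₁ : ℤ[X]} (hR₁ : R₁.coeff 0 = 1) (B : Finset ι)
    (f : ι → ℤ[X]) (hf : ∀ z ∈ B, (f z).coeff 0 = 1) :
    muL ℓ (R₁ * ∏ z ∈ B, f z) = muL ℓ R₁ + ∑ z ∈ B, muL ℓ (f z) := by
  have : Fact ℓ.Prime := ⟨hℓ⟩
  have hne : ∀ {g : ℤ[X]}, g.coeff 0 = 1 → g.map (Int.castRingHom (ZMod ℓ)) ≠ 0 := by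
    intro g hg h
    have h1 := congrArg (fun p => Polynomial.coeff p 0) h
    simp only [Polynomial.coeff_map, hg, map_one, Polynomial.coeff_zero] at h1
    exact one_ne_zero h1
  have h2 : (∏ z ∈ B, f z).coeff 0 = 1 := by
    rw [Polynomial.coeff_zero_prod]
    exact Finset.prod_eq_one hf
  unfold muL
  rw [Polynomial.map_mul, Polynomial.rootMultiplicity_mul (mul_ne_zero (hne hR₁) (hne h2)),
    Polynomial.map_prod, rm_prod 1 _ _ fun z hz => hne (hf z hz)]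

/-- **The towers over a curve**: the exceptional twists and the average. -/
theorem tower_curve [Finite k] {ℓ a n : ℕ} (hℓ : ℓ.Prime) (ha : a ≠ 0) (hn0 : 0 < n)
    (hn : n.Coprime ℓ) (K : Type) [Field K] [NumberField K] [IsGalois ℚ K]
    {χ : MulChar k (𝓞 K)} (hχ : orderOf χ = n * ℓ ^ a)
    (hfin : ∀ n, {z | d z ≤ n}.Finite) (hpos : ∀ z, 0 < d z) (hPl : ∀ z, (Pl z).coeff 0 = 1)
    (B : Finset ι) (hB : ∀ z, z ∈ B ↔ nv z = 0)
    {R₁ R₂ : ℤ[X]} (hR₁ : R₁.coeff 0 = 1) (hR₂ : R₂.coeff 0 = 1)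
    (hR : zAll d Pl * (R₁ : PowerSeries ℤ) = (R₂ : PowerSeries ℤ))
    {P : ℤ[X]} (hP : (∏ i ∈ Finset.Ico 1 n, cP d Pl nv (χ ^ (i * ℓ ^ a))) *
      PowerSeries.map (algebraMap ℤ (𝓞 K)) (P : PowerSeries ℤ) = 1)
    (hpoly : ∀ j ∈ Finset.Ico 1 (n * ℓ ^ a), ∃ Q : (𝓞 K)[X],
      cP d Pl nv (χ ^ j) * (Q : PowerSeries (𝓞 K)) = 1) (c : ℕ)
    (nv' : kˣ → ι → k) (hnv' : ∀ v z, nv' v z = ((v : k) ^ n) ^ d z * nv z)
    (Pv : kˣ → ℤ[X]) (hPv : ∀ v : kˣ, (∏ j ∈ Finset.Ico 1 (n * ℓ ^ a), cP d Pl (nv' v) (χ ^ j)) *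
      PowerSeries.map (algebraMap ℤ (𝓞 K)) (Pv v : PowerSeries ℤ) = 1) :
    (∀ v : kˣ, ordAt (Nat.card k) c P ≤ ordAt (Nat.card k) c (Pv v)) ∧
    (∃ T : Finset kˣ, ℓ ^ a * T.card ≤ (Nat.card k - 1) * ((∑ i ∈ Finset.range a, ℓ ^ i) *
        (muL ℓ R₁ + ∑ z ∈ B, muL ℓ ((Pl z).comp (X ^ d z)) - muL ℓ R₂ + muL ℓ P)) ∧
      ∀ v ∉ T, ordAt (Nat.card k) c (Pv v) = ordAt (Nat.card k) c P) ∧
    ℓ * ∑ᶠ v : kˣ, (ordAt (Nat.card k) c (Pv v) - ordAt (Nat.card k) c P) ≤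
      (Nat.card k - 1) * (a * (ℓ - 1) *
        (muL ℓ R₁ + ∑ z ∈ B, muL ℓ ((Pl z).comp (X ^ d z)) - muL ℓ R₂ + muL ℓ P)) := by
  have hodd : ¬ Even 1 := by decide
  have hdE : ∀ {A : Type} [CommRing A] {f g : PowerSeries A}, PowerSeries.constantCoeff f = 1 →
      f * g = 1 → dE 1 f = g := by
    intro A _ f g hf hfg
    unfold dE
    rw [if_neg hodd]
    exact inv_unique hf hfg
  have hunit : ∀ (nv : ι → k) (ψ : MulChar k (𝓞 K)),
      PowerSeries.constantCoeff (cP d Pl nv ψ) = 1 := fun nv ψ => cP_unit hfin hpos ψ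
  have hunits : ∀ (nv : ι → k) (s : Finset ℕ) (f : ℕ → MulChar k (𝓞 K)),
      PowerSeries.constantCoeff (∏ j ∈ s, cP d Pl nv (f j)) = 1 := by
    intro nv s f
    rw [map_prod]
    exact Finset.prod_eq_one fun j _ => hunit nv _
  set L₁ : ℤ[X] := R₁ * ∏ z ∈ B, (Pl z).comp (X ^ d z) with hL₁
  have hz : PowerSeries.constantCoeff (zP d Pl nv) = 1 :=
    one_of_pos (ι := {z // nv z ≠ 0}) (d := fun z => d z.1)
      (fun n => (hfin n).preimage (Subtype.val_injective.injOn)) (fun z => hpos z.1) _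
  have hL : dE 1 (zP d Pl nv) * (R₂ : PowerSeries ℤ) = (L₁ : PowerSeries ℤ) := by
    have h1 : zP d Pl nv * PowerSeries.invOfUnit (zP d Pl nv) 1 = 1 :=
      PowerSeries.mul_invOfUnit _ 1 (by rw [hz]; rfl)
    unfold dE
    rw [if_neg hodd, ← hR, zAll_split hfin hPl B hB, hL₁, Polynomial.coe_mul]
    calc PowerSeries.invOfUnit (zP d Pl nv) 1 * (zP d Pl nv *
          ((∏ z ∈ B, (Pl z).comp (X ^ d z) : ℤ[X]) : PowerSeries ℤ) * (R₁ : PowerSeries ℤ))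
        = (zP d Pl nv * PowerSeries.invOfUnit (zP d Pl nv) 1) * (R₁ : PowerSeries ℤ) *
          ((∏ z ∈ B, (Pl z).comp (X ^ d z) : ℤ[X]) : PowerSeries ℤ) := by ring
      _ = _ := by rw [h1, one_mul]
  have hmu : muL ℓ L₁ = muL ℓ R₁ + ∑ z ∈ B, muL ℓ ((Pl z).comp (X ^ d z)) :=
    muL_mul_prod hℓ hR₁ B _ fun z _ => comp_coeff_zero (hPl z) (hpos z)
  have hfam := famP (nv := nv) hfin hpos hPl 1 K hL
  have hP' : ∏ i ∈ Finset.Ico 1 n, dE 1 (cP d Pl nv (χ ^ (i * ℓ ^ a))) =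
      PowerSeries.map (algebraMap ℤ (𝓞 K)) (P : PowerSeries ℤ) := by
    rw [dE_prod _ _ fun i _ => hunit nv _]
    exact hdE (hunits nv _ _) hP
  have hpoly' : ∀ j ∈ Finset.Ico 1 (n * ℓ ^ a), ∃ Q : (𝓞 K)[X],
      dE 1 (cP d Pl nv (χ ^ j)) = (Q : PowerSeries (𝓞 K)) := by
    intro j hj
    obtain ⟨Q, hQ⟩ := hpoly j hj
    exact ⟨Q, hdE (hunit nv _) hQ⟩
  have hPv' : ∀ v : kˣ, ∏ j ∈ Finset.Ico 1 (n * ℓ ^ a),
      PowerSeries.rescale ((χ ^ j) ((v : k) ^ n)) (dE 1 (cP d Pl nv (χ ^ j))) =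
        PowerSeries.map (algebraMap ℤ (𝓞 K)) (Pv v : PowerSeries ℤ) := by
    intro v
    rw [← hdE (hunits (nv' v) _ _) (hPv v), ← dE_prod _ _ fun j _ => hunit (nv' v) _]
    exact Finset.prod_congr rfl fun j _ => (dP_twist hfin hpos 1 (χ ^ j) _ (hnv' v)).symm
  obtain ⟨h1, h2⟩ := average_abs hℓ ha hn0 hn K hχ {1} hR₂ hfam (isTn_one L₁) (isTn_one R₂)
    hP' (isTn_one P) hpoly' c Pv Pv hPv' (fun v => isTn_one (Pv v))
  obtain ⟨T, h3, h4⟩ := tower_abs hℓ ha hn0 hn K hχ {1}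
    (fun σ => by rw [Multiset.map_singleton, map_one]) hR₂ hfam
    (isTn_one L₁) (isTn_one R₂) hP' (isTn_one P) hpoly' c
  rw [hmu] at h2 h3
  exact ⟨h1, ⟨T, h3, fun v hv => h4 v hv (Pv v) (Pv v) (hPv' v) (isTn_one (Pv v))⟩, h2⟩

end curve

end Pool.Agent.H313.CC
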