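import Mathlib.RingTheory.DedekindDomain.Ideal.Lemmas
import Mathlib.RingTheory.Ideal.Quotient.Operations
import Mathlib.Data.Fintype.BigOperators
import Mathlib.SetTheory.Cardinal.Finite
import Mathlib.Analysis.SpecificLimits.Basic
import Mathlib.Tactic

/-!
Residue classes of a Dedekind domain outside given sets modulo infinitely many primes.
-/

set_option autoImplicit false
set_option linter.all false

namespace Pool.Agent.H313.CC

open IsDedekindDomain

section res

variable {O : Type} [CommRing O] [IsDedekindDomain O]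

/-- The residue field at `p`. -/
def Res (p : HeightOneSpectrum O) : Type := O ⧸ p.asIdeal

noncomputable instance resField (p : HeightOneSpectrum O) : Field (Res p) :=
  @Ideal.Quotient.field O _ p.asIdeal p.isMaximal

/-- The residue class map. -/
noncomputable def red (p : HeightOneSpectrum O) : O →+* Res p := Ideal.Quotient.mk p.asIdeal

theorem red_eq_zero (p : HeightOneSpectrum O) (v : O) : red p v = 0 ↔ v ∈ p.asIdeal :=
  Ideal.Quotient.eq_zero_iff_mem

theorem density (S : Set (HeightOneSpectrum O)) (hS : S.Infinite)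
    (hfin : ∀ p ∈ S, Finite (Res p)) (E : ∀ p : HeightOneSpectrum O, Set (Res p)) {δ : ℝ}
    (hδ0 : 0 ≤ δ) (hδ : δ < 1) (hE : ∀ p ∈ S, ((E p).ncard : ℝ) ≤ δ * Nat.card (Res p))
    {η : ℝ} (hη : 0 < η) :
    ∃ 𝔪 : Ideal O, 𝔪 ≠ ⊥ ∧ Finite (O ⧸ 𝔪) ∧ (1 - η) * (Nat.card (O ⧸ 𝔪) : ℝ) ≤
      ({c : O ⧸ 𝔪 | ∀ v : O, Ideal.Quotient.mk 𝔪 v = c → ∃ p ∈ S, red p v ∉ E p}.ncard : ℝ) := by
  classical
  obtain ⟨t, ht⟩ := exists_pow_lt_of_lt_one hη hδ
  obtain ⟨s, hsS, hst⟩ := hS.exists_subset_card_eq t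
  let f : s → Ideal O := fun p => p.1.asIdeal
  have hf : Pairwise (Function.onFun IsCoprime f) := by
    intro i j hij
    exact HeightOneSpectrum.isCoprime_of_ne i.1 j.1 (fun h => hij (Subtype.ext h))
  let e := Ideal.quotientInfRingEquivPiQuotient f hf
  have hfin' : ∀ i : s, Finite (O ⧸ f i) := fun i => hfin i.1 (hsS i.2)
  have hF : Finite (O ⧸ ⨅ i, f i) := Finite.of_equiv _ e.symm.toEquiv
  have hne : (⨅ i, f i) ≠ ⊥ := by
    intro h
    have h1 : (∏ i, f i) ≤ ⨅ i, f i := by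
      rw [← Finset.inf_univ_eq_iInf]
      exact Ideal.prod_le_inf
    rw [h, le_bot_iff] at h1
    have h2 : (∏ i, f i) ≠ 0 := Finset.prod_ne_zero_iff.2 fun i _ => i.1.ne_bot
    exact h2 h1
  refine ⟨⨅ i, f i, hne, hF, ?_⟩
  set good : Set (O ⧸ ⨅ i, f i) :=
    {c | ∀ v : O, Ideal.Quotient.mk (⨅ i, f i) v = c → ∃ p ∈ S, red p v ∉ E p} with hgood
  have hbad : (goodᶜ.ncard : ℝ) ≤ η * Nat.card (O ⧸ ⨅ i, f i) := by
    let E' : ∀ i : s, Set (O ⧸ f i) := fun i => E i.1
    have hEfin : ∀ i : s, (E' i).Finite := fun i => Set.toFinite _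
    have : ∀ i : s, Fintype (O ⧸ f i) := fun i => Fintype.ofFinite _
    let P : Finset (∀ i : s, O ⧸ f i) := Fintype.piFinset fun i => (hEfin i).toFinset
    have h1 : goodᶜ.ncard ≤ P.card := by
      rw [← Set.ncard_coe_finset]
      refine Set.ncard_le_ncard_of_injOn e ?_ e.injective.injOn (Set.toFinite _)
      intro c hc
      rw [hgood, Set.mem_compl_iff, Set.mem_setOf_eq] at hc
      push Not at hc
      obtain ⟨v, rfl, hv⟩ := hc
      rw [Finset.mem_coe, Fintype.mem_piFinset]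
      intro i
      rw [Set.Finite.mem_toFinset]
      exact hv i.1 (hsS i.2)
    have h2 : (P.card : ℝ) ≤ δ ^ t * Nat.card (O ⧸ ⨅ i, f i) := by
      rw [Fintype.card_piFinset, Nat.card_congr e.toEquiv, Nat.card_pi, ← hst,
        ← Fintype.card_coe s]
      push_cast
      rw [← Finset.card_univ, ← Finset.prod_const, ← Finset.prod_mul_distrib]
      refine Finset.prod_le_prod (fun i _ => Nat.cast_nonneg _) fun i _ => ?_
      have h3 := hE i.1 (hsS i.2)
      rw [Set.ncard_eq_toFinset_card (E i.1) (hEfin i)] at h3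
      exact h3
    calc (goodᶜ.ncard : ℝ) ≤ P.card := by exact_mod_cast h1
      _ ≤ δ ^ t * Nat.card (O ⧸ ⨅ i, f i) := h2
      _ ≤ η * Nat.card (O ⧸ ⨅ i, f i) := by
          apply mul_le_mul_of_nonneg_right ht.le (Nat.cast_nonneg _)
  have htot : (good.ncard : ℝ) + goodᶜ.ncard = Nat.card (O ⧸ ⨅ i, f i) := by
    exact_mod_cast Set.ncard_add_ncard_compl good
  linarith

/-- from the exceptional units to the exceptional residue classes -/
theorem exceptional {k : Type} [Field k] [Finite k] {N : ℕ} (hN : 0 < N) {T : Finset kˣ}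
    (hT : N * T.card ≤ (Nat.card k - 1) * (N - 1)) :
    ((({u : k | ∀ v : kˣ, (v : k) = u → v ∈ T} : Set k).ncard : ℕ) : ℝ) ≤
      (1 - 1 / (2 * N)) * Nat.card k := by
  classical
  have h1 : ({u : k | ∀ v : kˣ, (v : k) = u → v ∈ T} : Set k) ⊆
      ((insert 0 (T.image fun v : kˣ => (v : k)) : Finset k) : Set k) := by
    intro u hu
    rw [Finset.mem_coe, Finset.mem_insert, Finset.mem_image]
    by_cases h0 : u = 0
    · exact Or.inl h0
    · exact Or.inr ⟨Units.mk0 u h0, hu _ rfl, rfl⟩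
  have h2 : ({u : k | ∀ v : kˣ, (v : k) = u → v ∈ T} : Set k).ncard ≤ T.card + 1 := by
    refine (Set.ncard_le_ncard h1 (Set.toFinite _)).trans ?_
    rw [Set.ncard_coe_finset]
    exact (Finset.card_insert_le _ _).trans (Nat.add_le_add_right Finset.card_image_le _)
  have hk : 2 ≤ Nat.card k := Finite.one_lt_card
  have hN' : (0 : ℝ) < N := by exact_mod_cast hN
  have hk' : (2 : ℝ) ≤ Nat.card k := by exact_mod_cast hk
  have h3 : (N : ℝ) * T.card ≤ (Nat.card k - 1) * (N - 1) := by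
    have h4 : ((N * T.card : ℕ) : ℝ) ≤ (((Nat.card k - 1) * (N - 1) : ℕ) : ℝ) := by
      exact_mod_cast hT
    push_cast [Nat.cast_sub (show 1 ≤ Nat.card k by omega), Nat.cast_sub (show 1 ≤ N by omega)]
      at h4
    exact h4
  have h5 : (T.card : ℝ) + 1 ≤ (1 - 1 / (2 * N)) * Nat.card k := by
    have h6 : (1 - 1 / (2 * (N : ℝ))) * Nat.card k = (2 * N - 1) * Nat.card k / (2 * N) := by
      field_simp
    rw [h6, le_div_iff₀ (by positivity)]
    nlinarith
  calc ((({u : k | ∀ v : kˣ, (v : k) = u → v ∈ T} : Set k).ncard : ℕ) : ℝ) ≤ T.card + 1 := by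
        exact_mod_cast h2
    _ ≤ _ := h5

end res

end Pool.Agent.H313.CC
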