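import Pool.Agent.H313.CC.Core
import Mathlib.FieldTheory.Minpoly.IsConjRoot

/-!
The exceptional twists, for a family of polynomials indexed by the powers of a character.
-/

set_option autoImplicit false
set_option linter.all false
set_option maxHeartbeats 4000000

open Module NumberField

namespace Pool.Agent.H313.CC

open Pool.Agent.W313.Hyp Pool.Agent.W343.BSD
open Pool.Agent.TH639.SG (eq_one_of_pow red_char' muL muL_eq)
open Pool.Agent.TH639.SC (exists_hom one_sub_ne one_sub_mod)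
open Pool.Agent.TH639.CK (count_gen exists_lift card_dvd)

section conj

/-- conjugation in a Galois extension of the rational numbers -/
theorem exists_conj2 (F : Type) [Field F] [NumberField F] [IsGalois ℚ F] {N : ℕ} (hN : 0 < N)
    {ω : F} (hω : IsPrimitiveRoot ω N) {s : ℕ} (hs : s.Coprime N) :
    ∃ (σ : 𝓞 F →+* 𝓞 F) (σF : F →+* F),
      (∀ x : 𝓞 F, algebraMap (𝓞 F) F (σ x) = σF (algebraMap (𝓞 F) F x)) ∧
      ∀ x : 𝓞 F, x ^ N = 1 → σ x = x ^ s := by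
  have hω' := hω.pow_of_coprime s hs
  have h1 : IsConjRoot ℚ (ω ^ s) ω := by
    show minpoly ℚ (ω ^ s) = minpoly ℚ ω
    rw [← Polynomial.cyclotomic_eq_minpoly_rat hω hN, ← Polynomial.cyclotomic_eq_minpoly_rat hω' hN]
  obtain ⟨σF, hspec⟩ := isConjRoot_iff_exists_algEquiv.1 h1
  refine ⟨RingOfIntegers.mapRingHom ((σF : F →ₐ[ℚ] F) : F →+* F), ((σF : F →ₐ[ℚ] F) : F →+* F),
    fun x => rfl, ?_⟩
  intro x hx
  have hx' : (algebraMap (𝓞 F) F x) ^ N = 1 := by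
    rw [← map_pow, hx, map_one]
  have : NeZero N := ⟨hN.ne'⟩
  obtain ⟨i, -, hi⟩ := hω.eq_pow_of_pow_eq_one hx'
  apply RingOfIntegers.coe_injective
  show σF (algebraMap (𝓞 F) F x) = algebraMap (𝓞 F) F (x ^ s)
  rw [map_pow, ← hi, map_pow, hspec, ← pow_mul, ← pow_mul, mul_comm]

/-- the values of a character of order `N` contain a primitive root of unity -/
theorem exists_root {k : Type} [Field k] [Finite k] {A : Type} [CommRing A] {N : ℕ} (hN : 0 < N)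
    {χ : MulChar k A} (hχ : orderOf χ = N) : ∃ g : kˣ, IsPrimitiveRoot (χ (g : k)) N := by
  obtain ⟨g, hg⟩ := IsCyclic.exists_generator (α := kˣ)
  refine ⟨g, ?_, ?_⟩
  · rw [← MulChar.pow_apply' χ hN.ne', ← hχ, pow_orderOf_eq_one, MulChar.one_apply g.isUnit]
  · intro m hm
    rcases Nat.eq_zero_or_pos m with rfl | hm0
    · exact dvd_zero _
    rw [← hχ]
    apply orderOf_dvd_of_pow_eq_one
    apply MulChar.ext
    intro u
    obtain ⟨i, hi⟩ := (Subgroup.mem_zpowers_iff.1 (hg u))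
    rw [MulChar.one_apply u.isUnit, ← hi]
    have h1 : (χ ^ m) (g : k) = 1 := by rw [MulChar.pow_apply' χ hm0.ne', hm]
    have h2 : (χ ^ m).toUnitHom g = 1 := by
      apply Units.ext
      rw [MulChar.coe_toUnitHom, h1, Units.val_one]
    have h3 : (χ ^ m).toUnitHom (g ^ i) = 1 := by rw [map_zpow, h2, one_zpow]
    rw [← MulChar.coe_toUnitHom, h3, Units.val_one]

end conj

section engine

variable {k : Type} [Field k] [Finite k]

/-- **The exceptional set.** -/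
theorem engine {ℓ a n : ℕ} (hℓ : ℓ.Prime) (ha : a ≠ 0) (hn0 : 0 < n) (hn : n.Coprime ℓ)
    (F : Type) [Field F] [NumberField F] [IsGalois ℚ F]
    {χ : MulChar k (𝓞 F)} (hχ : orderOf χ = n * ℓ ^ a) {R : Type} [Field R] [CharP R ℓ]
    (ρ : 𝓞 F →+* R) (hq : ((Nat.card k : ℕ) : R) = 1) (V : ℕ → Polynomial (𝓞 F)) (M : ℕ → ℕ)
    (hVne : ∀ j ∈ Finset.Ico 1 (n * ℓ ^ a), (V j).map ρ ≠ 0)
    (hgal : ∀ σ : 𝓞 F →+* 𝓞 F, ∀ j ∈ Finset.Ico 1 (n * ℓ ^ a), ∀ g ∈ Finset.Ico 1 (n * ℓ ^ a),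
      (∀ x : k, σ ((χ ^ j) x) = (χ ^ g) x) → (V j).map σ = V g)
    (hlevel : ∀ e ∈ Finset.range a,
      ∑ h ∈ n.divisors, ((V (ℓ ^ e * h)).map ρ).rootMultiplicity 1 ≤ M e) (c : ℕ) :
    ∃ T : Finset kˣ, ℓ ^ a * T.card ≤ (Nat.card k - 1) * ∑ e ∈ Finset.range a, ℓ ^ e * M e ∧
      ∀ u ∉ T, ∀ j ∈ Finset.Ico 1 (n * ℓ ^ a), ¬ ℓ ^ a ∣ j →
        ((V j).map (algebraMap (𝓞 F) F)).eval
          (algebraMap (𝓞 F) F ((χ ^ j) ((u : k) ^ n)) * ((Nat.card k : F) ^ c)⁻¹) ≠ 0 := by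
  classical
  have hFℓ : Fact ℓ.Prime := ⟨hℓ⟩
  have := Fintype.ofFinite kˣ
  have hpa : 0 < ℓ ^ a := pow_pos hℓ.pos a
  have hN : 0 < n * ℓ ^ a := Nat.mul_pos hn0 hpa
  have hNe : NeZero (n * ℓ ^ a) := ⟨hN.ne'⟩
  set φ := algebraMap (𝓞 F) F with hφd
  have hφ : Function.Injective φ := RingOfIntegers.coe_injective
  obtain ⟨g₀, hg₀⟩ := exists_root hN hχ
  have hω : IsPrimitiveRoot (φ (χ (g₀ : k))) (n * ℓ ^ a) := hg₀.map_of_injective hφ
  -- the exceptional sets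
  let Tg : ℕ → Finset kˣ := fun g => Finset.univ.filter fun u : kˣ =>
    ((V g).map φ).eval (φ ((χ ^ g) ((u : k) ^ n)) * ((Nat.card k : F) ^ c)⁻¹) = 0
  have hg : ∀ e ∈ Finset.range a, ∀ h ∈ n.divisors, ℓ ^ e * h ∈ Finset.Ico 1 (n * ℓ ^ a) := by
    intro e he h hh
    rw [Finset.mem_range] at he
    have hh' := Nat.dvd_of_mem_divisors hh
    have hhpos := Nat.pos_of_mem_divisors hh
    rw [Finset.mem_Ico]
    refine ⟨Nat.mul_pos (pow_pos hℓ.pos e) hhpos, ?_⟩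
    calc ℓ ^ e * h ≤ ℓ ^ e * n := Nat.mul_le_mul_left _ (Nat.le_of_dvd hn0 hh')
      _ = n * ℓ ^ e := mul_comm _ _
      _ < n * ℓ ^ a := Nat.mul_lt_mul_of_pos_left (Nat.pow_lt_pow_right hℓ.one_lt he) hn0
  have hcount : ∀ e ∈ Finset.range a, ∀ h ∈ n.divisors,
      (Tg (ℓ ^ e * h)).card * ℓ ^ (a - e) ≤
        (Nat.card k - 1) * ((V (ℓ ^ e * h)).map ρ).rootMultiplicity 1 := by
    intro e he h hh
    have he' := Finset.mem_range.1 he
    have hh' := Nat.dvd_of_mem_divisors hh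
    have hhpos := Nat.pos_of_mem_divisors hh
    have hgpos : 0 < ℓ ^ e * h := Nat.mul_pos (pow_pos hℓ.pos e) hhpos
    have ho : orderOf (χ ^ (ℓ ^ e * h * n)) = ℓ ^ (a - e) := by
      rw [orderOf_pow' χ (Nat.mul_pos hgpos hn0).ne', hχ]
      have h1 : n * ℓ ^ a = n * ℓ ^ e * ℓ ^ (a - e) := by
        rw [mul_assoc, ← pow_add]; congr 2; omega
      have h2 : (ℓ ^ (a - e)).gcd h = 1 :=
        Nat.Coprime.pow_left _ (Nat.Coprime.coprime_dvd_left hh' hn).symm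
      have h3 : (n * ℓ ^ a).gcd (ℓ ^ e * h * n) = n * ℓ ^ e := by
        rw [h1, show ℓ ^ e * h * n = n * ℓ ^ e * h by ring, Nat.gcd_mul_left, h2, mul_one]
      rw [h3, h1, Nat.mul_div_cancel_left _ (Nat.mul_pos hn0 (pow_pos hℓ.pos e))]
    have hval : ∀ u : kˣ, (χ ^ (ℓ ^ e * h)) ((u : k) ^ n) =
        (χ ^ (ℓ ^ e * h * n)) (u : k) := by
      intro u
      rw [map_pow, show χ ^ (ℓ ^ e * h * n) = (χ ^ (ℓ ^ e * h)) ^ n from pow_mul _ _ _,
        MulChar.pow_apply' (χ ^ (ℓ ^ e * h)) hn0.ne']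
    refine count_gen hφ ρ hq (pow_pos hℓ.pos _) ho ?_ (hVne _ (hg e he h hh)) c _ ?_
    · intro u hu
      exact red_char' ρ (by rw [← ho, pow_orderOf_eq_one]) hu
    · intro u hu
      rw [← hval]
      exact (Finset.mem_filter.1 hu).2
  refine ⟨(Finset.range a).biUnion fun e => n.divisors.biUnion fun h => Tg (ℓ ^ e * h), ?_, ?_⟩
  · have h1 : ∀ e ∈ Finset.range a, ℓ ^ (a - e) *
        (n.divisors.biUnion fun h => Tg (ℓ ^ e * h)).card ≤ (Nat.card k - 1) * M e := by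
      intro e he
      calc ℓ ^ (a - e) * (n.divisors.biUnion fun h => Tg (ℓ ^ e * h)).card
          ≤ ℓ ^ (a - e) * ∑ h ∈ n.divisors, (Tg (ℓ ^ e * h)).card :=
            Nat.mul_le_mul_left _ Finset.card_biUnion_le
        _ = ∑ h ∈ n.divisors, (Tg (ℓ ^ e * h)).card * ℓ ^ (a - e) := by
            rw [mul_comm, Finset.sum_mul]
        _ ≤ ∑ h ∈ n.divisors, (Nat.card k - 1) *
            ((V (ℓ ^ e * h)).map ρ).rootMultiplicity 1 :=
            Finset.sum_le_sum fun h hh => hcount e he h hh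
        _ = (Nat.card k - 1) * ∑ h ∈ n.divisors,
            ((V (ℓ ^ e * h)).map ρ).rootMultiplicity 1 := by rw [Finset.mul_sum]
        _ ≤ _ := Nat.mul_le_mul_left _ (hlevel e he)
    calc ℓ ^ a * ((Finset.range a).biUnion fun e => n.divisors.biUnion fun h =>
          Tg (ℓ ^ e * h)).card
        ≤ ℓ ^ a * ∑ e ∈ Finset.range a, (n.divisors.biUnion fun h => Tg (ℓ ^ e * h)).card :=
          Nat.mul_le_mul_left _ Finset.card_biUnion_le
      _ = ∑ e ∈ Finset.range a, ℓ ^ e * (ℓ ^ (a - e) *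
          (n.divisors.biUnion fun h => Tg (ℓ ^ e * h)).card) := by
          rw [Finset.mul_sum]
          refine Finset.sum_congr rfl fun e he => ?_
          have he' := Finset.mem_range.1 he
          have h3 : ℓ ^ a = ℓ ^ e * ℓ ^ (a - e) := by rw [← pow_add]; congr 1; omega
          rw [h3, mul_assoc]
      _ ≤ ∑ e ∈ Finset.range a, ℓ ^ e * ((Nat.card k - 1) * M e) :=
          Finset.sum_le_sum fun e he => Nat.mul_le_mul_left _ (h1 e he)
      _ = _ := by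
          rw [Finset.mul_sum]
          exact Finset.sum_congr rfl fun e _ => by ring
  · intro u hu j hj hja h0
    apply hu
    have hj' := Finset.mem_Ico.1 hj
    set g := (n * ℓ ^ a).gcd j with hgd
    have hgpos : 0 < g := Nat.gcd_pos_of_pos_left _ hN
    have hgN : g ∣ n * ℓ ^ a := Nat.gcd_dvd_left _ _
    have hgj : g ∣ j := Nat.gcd_dvd_right _ _
    obtain ⟨e, h, hh, hge⟩ := Nat.exists_eq_pow_mul_and_not_dvd hgpos.ne' ℓ hℓ.ne_one
    have hea : e < a := by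
      by_contra hea
      apply hja
      have h1 : ℓ ^ a ∣ g := by
        rw [hge]
        exact (pow_dvd_pow ℓ (by omega)).trans (dvd_mul_right _ _)
      exact h1.trans hgj
    have hhn : h ∣ n := by
      have h1 : h ∣ n * ℓ ^ a := (by rw [hge]; exact dvd_mul_left _ _ : h ∣ g).trans hgN
      exact Nat.Coprime.dvd_of_dvd_mul_right
        (Nat.Coprime.pow_right a ((Nat.Prime.coprime_iff_not_dvd hℓ).2 hh).symm) h1
    -- conjugation
    obtain ⟨s', hs'⟩ := hgj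
    have hs'c : s'.Coprime (n * ℓ ^ a / g) := by
      have h1 := Nat.coprime_div_gcd_div_gcd (m := n * ℓ ^ a) (n := j) hgpos
      rw [← hgd] at h1
      have h2 : j / g = s' := by
        conv_lhs => rw [hs']
        exact Nat.mul_div_cancel_left _ hgpos
      rw [h2] at h1
      exact h1.symm
    obtain ⟨s, hsN, hss⟩ := exists_lift hN (Nat.div_dvd_of_dvd hgN) hs'c
    obtain ⟨t, ht⟩ : ∃ t : ℕ, s * t ≡ 1 [MOD n * ℓ ^ a] := by
      have h1 : 1 < n * ℓ ^ a :=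
        lt_of_lt_of_le (Nat.one_lt_pow ha hℓ.one_lt) (Nat.le_mul_of_pos_left _ hn0)
      obtain ⟨t, -, h⟩ := Nat.exists_mul_mod_eq_one_of_coprime hsN h1
      exact ⟨t, by rw [Nat.ModEq, h, Nat.mod_eq_of_lt h1]⟩
    have htN : t.Coprime (n * ℓ ^ a) := by
      have h1 : (s * t).Coprime (n * ℓ ^ a) := by
        rw [Nat.Coprime, ht.gcd_eq]
        exact Nat.gcd_one_left _
      exact Nat.Coprime.coprime_mul_left h1
    obtain ⟨σ, σF, hσF, hσ⟩ := exists_conj2 F (N := n * ℓ ^ a) hN hω htN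
    have hogd : orderOf (χ ^ g) = n * ℓ ^ a / g := by
      rw [orderOf_pow_of_dvd hgpos.ne' (by rw [hχ]; exact hgN), hχ]
    have hjg : χ ^ j = (χ ^ g) ^ s := by
      conv_lhs => rw [hs', pow_mul]
      rw [pow_eq_pow_iff_modEq, hogd]
      exact hss.symm
    have hchar : (χ ^ j) ^ t = χ ^ g := by
      rw [hjg, ← pow_mul, ← pow_mul, ← mul_assoc, mul_assoc g s t]
      conv_rhs => rw [← mul_one g]
      rw [pow_eq_pow_iff_modEq, hχ]
      exact ht.mul_left g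
    have ht0 : t ≠ 0 := by
      rintro rfl
      have h1 : 1 < n * ℓ ^ a :=
        lt_of_lt_of_le (Nat.one_lt_pow ha hℓ.one_lt) (Nat.le_mul_of_pos_left _ hn0)
      rw [Nat.Coprime, Nat.gcd_zero_left] at htN
      omega
    have hval : ∀ x : k, σ ((χ ^ j) x) = (χ ^ g) x := by
      intro x
      by_cases hx : x = 0
      · rw [hx, MulChar.map_zero, MulChar.map_zero, map_zero]
      · have hx' : IsUnit x := isUnit_iff_ne_zero.2 hx
        rw [hσ, ← hchar, MulChar.pow_apply' (χ ^ j) ht0]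
        rw [← MulChar.pow_apply' (χ ^ j) hN.ne', ← pow_mul, mul_comm, pow_mul, ← hχ,
          pow_orderOf_eq_one, one_pow, MulChar.one_apply hx']
    have hgm : g ∈ Finset.Ico 1 (n * ℓ ^ a) := by
      rw [hge]
      exact hg e (Finset.mem_range.2 hea) h (Nat.mem_divisors.2 ⟨hhn, hn0.ne'⟩)
    have hQc : (V j).map σ = V g := hgal σ j hj g hgm hval
    have hzero : ((V g).map φ).eval
        (φ ((χ ^ g) ((u : k) ^ n)) * ((Nat.card k : F) ^ c)⁻¹) = 0 := by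
      have h1 := congrArg σF h0
      rw [map_zero, ← Polynomial.eval_map_apply, Polynomial.map_map] at h1
      have h2 : σF.comp φ = φ.comp σ := RingHom.ext fun x => (hσF x).symm
      have h3 : σF ((Nat.card k : F) ^ c)⁻¹ = ((Nat.card k : F) ^ c)⁻¹ := by
        rw [map_inv₀, map_pow, map_natCast]
      rw [h2, ← Polynomial.map_map, hQc, map_mul, ← hσF, hval, h3] at h1
      exact h1
    rw [Finset.mem_biUnion]
    refine ⟨e, Finset.mem_range.2 hea, ?_⟩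
    rw [Finset.mem_biUnion]
    refine ⟨h, Nat.mem_divisors.2 ⟨hhn, hn0.ne'⟩, ?_⟩
    rw [← hge, Finset.mem_filter]
    exact ⟨Finset.mem_univ _, hzero⟩

/-- The multiplicities for the characters whose product with `ℓ ^ e` has order dividing `n`. -/
theorem level_bound {ℓ a n : ℕ} (hℓ : ℓ.Prime) (ha : a ≠ 0) (hn0 : 0 < n) (hn : n.Coprime ℓ)
    (m : ℕ → ℕ) {M₁ M₀ : ℕ} {e : ℕ} (he : e < a)
    (hpow : m (ℓ ^ e * n) ≤ M₁)
    (hred : ∀ j ∈ Finset.Ico 1 (n * ℓ ^ a), ∀ j' ∈ Finset.Ico 1 (n * ℓ ^ a),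
      j ≡ j' [MOD n] → ¬ n ∣ j → ℓ ^ e ∣ j → m j = m j')
    (hsum : ∑ i ∈ Finset.Ico 1 n, m (i * ℓ ^ a) ≤ M₀) :
    ∑ h ∈ n.divisors, m (ℓ ^ e * h) ≤ M₁ + M₀ := by
  classical
  have hpa : 0 < ℓ ^ a := pow_pos hℓ.pos a
  have hg : ∀ h ∈ n.divisors, ℓ ^ e * h ∈ Finset.Ico 1 (n * ℓ ^ a) := by
    intro h hh
    have hh' := Nat.dvd_of_mem_divisors hh
    have hhpos := Nat.pos_of_mem_divisors hh
    rw [Finset.mem_Ico]
    refine ⟨Nat.mul_pos (pow_pos hℓ.pos e) hhpos, ?_⟩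
    calc ℓ ^ e * h ≤ ℓ ^ e * n := Nat.mul_le_mul_left _ (Nat.le_of_dvd hn0 hh')
      _ = n * ℓ ^ e := mul_comm _ _
      _ < n * ℓ ^ a := Nat.mul_lt_mul_of_pos_left (Nat.pow_lt_pow_right hℓ.one_lt he) hn0
  have hbase : ∀ i ∈ Finset.Ico 1 n, i * ℓ ^ a ∈ Finset.Ico 1 (n * ℓ ^ a) := by
    intro i hi
    rw [Finset.mem_Ico] at hi ⊢
    exact ⟨Nat.mul_pos hi.1 hpa, Nat.mul_lt_mul_of_pos_right hi.2 hpa⟩
  rw [← Nat.cons_self_properDivisors hn0.ne', Finset.sum_cons]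
  refine Nat.add_le_add hpow (le_trans ?_ hsum)
  -- the inverse of `ℓ ^ (a - e)` modulo `n`
  obtain ⟨t, ht⟩ : ∃ t : ℕ, ℓ ^ (a - e) * t ≡ 1 [MOD n] := by
    rcases Nat.lt_or_ge 1 n with h1 | h1
    · obtain ⟨t, -, h⟩ := Nat.exists_mul_mod_eq_one_of_coprime
        (Nat.Coprime.pow_left (a - e) hn.symm) h1
      exact ⟨t, by rw [Nat.ModEq, h, Nat.mod_eq_of_lt h1]⟩
    · have : n = 1 := by omega
      subst this
      exact ⟨0, Nat.modEq_one⟩
  have htc : t.Coprime n := by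
    have h1 : (ℓ ^ (a - e) * t).Coprime n := by
      rw [Nat.Coprime, ht.gcd_eq]
      exact Nat.gcd_one_left _
    exact Nat.Coprime.coprime_mul_left h1
  have hi : ∀ h ∈ n.properDivisors, h * t % n ∈ Finset.Ico 1 n := by
    intro h hh
    rw [Nat.mem_properDivisors] at hh
    rw [Finset.mem_Ico]
    refine ⟨Nat.pos_of_ne_zero fun h0 => ?_, Nat.mod_lt _ hn0⟩
    have h1 : n ∣ h * t := Nat.dvd_of_mod_eq_zero h0
    have h2 : n ∣ h := Nat.Coprime.dvd_of_dvd_mul_right htc.symm h1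
    have h3 : 0 < h := Nat.pos_of_dvd_of_pos hh.1 hn0
    exact absurd (Nat.le_of_dvd h3 h2) (by omega)
  have hinj : Set.InjOn (fun h => h * t % n) (n.properDivisors : Set ℕ) := by
    intro h hh h' hh' heq
    have h1 : h * t ≡ h' * t [MOD n] := heq
    have h2 : h ≡ h' [MOD n] := Nat.ModEq.cancel_right_of_coprime htc.symm h1
    have h3 := (Nat.mem_properDivisors.1 hh).2
    have h4 := (Nat.mem_properDivisors.1 hh').2
    rw [Nat.ModEq, Nat.mod_eq_of_lt h3, Nat.mod_eq_of_lt h4] at h2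
    exact h2
  have hmod : ∀ h ∈ n.properDivisors, m (ℓ ^ e * h) = m ((h * t % n) * ℓ ^ a) := by
    intro h hh
    have hh' := (Nat.mem_properDivisors.1 hh).1
    have hlt := (Nat.mem_properDivisors.1 hh).2
    have hhd : h ∈ n.divisors := Nat.mem_divisors.2 ⟨hh', hn0.ne'⟩
    refine hred _ (hg h hhd) _ (hbase _ (hi h hh)) ?_ ?_ (dvd_mul_right _ _)
    · have h1 : (h * t % n) * ℓ ^ a ≡ h * t * ℓ ^ a [MOD n] := (Nat.mod_modEq _ _).mul_right _
      have h2 : h * t * ℓ ^ a = ℓ ^ e * h * (ℓ ^ (a - e) * t) := by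
        have h3 : ℓ ^ a = ℓ ^ e * ℓ ^ (a - e) := by rw [← pow_add]; congr 1; omega
        rw [h3]
        ring
      rw [h2] at h1
      have h3 := ht.mul_left (ℓ ^ e * h)
      rw [mul_one] at h3
      exact (h1.trans h3).symm
    · intro hdvd
      have h1 : n ∣ h := Nat.Coprime.dvd_of_dvd_mul_left (Nat.Coprime.pow_right e hn) hdvd
      exact absurd (Nat.le_of_dvd (Nat.pos_of_dvd_of_pos hh' hn0) h1) (by omega)
  rw [Finset.sum_congr rfl hmod]
  rw [← Finset.sum_image (f := fun i => m (i * ℓ ^ a)) hinj]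
  refine Finset.sum_le_sum_of_subset ?_
  intro i hi'
  obtain ⟨h, hh, rfl⟩ := Finset.mem_image.1 hi'
  exact hi h hh

open Polynomial in
/-- **The orders of vanishing.** -/
theorem order_eq {ℓ a n : ℕ} (hℓ : ℓ.Prime) (hn0 : 0 < n)
    (F : Type) [Field F] [NumberField F] {χ : MulChar k (𝓞 F)} (hχ : orderOf χ = n * ℓ ^ a)
    (V : ℕ → Polynomial (𝓞 F)) (hV0 : ∀ j ∈ Finset.Ico 1 (n * ℓ ^ a), (V j).coeff 0 = 1)
    {c : ℕ} {v : kˣ} (hv : ∀ j ∈ Finset.Ico 1 (n * ℓ ^ a), ¬ ℓ ^ a ∣ j →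
        ((V j).map (algebraMap (𝓞 F) F)).eval
          (algebraMap (𝓞 F) F ((χ ^ j) ((v : k) ^ n)) * ((Nat.card k : F) ^ c)⁻¹) ≠ 0)
    {P Pv : ℤ[X]} (hP : P.map (algebraMap ℤ (𝓞 F)) = ∏ i ∈ Finset.Ico 1 n, V (i * ℓ ^ a))
    (hPv : Pv.map (algebraMap ℤ (𝓞 F)) = ∏ j ∈ Finset.Ico 1 (n * ℓ ^ a),
      (V j).comp (C ((χ ^ j) ((v : k) ^ n)) * X)) :
    ordAt (Nat.card k) c Pv = ordAt (Nat.card k) c P := by
  classical
  have hpa : 0 < ℓ ^ a := pow_pos hℓ.pos a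
  have hN : 0 < n * ℓ ^ a := Nat.mul_pos hn0 hpa
  set φ := algebraMap (𝓞 F) F with hφd
  have hφ : Function.Injective φ := RingOfIntegers.coe_injective
  have hv0 : ((v : k) ^ n) ≠ 0 := pow_ne_zero n v.ne_zero
  have hbase : ∀ i ∈ Finset.Ico 1 n, i * ℓ ^ a ∈ Finset.Ico 1 (n * ℓ ^ a) := by
    intro i hi
    rw [Finset.mem_Ico] at hi ⊢
    exact ⟨Nat.mul_pos hi.1 hpa, Nat.mul_lt_mul_of_pos_right hi.2 hpa⟩
  have hm : ∀ G : ℤ[X], ordAt (Nat.card k) c G =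
      ((G.map (algebraMap ℤ (𝓞 F))).map φ).rootMultiplicity (((Nat.card k : F) ^ c)⁻¹) := by
    intro G
    unfold ordAt
    have h1 := Polynomial.eq_rootMultiplicity_map (p := G.map (Int.castRingHom ℚ))
      (algebraMap ℚ F).injective (((Nat.card k : ℚ) ^ c)⁻¹)
    rw [h1, map_inv₀, map_pow, map_natCast, Polynomial.map_map, Polynomial.map_map]
    congr 2
    exact RingHom.ext_int _ _
  have hval0 : ∀ j ∈ Finset.Ico 1 (n * ℓ ^ a), φ ((χ ^ j) ((v : k) ^ n)) ≠ 0 := by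
    intro j _
    have h1 : IsUnit ((χ ^ j) ((v : k) ^ n)) := (isUnit_iff_ne_zero.2 hv0).map (χ ^ j)
    exact (h1.map φ).ne_zero
  have hQ0 : ∀ j ∈ Finset.Ico 1 (n * ℓ ^ a), (V j).map φ ≠ 0 := by
    intro j hj
    rw [Polynomial.map_ne_zero_iff hφ]
    intro h
    have h1 := hV0 j hj
    rw [h, Polynomial.coeff_zero] at h1
    exact zero_ne_one h1
  have hcomp : ∀ j ∈ Finset.Ico 1 (n * ℓ ^ a),
      (((V j).comp (C ((χ ^ j) ((v : k) ^ n)) * X)).map φ).rootMultiplicity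
        (((Nat.card k : F) ^ c)⁻¹) = ((V j).map φ).rootMultiplicity
          (φ ((χ ^ j) ((v : k) ^ n)) * ((Nat.card k : F) ^ c)⁻¹) := by
    intro j hj
    have h1 : ((V j).comp (C ((χ ^ j) ((v : k) ^ n)) * X)).map φ =
        ((V j).map φ).comp (C (φ ((χ ^ j) ((v : k) ^ n))) * X + C 0) := by
      rw [Polynomial.map_comp, Polynomial.map_mul, Polynomial.map_C, Polynomial.map_X, C_0,
        add_zero]
    rw [h1, rootMultiplicity_comp_C_mul_X_add_C _ _ _ _ (hval0 j hj).isUnit, add_zero]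
  have hcomp0 : ∀ j ∈ Finset.Ico 1 (n * ℓ ^ a),
      ((V j).comp (C ((χ ^ j) ((v : k) ^ n)) * X)).map φ ≠ 0 := by
    intro j hj h
    rw [Polynomial.map_eq_zero_iff hφ] at h
    have h1 : ((V j).comp (C ((χ ^ j) ((v : k) ^ n)) * X)).coeff 0 = 1 := by
      rw [Polynomial.comp_C_mul_X_coeff, pow_zero, mul_one, hV0 j hj]
    rw [h, Polynomial.coeff_zero] at h1
    exact zero_ne_one h1
  rw [hm, hm, hPv, hP, Polynomial.map_prod, Polynomial.map_prod,
    Pool.Agent.W343.BSD.rm_prod _ _ _ hcomp0,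
    Pool.Agent.W343.BSD.rm_prod _ _ _ fun i hi => hQ0 _ (hbase i hi)]
  -- the characters outside the base are not exceptional
  have hsplit : ∀ j ∈ Finset.Ico 1 (n * ℓ ^ a), ¬ ℓ ^ a ∣ j →
      (((V j).comp (C ((χ ^ j) ((v : k) ^ n)) * X)).map φ).rootMultiplicity
        (((Nat.card k : F) ^ c)⁻¹) = 0 := by
    intro j hj hja
    rw [hcomp j hj]
    apply Polynomial.rootMultiplicity_eq_zero
    exact hv j hj hja
  have himg : (Finset.Ico 1 (n * ℓ ^ a)).filter (fun j => ℓ ^ a ∣ j) =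
      (Finset.Ico 1 n).image (fun i => i * ℓ ^ a) := by
    ext j
    simp only [Finset.mem_filter, Finset.mem_image]
    constructor
    · rintro ⟨hj, i, rfl⟩
      have hj' := Finset.mem_Ico.1 hj
      refine ⟨i, ?_, mul_comm _ _⟩
      rw [Finset.mem_Ico]
      refine ⟨Nat.pos_of_ne_zero fun h => ?_, ?_⟩
      · rw [h, mul_zero] at hj'
        omega
      · have h1 : ℓ ^ a * i < ℓ ^ a * n := by rw [mul_comm (ℓ ^ a) n]; exact hj'.2
        exact Nat.lt_of_mul_lt_mul_left h1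
    · rintro ⟨i, hi, rfl⟩
      exact ⟨hbase i hi, dvd_mul_left _ _⟩
  rw [← Finset.sum_filter_add_sum_filter_not (Finset.Ico 1 (n * ℓ ^ a)) (fun j => ℓ ^ a ∣ j),
    Finset.sum_eq_zero (s := (Finset.Ico 1 (n * ℓ ^ a)).filter fun j => ¬ ℓ ^ a ∣ j)
      (fun j hj => hsplit j (Finset.mem_filter.1 hj).1 (Finset.mem_filter.1 hj).2), add_zero,
    himg, Finset.sum_image (fun i _ i' _ h => Nat.eq_of_mul_eq_mul_right hpa h)]
  refine Finset.sum_congr rfl fun i hi => ?_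
  rw [hcomp _ (hbase i hi)]
  have h1 : (χ ^ (i * ℓ ^ a)) ((v : k) ^ n) = 1 := by
    rw [map_pow, ← MulChar.pow_apply' _ hn0.ne', ← pow_mul,
      show i * ℓ ^ a * n = n * ℓ ^ a * i by ring, pow_mul, ← hχ, pow_orderOf_eq_one, one_pow,
      MulChar.one_apply v.isUnit]
  rw [h1, map_one, one_mul]

end engine

end Pool.Agent.H313.CC
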