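import Pool.Agent.H313.CC.Abs

/-!
Coverings of a variety with a family of local polynomials (the fibres of a family of varieties).
-/

set_option autoImplicit false
set_option linter.all false
set_option maxHeartbeats 4000000

open Module NumberField Polynomial

namespace Pool.Agent.H313.CC

open Pool.Agent.W313.Hyp Pool.Agent.W343.BSD
open Pool.Agent.TH639.SG (eq_one_of_pow red_char' muL muL_eq)
open Pool.Agent.TH639.SC (exists_hom one_sub_ne one_sub_mod)
open Pool.Agent.TH639.CK (count_gen exists_lift card_dvd)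

section loc

variable {ι k : Type} [Field k] {A : Type} [CommRing A]

/-- The local factor: `Pl (a T ^ d)`. -/
noncomputable def lf {A : Type} [CommRing A] (Pl : ℤ[X]) (a : A) (d : ℕ) : PowerSeries A :=
  (((Pl.map (algebraMap ℤ A)).comp (C a * X ^ d) : A[X]) : PowerSeries A)

/-- The product of the `Pl z (χ(nv z) T ^ (d z))`. -/
noncomputable def cP (d : ι → ℕ) (Pl : ι → ℤ[X]) (nv : ι → k) (χ : MulChar k A) : PowerSeries A :=
  eulerProd d (fun z => lf (Pl z) (χ (nv z)) (d z))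

/-- The product of the `Pl z (T ^ (d z))` for the `z` with `nv z ≠ 0`. -/
noncomputable def zP (d : ι → ℕ) (Pl : ι → ℤ[X]) (nv : ι → k) : PowerSeries ℤ :=
  eulerProd (fun z : {z // nv z ≠ 0} => d z.1) (fun z => lf (Pl z.1) 1 (d z.1))

variable {d : ι → ℕ} {Pl : ι → ℤ[X]} {nv : ι → k}

theorem lf_const {P : ℤ[X]} (hP : P.coeff 0 = 1) (a : A) {n : ℕ} (hn : 0 < n) :
    PowerSeries.constantCoeff (lf P a n) = 1 := by
  unfold lf
  rw [← PowerSeries.coeff_zero_eq_constantCoeff_apply, Polynomial.coeff_coe,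
    Polynomial.coeff_zero_eq_eval_zero, Polynomial.eval_comp, Polynomial.eval_mul,
    Polynomial.eval_C, Polynomial.eval_pow, Polynomial.eval_X, zero_pow hn.ne', mul_zero,
    ← Polynomial.coeff_zero_eq_eval_zero, Polynomial.coeff_map, hP, map_one]

theorem lf_mod {P : ℤ[X]} (hP : P.coeff 0 = 1) (a : A) (n : ℕ) :
    (PowerSeries.X : PowerSeries A) ^ n ∣ lf P a n - 1 := by
  have h1 : (X : A[X]) ^ n ∣ (P.map (algebraMap ℤ A)).comp (C a * X ^ n) - 1 := by
    have h2 : P.map (algebraMap ℤ A) = X * (P.map (algebraMap ℤ A)).divX + 1 := by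
      have h3 := Polynomial.X_mul_divX_add (P.map (algebraMap ℤ A))
      rw [Polynomial.coeff_map, hP, map_one, C_1] at h3
      exact h3.symm
    rw [h2, Polynomial.add_comp, Polynomial.mul_comp, Polynomial.X_comp, Polynomial.one_comp,
      add_sub_cancel_right, mul_assoc, mul_left_comm]
    exact dvd_mul_right _ _
  obtain ⟨g, hg⟩ := h1
  refine ⟨(g : PowerSeries A), ?_⟩
  have h4 := congrArg (fun p : A[X] => (p : PowerSeries A)) hg
  simp only [Polynomial.coe_sub, Polynomial.coe_mul, Polynomial.coe_pow, Polynomial.coe_X,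
    Polynomial.coe_one] at h4
  exact h4

theorem lf_map {B : Type} [CommRing B] (σ : A →+* B) (P : ℤ[X]) (a : A) (n : ℕ) :
    PowerSeries.map σ (lf P a n) = lf P (σ a) n := by
  unfold lf
  rw [← Polynomial.polynomial_map_coe, Polynomial.map_comp, Polynomial.map_mul, Polynomial.map_pow,
    Polynomial.map_X, Polynomial.map_C, Polynomial.map_map]
  congr 3
  exact RingHom.ext_int _ _

theorem lf_zero {P : ℤ[X]} (hP : P.coeff 0 = 1) (n : ℕ) : lf P (0 : A) n = 1 := by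
  unfold lf
  rw [C_0, zero_mul, Polynomial.comp_zero, ← Polynomial.coeff_zero_eq_eval_zero,
    Polynomial.coeff_map, hP, map_one, C_1, Polynomial.coe_one]

theorem lf_rescale (b : A) (P : ℤ[X]) (a : A) (n : ℕ) :
    PowerSeries.rescale b (lf P a n) = lf P (b ^ n * a) n := by
  unfold lf
  have h1 : PowerSeries.rescale b (((P.map (algebraMap ℤ A)).comp (C a * X ^ n) : A[X]) :
      PowerSeries A) = ((((P.map (algebraMap ℤ A)).comp (C a * X ^ n)).comp (C b * X) : A[X]) :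
        PowerSeries A) := by
    ext i
    rw [PowerSeries.coeff_rescale, Polynomial.coeff_coe, Polynomial.coeff_coe,
      Polynomial.comp_C_mul_X_coeff, mul_comm]
  rw [h1, Polynomial.comp_assoc]
  congr 2
  rw [Polynomial.mul_comp, Polynomial.C_comp, Polynomial.pow_comp, Polynomial.X_comp, mul_pow,
    ← C_pow, ← mul_assoc, ← C_mul, mul_comm a]

theorem cP_unit (hfin : ∀ n, {z | d z ≤ n}.Finite) (hpos : ∀ z, 0 < d z) (χ : MulChar k A) :
    PowerSeries.constantCoeff (cP d Pl nv χ) = 1 := one_of_pos hfin hpos _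

theorem cP_congr (hfin : ∀ n, {z | d z ≤ n}.Finite) {R : Type} [CommRing R] (ρ : A →+* R)
    {χ χ' : MulChar k A} (h : ∀ u : k, u ≠ 0 → ρ (χ u) = ρ (χ' u)) :
    PowerSeries.map ρ (cP d Pl nv χ) = PowerSeries.map ρ (cP d Pl nv χ') := by
  show PowerSeries.map ρ (eulerProd _ _) = PowerSeries.map ρ (eulerProd _ _)
  rw [map_eulerProd hfin, map_eulerProd hfin]
  congr 1
  funext z
  rw [lf_map, lf_map]
  by_cases hz : nv z = 0
  · rw [hz, MulChar.map_zero, MulChar.map_zero]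
  · rw [h _ hz]

theorem cP_map (hfin : ∀ n, {z | d z ≤ n}.Finite) {B : Type} [CommRing B] (σ : A →+* B)
    {χ : MulChar k A} {χ' : MulChar k B} (h : ∀ u : k, σ (χ u) = χ' u) :
    PowerSeries.map σ (cP d Pl nv χ) = cP d Pl nv χ' := by
  show PowerSeries.map σ (eulerProd _ _) = eulerProd _ _
  rw [map_eulerProd hfin]
  congr 1
  funext z
  rw [lf_map, h]

theorem cP_twist (hfin : ∀ n, {z | d z ≤ n}.Finite) (χ : MulChar k A) (e : k) {nv' : ι → k}
    (h : ∀ z, nv' z = e ^ d z * nv z) :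
    cP d Pl nv' χ = PowerSeries.rescale (χ e) (cP d Pl nv χ) := by
  show _ = PowerSeries.rescale (χ e) (eulerProd _ _)
  rw [Pool.Agent.TH639.SN.rescale_eulerProd hfin]
  show eulerProd _ _ = _
  congr 1
  funext z
  rw [lf_rescale, h, map_mul, map_pow]

open Classical in
theorem red_zP {R : Type} [CommRing R] (hfin : ∀ n, {z | d z ≤ n}.Finite)
    (hPl : ∀ z, (Pl z).coeff 0 = 1) :
    PowerSeries.map (Int.castRingHom R) (zP d Pl nv) =
      eulerProd d (fun z => if nv z = 0 then 1 else lf (Pl z) 1 (d z)) := by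
  have h1 : zP d Pl nv = eulerProd d (fun z => if nv z ≠ 0 then lf (Pl z) 1 (d z) else 1) :=
    eulerProd_subtype (fun z => nv z ≠ 0) hfin
      (f := fun z => (lf (Pl z) 1 (d z) : PowerSeries ℤ)) (fun z _ => lf_mod (hPl z) _ _)
  rw [h1, map_eulerProd hfin]
  congr 1
  funext z
  by_cases h : nv z = 0
  · rw [if_neg (by simpa using h), if_pos h, map_one]
  · rw [if_pos h, if_neg h, lf_map, map_one]

/-- the product of a character which is trivial modulo `ℓ` -/
theorem cP_zP {R : Type} [CommRing R] (hfin : ∀ n, {z | d z ≤ n}.Finite)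
    (hPl : ∀ z, (Pl z).coeff 0 = 1) (ρ : A →+* R)
    {χ : MulChar k A} (hρ : ∀ u : k, u ≠ 0 → ρ (χ u) = 1) :
    PowerSeries.map ρ (cP d Pl nv χ) = PowerSeries.map (Int.castRingHom R) (zP d Pl nv) := by
  classical
  rw [red_zP hfin hPl]
  show PowerSeries.map ρ (eulerProd _ _) = _
  rw [map_eulerProd hfin]
  congr 1
  funext z
  rw [lf_map]
  split_ifs with h
  · rw [h, MulChar.map_zero, map_zero, lf_zero (hPl z)]
  · rw [hρ _ h]

/-- the family of the products over the closed points -/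
theorem famP (hfin : ∀ n, {z | d z ≤ n}.Finite) (hpos : ∀ z, 0 < d z)
    (hPl : ∀ z, (Pl z).coeff 0 = 1) (m : ℕ)
    (K : Type) [Field K] [NumberField K] {L₁ L₂ : ℤ[X]}
    (hL : dE m (zP d Pl nv) * (L₂ : PowerSeries ℤ) = (L₁ : PowerSeries ℤ)) :
    Fam K L₁ L₂ (fun χ : MulChar k (𝓞 K) => dE m (cP d Pl nv χ)) where
  unit ψ := dE_unit (cP_unit hfin hpos ψ)
  congr R _ ρ ψ ψ' h := by
    have h1 := cP_unit hfin hpos (Pl := Pl) (nv := nv) ψ
    have h2 := cP_unit hfin hpos (Pl := Pl) (nv := nv) ψ'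
    show PowerSeries.map ρ (dE m _) = PowerSeries.map ρ (dE m _)
    rw [dE_hom h1 _ (map_unit ρ h1), dE_hom h2 _ (map_unit ρ h2), cP_congr hfin ρ h]
  map σ ψ ψ' h := by
    have h1 := cP_unit hfin hpos (Pl := Pl) (nv := nv) ψ
    show PowerSeries.map σ (dE m _) = dE m _
    rw [dE_hom h1 _ (map_unit σ h1), cP_map hfin σ h]
  ident R _ ρ ψ h := by
    have h1 := cP_unit hfin hpos (Pl := Pl) (nv := nv) ψ
    have h2 : PowerSeries.constantCoeff (zP d Pl nv) = 1 :=
      one_of_pos (ι := {z // nv z ≠ 0}) (d := fun z => d z.1)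
        (fun n => (hfin n).preimage (Subtype.val_injective.injOn)) (fun z => hpos z.1) _
    show PowerSeries.map ρ (dE m _) * _ = _
    rw [dE_hom h1 _ (map_unit ρ h1), cP_zP hfin hPl ρ h,
      ← dE_hom h2 (PowerSeries.map (Int.castRingHom R)) (map_unit _ h2),
      Polynomial.polynomial_map_coe, Polynomial.polynomial_map_coe, ← map_mul, hL]

/-- the twisted family -/
theorem dP_twist (hfin : ∀ n, {z | d z ≤ n}.Finite) (hpos : ∀ z, 0 < d z) (m : ℕ)
    (χ : MulChar k A) (e : k) {nv' : ι → k} (h : ∀ z, nv' z = e ^ d z * nv z) :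
    dE m (cP d Pl nv' χ) = PowerSeries.rescale (χ e) (dE m (cP d Pl nv χ)) := by
  have h1 := cP_unit hfin hpos (Pl := Pl) (nv := nv) χ
  rw [cP_twist hfin χ e h, dE_hom h1 _ (rescale_unit _ h1)]

theorem isTn_one (P : ℤ[X]) : IsTn ({1} : Multiset A) P P := by
  unfold IsTn tn
  rw [Multiset.map_singleton, Multiset.prod_singleton, C_1, one_mul, Polynomial.comp_X]

/-- **Coverings, with local polynomials.** -/
theorem tower_loc [Finite k] {ℓ a n : ℕ} (hℓ : ℓ.Prime) (ha : a ≠ 0) (hn0 : 0 < n)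
    (hn : n.Coprime ℓ) (K : Type) [Field K] [NumberField K] [IsGalois ℚ K]
    {χ : MulChar k (𝓞 K)} (hχ : orderOf χ = n * ℓ ^ a) (m : ℕ)
    (hfin : ∀ n, {z | d z ≤ n}.Finite) (hpos : ∀ z, 0 < d z) (hPl : ∀ z, (Pl z).coeff 0 = 1)
    {L₁ L₂ : ℤ[X]} (hL₂ : L₂.coeff 0 = 1)
    (hL : dE m (zP d Pl nv) * (L₂ : PowerSeries ℤ) = (L₁ : PowerSeries ℤ))
    {P : ℤ[X]} (hP : dE m (∏ i ∈ Finset.Ico 1 n, cP d Pl nv (χ ^ (i * ℓ ^ a))) =
      PowerSeries.map (algebraMap ℤ (𝓞 K)) (P : PowerSeries ℤ))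
    (hpoly : ∀ j ∈ Finset.Ico 1 (n * ℓ ^ a), ∃ Q : (𝓞 K)[X],
      dE m (cP d Pl nv (χ ^ j)) = (Q : PowerSeries (𝓞 K))) (c : ℕ) :
    ∃ T : Finset kˣ, ℓ ^ a * T.card ≤
        (Nat.card k - 1) * ((∑ i ∈ Finset.range a, ℓ ^ i) * (muL ℓ L₁ - muL ℓ L₂ + muL ℓ P)) ∧
      ∀ v ∉ T, ∀ nv' : ι → k, (∀ z, nv' z = ((v : k) ^ n) ^ d z * nv z) → ∀ Pv : ℤ[X],
        dE m (∏ j ∈ Finset.Ico 1 (n * ℓ ^ a), cP d Pl nv' (χ ^ j)) =
          PowerSeries.map (algebraMap ℤ (𝓞 K)) (Pv : PowerSeries ℤ) →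
        ordAt (Nat.card k) c Pv = ordAt (Nat.card k) c P := by
  obtain ⟨T, hT, hTv⟩ := tower_abs hℓ ha hn0 hn K hχ {1}
    (fun σ => by rw [Multiset.map_singleton, map_one]) hL₂ (famP hfin hpos hPl m K hL)
    (isTn_one L₁) (isTn_one L₂)
    (by rw [dE_prod _ _ fun i _ => cP_unit hfin hpos _]; exact hP) (isTn_one P) hpoly c
  refine ⟨T, hT, fun v hv nv' hnv Pv hPv => hTv v hv Pv Pv ?_ (isTn_one Pv)⟩
  rw [← hPv, ← dE_prod _ _ fun j _ => cP_unit hfin hpos _]
  exact Finset.prod_congr rfl fun j _ => (dP_twist hfin hpos m (χ ^ j) _ hnv).symm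

end loc

end Pool.Agent.H313.CC
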