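import Pool.Agent.H313.CC.Engine

/-!
Products of a covering with a fixed variety: the eigenvalues of Frobenius on the tensor product with a
fixed group.
-/

set_option autoImplicit false
set_option linter.all false
set_option maxHeartbeats 4000000

open Module NumberField Polynomial

namespace Pool.Agent.H313.CC

open Pool.Agent.W313.Hyp Pool.Agent.W343.BSD
open Pool.Agent.TH639.SG (eq_one_of_pow red_char' muL muL_eq)
open Pool.Agent.TH639.SC (exists_hom one_sub_ne one_sub_mod)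
open Pool.Agent.TH639.CK (count_gen exists_lift card_dvd)

section tn

variable {A : Type} [CommRing A]

/-- The product of the `Q(b T)`, `b ∈ B`. -/
noncomputable def tn (B : Multiset A) (Q : A[X]) : A[X] := (B.map fun b => Q.comp (C b * X)).prod

theorem tn_map {S : Type} [CommRing S] (ρ : A →+* S) (B : Multiset A) (Q : A[X]) :
    (tn B Q).map ρ = tn (B.map ρ) (Q.map ρ) := by
  unfold tn
  rw [Polynomial.map_multiset_prod, Multiset.map_map, Multiset.map_map]
  congr 1
  refine Multiset.map_congr rfl fun b _ => ?_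
  simp only [Function.comp_apply]
  rw [Polynomial.map_comp, Polynomial.map_mul, Polynomial.map_C, Polynomial.map_X]

theorem tn_mul (B : Multiset A) (Q Q' : A[X]) : tn B (Q * Q') = tn B Q * tn B Q' := by
  unfold tn
  rw [← Multiset.prod_map_mul]
  congr 1
  refine Multiset.map_congr rfl fun b _ => ?_
  rw [Polynomial.mul_comp]

theorem tn_one (B : Multiset A) : tn B (1 : A[X]) = 1 := by
  unfold tn
  refine Multiset.prod_eq_one fun x hx => ?_
  obtain ⟨b, -, rfl⟩ := Multiset.mem_map.1 hx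
  exact Polynomial.one_comp

theorem tn_prod (B : Multiset A) {ι : Type} (s : Finset ι) (f : ι → A[X]) :
    tn B (∏ i ∈ s, f i) = ∏ i ∈ s, tn B (f i) := by
  classical
  induction s using Finset.induction_on with
  | empty => rw [Finset.prod_empty, Finset.prod_empty, tn_one]
  | insert i s hi ih => rw [Finset.prod_insert hi, Finset.prod_insert hi, tn_mul, ih]

theorem tn_coeff_zero (B : Multiset A) {Q : A[X]} (h : Q.coeff 0 = 1) : (tn B Q).coeff 0 = 1 := by
  unfold tn
  rw [Polynomial.coeff_zero_multiset_prod, Multiset.map_map]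
  refine Multiset.prod_eq_one fun x hx => ?_
  obtain ⟨b, -, rfl⟩ := Multiset.mem_map.1 hx
  simp only [Function.comp_apply]
  rw [Polynomial.comp_C_mul_X_coeff, pow_zero, mul_one, h]

theorem tn_comp (B : Multiset A) (Q : A[X]) (x : A) :
    tn B (Q.comp (C x * X)) = (tn B Q).comp (C x * X) := by
  unfold tn
  rw [Polynomial.multiset_prod_comp, Multiset.map_map]
  congr 1
  refine Multiset.map_congr rfl fun b _ => ?_
  simp only [Function.comp_apply]
  rw [Polynomial.comp_assoc, Polynomial.comp_assoc, Polynomial.mul_comp, Polynomial.mul_comp,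
    Polynomial.C_comp, Polynomial.C_comp, Polynomial.X_comp, Polynomial.X_comp]
  congr 1
  ring

/-- `W(T)` is the product of the `P(b T)`, `b ∈ B`. -/
def IsTn (B : Multiset A) (P W : ℤ[X]) : Prop :=
  W.map (algebraMap ℤ A) = tn B (P.map (algebraMap ℤ A))

/-- the multiset of the zeros of a polynomial over the integers is stable -/
theorem stable [IsDomain A] {B : Multiset A} {R : ℤ[X]}
    (hR : R.map (algebraMap ℤ A) = (B.map fun b => X - C b).prod) (σ : A →+* A) :
    B.map σ = B := by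
  have h1 := congrArg (Polynomial.map σ) hR
  rw [Polynomial.map_map, Polynomial.map_multiset_prod, Multiset.map_map] at h1
  have h2 : σ.comp (algebraMap ℤ A) = algebraMap ℤ A := RingHom.ext_int _ _
  rw [h2, hR] at h1
  have h3 : (B.map ((Polynomial.map σ) ∘ fun b => X - C b)).prod =
      ((B.map σ).map fun b => X - C b).prod := by
    rw [Multiset.map_map]
    congr 1
    refine Multiset.map_congr rfl fun b _ => ?_
    simp only [Function.comp_apply]
    rw [Polynomial.map_sub, Polynomial.map_X, Polynomial.map_C]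
  rw [h3] at h1
  have h4 := congrArg Polynomial.roots h1
  rw [Polynomial.roots_multiset_prod_X_sub_C, Polynomial.roots_multiset_prod_X_sub_C] at h4
  exact h4.symm

end tn

section tower

variable {k : Type} [Field k] [Finite k]

/-- **Coverings times a fixed variety.** -/
theorem tower_tensor {ℓ a n : ℕ} (hℓ : ℓ.Prime) (ha : a ≠ 0) (hn0 : 0 < n) (hn : n.Coprime ℓ)
    (K : Type) [Field K] [NumberField K] [IsGalois ℚ K]
    {χ : MulChar k (𝓞 K)} (hχ : orderOf χ = n * ℓ ^ a) {ι : Type} {d : ι → ℕ} {nv : ι → k}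
    (hfin : ∀ n, {z | d z ≤ n}.Finite) (hpos : ∀ z, 0 < d z)
    (B : Multiset (𝓞 K)) (hB : ∀ σ : 𝓞 K →+* 𝓞 K, B.map σ = B)
    {L₁ L₂ : ℤ[X]} (hL₂ : L₂.coeff 0 = 1)
    (hL : PowerSeries.map (Int.castRingHom (ZMod ℓ)) (zB d nv * (L₁ : PowerSeries ℤ)) =
      PowerSeries.map (Int.castRingHom (ZMod ℓ)) (zA d * (L₂ : PowerSeries ℤ)))
    {W₁ W₂ : ℤ[X]} (hW₁ : IsTn B L₁ W₁) (hW₂ : IsTn B L₂ W₂)
    {P W : ℤ[X]} (hP : ∏ i ∈ Finset.Ico 1 n, cE d nv (χ ^ (i * ℓ ^ a)) =
      PowerSeries.map (algebraMap ℤ (𝓞 K)) (P : PowerSeries ℤ)) (hW : IsTn B P W)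
    (hpoly : ∀ j ∈ Finset.Ico 1 (n * ℓ ^ a), ∃ Q : (𝓞 K)[X],
      cE d nv (χ ^ j) = (Q : PowerSeries (𝓞 K))) (c : ℕ) :
    ∃ T : Finset kˣ, ℓ ^ a * T.card ≤
        (Nat.card k - 1) * ((∑ i ∈ Finset.range a, ℓ ^ i) * (muL ℓ W₁ - muL ℓ W₂ + muL ℓ W)) ∧
      ∀ v ∉ T, ∀ nv' : ι → k, (∀ z, nv' z = ((v : k) ^ n) ^ d z * nv z) → ∀ Pv Wv : ℤ[X],
        ∏ j ∈ Finset.Ico 1 (n * ℓ ^ a), cE d nv' (χ ^ j) =
          PowerSeries.map (algebraMap ℤ (𝓞 K)) (Pv : PowerSeries ℤ) → IsTn B Pv Wv →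
        ordAt (Nat.card k) c Wv = ordAt (Nat.card k) c W := by
  classical
  have hFℓ : Fact ℓ.Prime := ⟨hℓ⟩
  have hpa : 0 < ℓ ^ a := pow_pos hℓ.pos a
  have hN : 0 < n * ℓ ^ a := Nat.mul_pos hn0 hpa
  choose! Q hQ using hpoly
  have hd : ℓ ∣ Nat.card k - 1 :=
    ((dvd_pow_self ℓ ha).trans (dvd_mul_left _ _)).trans (card_dvd hχ)
  obtain ⟨R, _, _, ρ, hq⟩ := exists_hom (A := 𝓞 K) hℓ hd
  have hQ0 : ∀ j ∈ Finset.Ico 1 (n * ℓ ^ a), (Q j).coeff 0 = 1 := by
    intro j hj
    have h1 := cE_unit hfin hpos (nv := nv) (χ ^ j)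
    rwa [hQ j hj, ← PowerSeries.coeff_zero_eq_constantCoeff_apply, Polynomial.coeff_coe] at h1
  -- the values of `χ` modulo `ℓ`
  have hχn : ∀ u : k, u ≠ 0 → ρ (χ u) ^ n = 1 := by
    intro u hu
    apply eq_one_of_pow (ℓ := ℓ) (m := a)
    rw [← pow_mul, ← map_pow, ← MulChar.pow_apply' χ hN.ne', ← hχ, pow_orderOf_eq_one,
      MulChar.one_apply (isUnit_iff_ne_zero.2 hu), map_one]
  have hcong : ∀ j j' : ℕ, 0 < j → 0 < j' → j ≡ j' [MOD n] →
      ∀ u : k, u ≠ 0 → ρ ((χ ^ j) u) = ρ ((χ ^ j') u) := by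
    intro j j' hj hj' hjj u hu
    rw [MulChar.pow_apply' χ hj.ne', MulChar.pow_apply' χ hj'.ne', map_pow, map_pow]
    exact pow_eq_pow_of_modEq hjj (hχn u hu)
  have hred : ∀ j ∈ Finset.Ico 1 (n * ℓ ^ a), ∀ j' ∈ Finset.Ico 1 (n * ℓ ^ a),
      j ≡ j' [MOD n] → (Q j).map ρ = (Q j').map ρ := by
    intro j hj j' hj' hjj
    apply Polynomial.coe_injective R
    rw [Polynomial.polynomial_map_coe, Polynomial.polynomial_map_coe, ← hQ j hj, ← hQ j' hj']
    exact cE_congr hfin ρ (hcong j j' (Finset.mem_Ico.1 hj).1 (Finset.mem_Ico.1 hj').1 hjj)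
  set V : ℕ → (𝓞 K)[X] := fun j => tn B (Q j) with hVdef
  have hV0 : ∀ j ∈ Finset.Ico 1 (n * ℓ ^ a), (V j).coeff 0 = 1 := fun j hj =>
    tn_coeff_zero B (hQ0 j hj)
  have hne : ∀ {S : Type} [CommRing S] [Nontrivial S] {f : S[X]}, f.coeff 0 = 1 → f ≠ 0 := by
    intro S _ _ f hf h
    rw [h, Polynomial.coeff_zero] at hf
    exact zero_ne_one hf
  have hVne : ∀ j ∈ Finset.Ico 1 (n * ℓ ^ a), (V j).map ρ ≠ 0 := fun j hj =>
    hne (by rw [Polynomial.coeff_map, hV0 j hj, map_one])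
  have hred' : ∀ {P W : ℤ[X]}, IsTn B P W →
      W.map (Int.castRingHom R) = tn (B.map ρ) (P.map (Int.castRingHom R)) := by
    intro P W h
    have h1 := congrArg (Polynomial.map ρ) h
    rw [tn_map, Polynomial.map_map, Polynomial.map_map] at h1
    have h2 : ρ.comp (algebraMap ℤ (𝓞 K)) = Int.castRingHom R := RingHom.ext_int _ _
    rwa [h2] at h1
  -- the characters of `ℓ`-power order
  have hpow : ∀ j ∈ Finset.Ico 1 (n * ℓ ^ a), n ∣ j →
      ((V j).map ρ).rootMultiplicity 1 = muL ℓ W₁ - muL ℓ W₂ := by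
    intro j hj hnj
    have hj' := Finset.mem_Ico.1 hj
    have hρ : ∀ u : k, u ≠ 0 → ρ ((χ ^ j) u) = 1 := by
      intro u hu
      obtain ⟨b, rfl⟩ := hnj
      rw [MulChar.pow_apply' χ (by omega), map_pow, pow_mul, hχn u hu, one_pow]
    have h5 := identityE hfin ρ hρ (nv := nv)
    have hz : PowerSeries.map (Int.castRingHom R) (zB d nv) ≠ 0 := zB_ne hfin hpos
    have h2 : PowerSeries.map (Int.castRingHom R) (zB d nv) *
        ((L₁.map (Int.castRingHom R) : Polynomial R) : PowerSeries R) =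
        PowerSeries.map (Int.castRingHom R) (zA d) *
        ((L₂.map (Int.castRingHom R) : Polynomial R) : PowerSeries R) := by
      have h3 := congrArg (PowerSeries.map (ZMod.castHom (dvd_refl ℓ) R)) hL
      have h4 : ∀ f : PowerSeries ℤ, PowerSeries.map (ZMod.castHom (dvd_refl ℓ) R)
          (PowerSeries.map (Int.castRingHom (ZMod ℓ)) f) =
          PowerSeries.map (Int.castRingHom R) f := by
        intro f
        ext i
        simp only [PowerSeries.coeff_map]
        exact RingHom.congr_fun (RingHom.ext_int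
          ((ZMod.castHom (dvd_refl ℓ) R).comp (Int.castRingHom (ZMod ℓ))) (Int.castRingHom R)) _
      rw [h4, h4, map_mul, map_mul, ← Polynomial.polynomial_map_coe,
        ← Polynomial.polynomial_map_coe] at h3
      exact h3
    have h6 : (Q j).map ρ * L₂.map (Int.castRingHom R) = L₁.map (Int.castRingHom R) := by
      apply Polynomial.coe_injective R
      rw [Polynomial.coe_mul, Polynomial.polynomial_map_coe, ← hQ j hj]
      apply mul_left_cancel₀ hz
      rw [h2, ← h5]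
      ring
    have h7 : (V j).map ρ * W₂.map (Int.castRingHom R) = W₁.map (Int.castRingHom R) := by
      rw [hred' hW₁, hred' hW₂, hVdef]
      simp only
      rw [tn_map, ← tn_mul, h6]
    have hW₂' : W₂.map (Int.castRingHom R) ≠ 0 := by
      rw [hred' hW₂]
      exact hne (tn_coeff_zero _ (by rw [Polynomial.coeff_map, hL₂, map_one]))
    have h8 : (W₁.map (Int.castRingHom R)).rootMultiplicity 1 =
        ((V j).map ρ).rootMultiplicity 1 + (W₂.map (Int.castRingHom R)).rootMultiplicity 1 := by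
      rw [← h7, Polynomial.rootMultiplicity_mul (mul_ne_zero (hVne j hj) hW₂')]
    rw [muL_eq, muL_eq] at h8
    omega
  -- the characters of order dividing `n`
  have hbase : ∀ i ∈ Finset.Ico 1 n, i * ℓ ^ a ∈ Finset.Ico 1 (n * ℓ ^ a) := by
    intro i hi
    rw [Finset.mem_Ico] at hi ⊢
    exact ⟨Nat.mul_pos hi.1 hpa, Nat.mul_lt_mul_of_pos_right hi.2 hpa⟩
  have hPm : P.map (algebraMap ℤ (𝓞 K)) = ∏ i ∈ Finset.Ico 1 n, Q (i * ℓ ^ a) := by
    apply Polynomial.coe_injective (𝓞 K)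
    rw [Polynomial.polynomial_map_coe, ← hP, Pool.Agent.W343.BSD.coe_prod']
    exact Finset.prod_congr rfl fun i hi => hQ _ (hbase i hi)
  have hWm : W.map (algebraMap ℤ (𝓞 K)) = ∏ i ∈ Finset.Ico 1 n, V (i * ℓ ^ a) := by
    rw [show W.map (algebraMap ℤ (𝓞 K)) = tn B (P.map (algebraMap ℤ (𝓞 K))) from hW, hPm, tn_prod]
  have hsum0 : ∑ i ∈ Finset.Ico 1 n, ((V (i * ℓ ^ a)).map ρ).rootMultiplicity 1 = muL ℓ W := by
    have h1 := congrArg (Polynomial.map ρ) hWm
    rw [Polynomial.map_map, Polynomial.map_prod] at h1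
    have h2 : ρ.comp (algebraMap ℤ (𝓞 K)) = Int.castRingHom R := RingHom.ext_int _ _
    rw [h2] at h1
    rw [← muL_eq (R := R) W, h1, rm_prod 1 _ _ fun i hi => hVne _ (hbase i hi)]
  have hgal : ∀ σ : 𝓞 K →+* 𝓞 K, ∀ j ∈ Finset.Ico 1 (n * ℓ ^ a),
      ∀ g ∈ Finset.Ico 1 (n * ℓ ^ a), (∀ x : k, σ ((χ ^ j) x) = (χ ^ g) x) →
        (V j).map σ = V g := by
    intro σ j hj g hg hval
    have h1 : (Q j).map σ = Q g := by
      apply Polynomial.coe_injective (𝓞 K)
      rw [Polynomial.polynomial_map_coe, ← hQ j hj, cE_map hfin σ hval, hQ g hg]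
    rw [hVdef]
    simp only
    rw [tn_map, hB, h1]
  have hgm : ∀ e ∈ Finset.range a, ℓ ^ e * n ∈ Finset.Ico 1 (n * ℓ ^ a) := by
    intro e he
    rw [Finset.mem_range] at he
    rw [Finset.mem_Ico]
    refine ⟨Nat.mul_pos (pow_pos hℓ.pos e) hn0, ?_⟩
    calc ℓ ^ e * n = n * ℓ ^ e := mul_comm _ _
      _ < n * ℓ ^ a := Nat.mul_lt_mul_of_pos_left (Nat.pow_lt_pow_right hℓ.one_lt he) hn0
  obtain ⟨T, hT, hTv⟩ := engine hℓ ha hn0 hn K hχ ρ hq V
    (fun _ => muL ℓ W₁ - muL ℓ W₂ + muL ℓ W) hVne hgal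
    (fun e he => level_bound hℓ ha hn0 hn (fun j => ((V j).map ρ).rootMultiplicity 1)
      (Finset.mem_range.1 he) (hpow _ (hgm e he) (dvd_mul_left _ _)).le
      (fun j hj j' hj' hjj _ _ => by
        have h1 : (V j).map ρ = (V j').map ρ := by
          rw [hVdef]
          simp only
          rw [tn_map, tn_map, hred j hj j' hj' hjj]
        simp only [h1]) hsum0.le) c
  refine ⟨T, ?_, ?_⟩
  · rwa [← Finset.sum_mul] at hT
  · intro v hv nv' hnv Pv Wv hPv hWv
    refine order_eq hℓ hn0 K hχ V hV0 (hTv v hv) hWm ?_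
    have hscale : ∀ j ∈ Finset.Ico 1 (n * ℓ ^ a), cE d nv' (χ ^ j) =
        (((Q j).comp (C ((χ ^ j) ((v : k) ^ n)) * X) : Polynomial (𝓞 K)) :
          PowerSeries (𝓞 K)) := by
      intro j hj
      rw [cE_twist hfin (χ ^ j) _ hnv, hQ j hj]
      ext i
      rw [PowerSeries.coeff_rescale, Polynomial.coeff_coe, Polynomial.coeff_coe,
        Polynomial.comp_C_mul_X_coeff, mul_comm]
    have hPvm : Pv.map (algebraMap ℤ (𝓞 K)) = ∏ j ∈ Finset.Ico 1 (n * ℓ ^ a),
        (Q j).comp (C ((χ ^ j) ((v : k) ^ n)) * X) := by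
      apply Polynomial.coe_injective (𝓞 K)
      rw [Polynomial.polynomial_map_coe, ← hPv, Pool.Agent.W343.BSD.coe_prod']
      exact Finset.prod_congr rfl hscale
    rw [show Wv.map (algebraMap ℤ (𝓞 K)) = tn B (Pv.map (algebraMap ℤ (𝓞 K))) from hWv, hPvm,
      tn_prod]
    exact Finset.prod_congr rfl fun j _ => tn_comp B _ _

end tower

end Pool.Agent.H313.CC
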